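import Pool.Agent.H89.GM.Mark

/-!
# Approximate equality with respect to a valuation, and the residue relation
-/

set_option autoImplicit false
set_option linter.all false

open Polynomial IsDedekindDomain WithZero
open scoped Classical

namespace Pool.Agent.H89.GM

open Pool.Agent.Y160.SE (IsPw)
open Pool.Agent.Q45.TT (val_under ram_ne_zero exists_above sum_ef)

section ap

variable {F Γ : Type} [Field F] [LinearOrderedCommGroupWithZero Γ] {v : Valuation F Γ} {a b c d : F}

/-- The elements have the same leading term. -/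
def Ap (v : Valuation F Γ) (a b : F) : Prop := v (a - b) < v a

theorem Ap.ne (h : Ap v a b) : a ≠ 0 := by
  rintro rfl
  have h1 : v (0 - b) < v 0 := h
  rw [map_zero] at h1
  exact not_lt_zero' h1

theorem Ap.val (h : Ap v a b) : v b = v a := by
  refine Valuation.map_eq_of_sub_lt v ?_
  rw [Valuation.map_sub_swap]
  exact h

theorem Ap.symm (h : Ap v a b) : Ap v b a := by
  unfold Ap
  rw [h.val, Valuation.map_sub_swap]
  exact h

theorem Ap.refl (h : a ≠ 0) : Ap v a a := by
  unfold Ap
  rw [sub_self, map_zero]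
  exact zero_lt_iff.2 ((Valuation.ne_zero_iff _).2 h)

theorem Ap.trans (h : Ap v a b) (h' : Ap v b c) : Ap v a c := by
  unfold Ap
  have h1 : a - c = (a - b) + (b - c) := by ring
  rw [h1]
  refine Valuation.map_add_lt _ h ?_
  rw [← h.val]
  exact h'

theorem Ap.mul (h : Ap v a b) (h' : Ap v c d) : Ap v (a * c) (b * d) := by
  unfold Ap
  have h1 : a * c - b * d = (a - b) * c + b * (c - d) := by ring
  have ha : 0 < v a := zero_lt_iff.2 ((Valuation.ne_zero_iff _).2 h.ne)
  have hc : 0 < v c := zero_lt_iff.2 ((Valuation.ne_zero_iff _).2 h'.ne)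
  rw [h1, map_mul v a c]
  refine Valuation.map_add_lt _ ?_ ?_
  · rw [map_mul]
    exact mul_lt_mul_of_pos_right h hc
  · rw [map_mul, h.val]
    exact mul_lt_mul_of_pos_left h' ha

theorem Ap.pow (h : Ap v a b) (n : ℕ) : Ap v (a ^ n) (b ^ n) := by
  induction n with
  | zero =>
    rw [pow_zero, pow_zero]
    exact Ap.refl one_ne_zero
  | succ n ih =>
    rw [pow_succ, pow_succ]
    exact ih.mul h

theorem Ap.cancel (hc : c ≠ 0) (h : Ap v (c * a) (c * b)) : Ap v a b := by
  unfold Ap at h ⊢
  rw [← mul_sub, map_mul, map_mul] at h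
  exact lt_of_mul_lt_mul_left' h

end ap

section ring

variable {A K B L : Type} [CommRing A] [IsDedekindDomain A] [Field K] [Algebra A K]
  [IsFractionRing A K] [CommRing B] [IsDedekindDomain B] [Field L] [Algebra B L] [IsFractionRing B L]
  [Algebra K L] [Algebra A B] [Algebra A L] [IsScalarTower A K L] [IsScalarTower A B L]
  [Module.IsTorsionFree A B]

/-- The leading terms. -/
theorem lead' [Module.Finite A B] {N : ℕ} (hN : 1 < N) {D : K} {s : L}
    (h : IsKN N D s) (w : HeightOneSpectrum B) (hd : (w.under A).valuation K D = exp (-1 : ℤ))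
    {ζ : K} (hζ : ζ ^ N = 1) {γ : L ≃ₐ[K] L} (hγ : γ s = algebraMap K L ζ * s) {x : L} (hx : x ≠ 0) :
    ∃ (c : K) (i : ℕ), c ≠ 0 ∧
      Ap (w.valuation L) x (algebraMap K L c * s ^ i) ∧
      Ap (w.valuation L) (algebraMap K L ζ ^ i * (algebraMap K L c * s ^ i)) (γ x) ∧
      w.valuation L x = (w.under A).valuation K c ^ N * exp (-(i : ℤ)) := by
  obtain ⟨c, i, hc, h1, h3, h4⟩ := lead (A := A) hN h w hd hζ hγ hx
  have h1' : Ap (w.valuation L) x (algebraMap K L c * s ^ i) := h1
  refine ⟨c, i, hc, h1', ?_, h4⟩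
  have hζ1 : w.valuation L (algebraMap K L ζ) = 1 := by
    have h1 : w.valuation L (algebraMap K L ζ) ^ N = 1 := by
      rw [← map_pow, ← map_pow, hζ, map_one, map_one]
    exact (pow_eq_one_iff.1 h1).resolve_right (by omega)
  unfold Ap
  rw [map_mul, map_pow (w.valuation L), hζ1, one_pow, one_mul, h1'.val, Valuation.map_sub_swap]
  have h5 : algebraMap K L (ζ ^ i * c) * s ^ i =
      algebraMap K L ζ ^ i * (algebraMap K L c * s ^ i) := by
    rw [map_mul, map_pow, mul_assoc]
  rw [← h5]
  exact h3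

/-- **The residue relation.** -/
theorem rel_res [Module.Finite A B] {p M N : ℕ} (hp : p.Prime) (hM : M ≠ 0) (hNM : N = p * M)
    {D : K} {s : L} (h : IsKN N D s) (w : HeightOneSpectrum B)
    (hd : (w.under A).valuation K D = exp (-1 : ℤ))
    {ζ : K} (hζ : ζ ^ N = 1) {γ : L ≃ₐ[K] L} (hγ : γ s = algebraMap K L ζ * s) {x y : L}
    (hx : x ≠ 0) (hy : y ≠ 0) {u : K} (hu : u ≠ 0) (hev : IsPw p (w.valuation L x))
    (hxy : γ x = x * algebraMap K L u * y ^ p) :
    ∃ (b : K) (k j : ℕ), b ≠ 0 ∧
      Ap ((w.under A).valuation K) (ζ ^ (p * j)) (u * D ^ k * b ^ p) := by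
  haveI : Algebra.IsIntegral A B := Algebra.IsIntegral.of_finite A B
  have hN : 1 < N := by
    rw [hNM]
    exact lt_of_lt_of_le hp.one_lt (Nat.le_mul_of_pos_right _ (Nat.pos_of_ne_zero hM))
  obtain ⟨he, hs, -⟩ := ram_tot (A := A) hN h w hd
  obtain ⟨c, i, hc, h1, h3, h4⟩ := lead' (A := A) hN h w hd hζ hγ hx
  obtain ⟨d, i', hd', h5, -, h7⟩ := lead' (A := A) hN h w hd hζ hγ hy
  have hs0 : s ≠ 0 := h.s_ne hN
  have hcL : algebraMap K L c ≠ 0 := (_root_.map_ne_zero _).2 hc
  have huL : algebraMap K L u ≠ 0 := (_root_.map_ne_zero _).2 hu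
  have hζ1 : w.valuation L (algebraMap K L ζ) = 1 := by
    have h1 : w.valuation L (algebraMap K L ζ) ^ N = 1 := by
      rw [← map_pow, ← map_pow, hζ, map_one, map_one]
    exact (pow_eq_one_iff.1 h1).resolve_right (by omega)
  -- the approximation
  have h8 : Ap (w.valuation L) (algebraMap K L ζ ^ i)
      (algebraMap K L u * (algebraMap K L d * s ^ i') ^ p) := by
    have h9 : Ap (w.valuation L) (γ x)
        ((algebraMap K L c * s ^ i) * algebraMap K L u * (algebraMap K L d * s ^ i') ^ p) := by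
      rw [hxy]
      exact (h1.mul (Ap.refl huL)).mul (h5.pow p)
    have h10 := h3.trans h9
    rw [mul_comm, mul_assoc (algebraMap K L c * s ^ i)] at h10
    exact Ap.cancel (mul_ne_zero hcL (pow_ne_zero _ hs0)) h10
  -- the exponents
  have hdv : (w.under A).valuation K d ≠ 0 := (Valuation.ne_zero_iff _).2 hd'
  have huv : (w.under A).valuation K u ≠ 0 := (Valuation.ne_zero_iff _).2 hu
  have hcv : (w.under A).valuation K c ≠ 0 := (Valuation.ne_zero_iff _).2 hc
  obtain ⟨k, hk⟩ : ∃ k : ℕ, i' = M * k := by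
    have h9 := h8.val
    rw [map_pow, hζ1, one_pow, map_mul, map_pow, map_mul, map_pow, hs, val_under (A := A),
      val_under (A := A), he, ← exp_log hdv, ← exp_log huv] at h9
    simp only [← exp_nsmul, ← exp_add] at h9
    rw [← exp_zero] at h9
    have h10 := exp_injective h9
    simp only [nsmul_eq_mul] at h10
    have hp0 : (p : ℤ) ≠ 0 := by exact_mod_cast hp.ne_zero
    have h11 : (i' : ℤ) = M * (log ((w.under A).valuation K u) +
        p * log ((w.under A).valuation K d)) := by
      apply mul_left_cancel₀ hp0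
      rw [hNM] at h10
      push_cast at h10
      linarith
    have h12 : (M : ℤ) ∣ i' := ⟨_, h11⟩
    exact Int.natCast_dvd_natCast.1 h12
  obtain ⟨j, hj⟩ : ∃ j : ℕ, i = p * j := by
    obtain ⟨δ, hδ⟩ := hev
    have hδ0 : δ ≠ 0 := by
      rintro rfl
      rw [zero_pow hp.ne_zero] at hδ
      exact (Valuation.ne_zero_iff _).2 hx hδ
    rw [h4, ← exp_log hcv, ← exp_log hδ0] at hδ
    simp only [← exp_nsmul, ← exp_add] at hδ
    have h10 := exp_injective hδ
    simp only [nsmul_eq_mul] at h10
    rw [hNM] at h10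
    push_cast at h10
    have h12 : (p : ℤ) ∣ i := ⟨M * log ((w.under A).valuation K c) - log δ, by linarith⟩
    exact Int.natCast_dvd_natCast.1 h12
  subst hk hj
  refine ⟨d, k, j, hd', ?_⟩
  have h9 : algebraMap K L u * (algebraMap K L d * s ^ (M * k)) ^ p =
      algebraMap K L (u * D ^ k * d ^ p) := by
    rw [map_mul, map_mul, map_pow (algebraMap K L) D, map_pow (algebraMap K L) d, ← h.pw, mul_pow,
      ← pow_mul, ← pow_mul, hNM]
    ring
  rw [h9, ← map_pow] at h8
  unfold Ap at h8 ⊢
  rw [← map_sub, val_under (A := A), val_under (A := A), he] at h8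
  exact lt_of_pow_lt_pow_left₀ N zero_le' h8

end ring

end Pool.Agent.H89.GM
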