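import Pool.Agent.H89.GM.KumN

/-!
# Classes modulo `p`-th powers and the norm
-/

set_option autoImplicit false
set_option linter.all false

open Polynomial IsDedekindDomain WithZero
open scoped Classical

namespace Pool.Agent.H89.GM

open Pool.Agent.H89.GB
open Pool.Agent.H89.KT (root_of norm_gal)

section cls

variable {O : Type} [CommRing O] [IsDedekindDomain O] {f : O[X]} {p N M : ℕ} {K' K L' L : Type}
  [Field K'] [Field K] [Field L'] [Field L] [Algebra O K'] [Algebra O K] [Algebra O L'] [Algebra O L]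
  [Algebra K' K] [Algebra K' L'] [Algebra K L] [Algebra L' L] [Algebra K' L]
  [IsScalarTower K' K L] [IsScalarTower K' L' L] [IsScalarTower O K' K]
  [IsScalarTower O K' L'] [IsScalarTower O L' L] [IsScalarTower O K L]
  {D : K'} {s : K}

/-- The norm of `w`, if `γ z = z w ^ p`. -/
theorem norm_w (hp : p.Prime) (hf : Pol p f) (hNM : N = p * M) (hM : M ≠ 0)
    (hNn : N.Coprime f.natDegree) (hq : IsKN N D s) {θ' : L'}
    (hθ' : aeval θ' (fK f K') = 0)
    (htop' : IntermediateField.adjoin K' {θ'} = ⊤)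
    (htop : IntermediateField.adjoin K {algebraMap L' L θ'} = ⊤)
    (hirr' : Irreducible (fK f K')) (hirr : Irreducible (fK f K))
    {ζ : K'} (hζ : IsPrimitiveRoot ζ N) {γ : L ≃ₐ[L'] L}
    (hγ : γ (algebraMap K L s) = algebraMap L' L (algebraMap K' L' ζ) * algebraMap K L s)
    {z : L} (hz : z ≠ 0) {y : K} (hy : Algebra.norm K z = y ^ p) {w : L} (hw : w ≠ 0)
    (hzw : γ z = z * w ^ p) : Algebra.norm L' w = 1 := by
  have hN : 1 < N := by
    rw [hNM]
    exact lt_of_lt_of_le hp.one_lt (Nat.le_mul_of_pos_right _ (Nat.pos_of_ne_zero hM))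
  have hm' : (fK f K').Monic := fK_monic hf K'
  have hm : (fK f K).Monic := fK_monic hf K
  have hqL : IsKN N (algebraMap K' L' D) (algebraMap K L s) :=
    kn_up hq htop' htop hm' (by rw [fK_natDegree hf]; exact hNn) hirr' hθ'
  haveI := hq.fin
  haveI := hqL.fin
  haveI : FiniteDimensional K' L' := Pool.Agent.Q45.TW.fin_of hm' hθ' htop'
  have hθ : aeval (algebraMap L' L θ') (fK f K) = 0 := by
    rw [← fK_alg (K' := K'), aeval_map_algebraMap, aeval_algebraMap_apply, hθ', map_zero]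
  haveI : FiniteDimensional K L := Pool.Agent.Q45.TW.fin_of hm hθ htop
  haveI : FiniteDimensional K' L := Module.Finite.trans K L
  have hn' : Module.finrank K' L' = f.natDegree := by
    rw [Pool.Agent.Q45.TW.finrank_of hirr' hm' hθ' htop', fK_natDegree hf]
  obtain ⟨γ₀, hγ₀, -⟩ := hq.exists_gen hN hζ
  have hcomp := gal_comp hq hγ₀ hγ
  have hζp : IsPrimitiveRoot (ζ ^ M) p :=
    hζ.pow (Nat.pos_of_ne_zero hq.nz) (by rw [hNM, mul_comm])
  have hNz : Algebra.norm K z ≠ 0 := (Algebra.norm_ne_zero_iff).2 hz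
  have hy0 : y ≠ 0 := by
    rintro rfl
    rw [zero_pow hp.ne_zero] at hy
    exact hNz hy
  have hNw : Algebra.norm K w ≠ 0 := (Algebra.norm_ne_zero_iff).2 hw
  -- the norm to `K'` of `w`
  have h1 : (γ₀ y) ^ p = (y * Algebra.norm K w) ^ p := by
    rw [← map_pow, ← hy, ← norm_gal hcomp, hzw, map_mul, map_pow, hy, mul_pow]
  obtain ⟨j, hj⟩ := root_of hp (hζp.map_of_injective (algebraMap K' K).injective)
    (mul_ne_zero hy0 hNw) h1
  have hNy : Algebra.norm K' y ≠ 0 := (Algebra.norm_ne_zero_iff).2 hy0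
  have h3 : Algebra.norm K' (Algebra.norm K w) = 1 := by
    have h4 := congrArg (Algebra.norm K') hj
    have h5 : Algebra.norm K' (γ₀ y) = Algebra.norm K' y := Algebra.norm_eq_of_algEquiv γ₀ y
    rw [h5, map_mul, map_mul, ← map_pow, Algebra.norm_algebraMap, hq.finrank,
      ← pow_mul, ← pow_mul, show M * (j * N) = N * (M * j) by ring, pow_mul, hζ.pow_eq_one,
      one_pow, one_mul] at h4
    have h6 : Algebra.norm K' y * (Algebra.norm K' (Algebra.norm K w) - 1) = 0 := by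
      rw [mul_sub, mul_one, ← h4, sub_self]
    exact sub_eq_zero.1 ((mul_eq_zero.1 h6).resolve_left hNy)
  rw [Algebra.norm_norm] at h3
  -- the norm to `L'`
  have h5 : (Algebra.norm L' w) ^ p = 1 ^ p := by
    have h6 : Algebra.norm L' (γ z) = Algebra.norm L' z := Algebra.norm_eq_of_algEquiv γ z
    rw [hzw, map_mul, map_pow] at h6
    have h7 : Algebra.norm L' z ≠ 0 := (Algebra.norm_ne_zero_iff).2 hz
    rw [one_pow]
    have h8 : Algebra.norm L' z * (Algebra.norm L' w ^ p - 1) = 0 := by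
      rw [mul_sub, mul_one, h6, sub_self]
    exact sub_eq_zero.1 ((mul_eq_zero.1 h8).resolve_left h7)
  obtain ⟨i, hi⟩ := root_of hp (hζp.map_of_injective (algebraMap K' L').injective) one_ne_zero h5
  rw [mul_one, ← map_pow] at hi
  have h6 : ((ζ ^ M) ^ i) ^ f.natDegree = 1 := by
    rw [← hn', ← Algebra.norm_algebraMap (S := L'), ← hi, Algebra.norm_norm, h3]
  have h7 : p ∣ i := by
    rw [← pow_mul] at h6
    exact hf.cop.dvd_of_dvd_mul_right (hζp.dvd_of_pow_eq_one _ h6)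
  rw [hi, (hζp.pow_eq_one_iff_dvd i).2 h7, map_one]

/-- **A class fixed by the Galois group comes from the smaller field.** -/
theorem fixed_class (hp : p.Prime) (hf : Pol p f) (hNM : N = p * M) (hM : M ≠ 0)
    (hNn : N.Coprime f.natDegree) (hq : IsKN N D s) {θ' : L'}
    (hθ' : aeval θ' (fK f K') = 0)
    (htop' : IntermediateField.adjoin K' {θ'} = ⊤)
    (htop : IntermediateField.adjoin K {algebraMap L' L θ'} = ⊤)
    (hirr' : Irreducible (fK f K')) (hirr : Irreducible (fK f K)) (hsep' : (fK f K').Separable)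
    {ζ : K'} (hζ : IsPrimitiveRoot ζ N) {γ : L ≃ₐ[L'] L}
    (hγ : γ (algebraMap K L s) = algebraMap L' L (algebraMap K' L' ζ) * algebraMap K L s)
    (hγ2 : ∀ x, x ∈ Subgroup.zpowers γ)
    {z : L} (hz : z ≠ 0) {y : K} (hy : Algebra.norm K z = y ^ p) {w : L} (hw : w ≠ 0)
    (hzw : γ z = z * w ^ p) :
    ∃ (z' : L') (v : L) (c : K'), z' ≠ 0 ∧ v ≠ 0 ∧ Algebra.norm K' z' = c ^ p ∧
      z = algebraMap L' L z' * v ^ p := by
  have hN : 1 < N := by
    rw [hNM]
    exact lt_of_lt_of_le hp.one_lt (Nat.le_mul_of_pos_right _ (Nat.pos_of_ne_zero hM))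
  have hm' : (fK f K').Monic := fK_monic hf K'
  have hm : (fK f K).Monic := fK_monic hf K
  have hqL : IsKN N (algebraMap K' L' D) (algebraMap K L s) :=
    kn_up hq htop' htop hm' (by rw [fK_natDegree hf]; exact hNn) hirr' hθ'
  haveI := hq.fin
  haveI := hqL.fin
  haveI : FiniteDimensional K' L' := Pool.Agent.Q45.TW.fin_of hm' hθ' htop'
  have hθ : aeval (algebraMap L' L θ') (fK f K) = 0 := by
    rw [← fK_alg (K' := K'), aeval_map_algebraMap, aeval_algebraMap_apply, hθ', map_zero]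
  haveI : FiniteDimensional K L := Pool.Agent.Q45.TW.fin_of hm hθ htop
  have hn' : Module.finrank K' L' = f.natDegree := by
    rw [Pool.Agent.Q45.TW.finrank_of hirr' hm' hθ' htop', fK_natDegree hf]
  have h8 : Algebra.norm L' w = 1 :=
    norm_w hp hf hNM hM hNn hq hθ' htop' htop hirr' hirr hζ hγ hz hy hw hzw
  -- Hilbert's theorem 90
  obtain ⟨v, hv0, hv⟩ := hqL.hilbert hN hγ2 h8
  have hfix : γ (z / v ^ p) = z / v ^ p := by
    rw [map_div₀, map_pow, hv, hzw, mul_pow]
    have := pow_ne_zero p hw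
    have := pow_ne_zero p hv0
    field_simp
  obtain ⟨z₁, hz₁⟩ := hqL.fixed hN hγ2 hfix
  have hzz : z = algebraMap L' L z₁ * v ^ p := by
    rw [hz₁, div_mul_cancel₀ _ (pow_ne_zero p hv0)]
  have hz₁0 : z₁ ≠ 0 := by
    rintro rfl
    rw [map_zero, zero_mul] at hzz
    exact hz hzz
  have hno : Algebra.norm K (algebraMap L' L z₁) = algebraMap K' K (Algebra.norm K' z₁) :=
    Pool.Agent.Q45.TW.norm_base hm' hsep' hirr' (by rwa [fK_alg]) hθ' htop' htop z₁
  have hNv : Algebra.norm K v ≠ 0 := (Algebra.norm_ne_zero_iff).2 hv0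
  have hν0 : Algebra.norm K' z₁ ≠ 0 := (Algebra.norm_ne_zero_iff).2 hz₁0
  have h9 : (y / Algebra.norm K v) ^ p = algebraMap K' K (Algebra.norm K' z₁) := by
    rw [div_pow, ← hy, ← hno, div_eq_iff (pow_ne_zero p hNv), ← map_pow, ← map_mul, ← hzz]
  obtain ⟨c, j', hc, hcν⟩ := hq.pw_base hp hNM hN hν0 h9
  -- correction by a power of `D`
  obtain ⟨a, ha⟩ : ∃ a : ℕ, p ∣ j' + f.natDegree * a := by
    haveI : NeZero p := ⟨hp.ne_zero⟩
    obtain ⟨b, -, hb⟩ := Nat.exists_mul_mod_eq_one_of_coprime hf.cop.symm hp.one_lt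
    obtain ⟨q, hq⟩ : ∃ q, f.natDegree * b = 1 + p * q :=
      ⟨f.natDegree * b / p, by rw [← hb, Nat.mod_add_div]⟩
    obtain ⟨r, hr⟩ : ∃ r, p = r + 1 := Nat.exists_eq_succ_of_ne_zero hp.ne_zero
    refine ⟨b * (r * j'), j' + q * (r * j'), ?_⟩
    rw [← mul_assoc, hq, hr]
    ring
  obtain ⟨b, hb⟩ := ha
  have hs : algebraMap K L s ≠ 0 := (_root_.map_ne_zero _).2 (hq.s_ne hN)
  have hD' : algebraMap K' L' D ≠ 0 := (_root_.map_ne_zero _).2 (hq.D_ne hN)
  refine ⟨z₁ * algebraMap K' L' D ^ a, v / algebraMap K L s ^ (M * a), c * D ^ b,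
    mul_ne_zero hz₁0 (pow_ne_zero _ hD'), div_ne_zero hv0 (pow_ne_zero _ hs), ?_, ?_⟩
  · rw [map_mul, ← map_pow, Algebra.norm_algebraMap, hn', hcν, mul_pow, ← pow_mul, ← pow_mul, mul_assoc,
      ← pow_add, mul_comm a, hb, mul_comm b]
  · rw [hzz, map_mul, map_pow, ← hqL.pw, div_pow, ← pow_mul, ← pow_mul,
      show M * a * p = N * a by rw [hNM]; ring]
    have := pow_ne_zero (N * a) hs
    field_simp

end cls

end Pool.Agent.H89.GM
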