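import Pool.Agent.H89.GM.MStep

/-!
# Subgroups of `Lˣ / p` stable under a cyclic group of order `p ^ n`
-/

set_option autoImplicit false
set_option linter.all false

open Polynomial IsDedekindDomain WithZero
open scoped Classical

namespace Pool.Agent.H89.GM

/-- In the ring of endomorphisms, `(φ - 1) ^ (p ^ n)` is divisible by `p` if `φ ^ (p ^ n) = 1`. -/
theorem sub_one_pow {R : Type} [Ring R] {p n : ℕ} (hp : p.Prime) (hn : n ≠ 0) (φ : R)
    (hφ : φ ^ (p ^ n) = 1) : ∃ r : R, (φ - 1) ^ (p ^ n) = p * r := by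
  obtain ⟨r, hr⟩ := Commute.exists_add_pow_prime_pow_eq hp (x := φ) (y := -1)
    ((Commute.one_right φ).neg_right) n
  rw [← sub_eq_add_neg, hφ] at hr
  rcases hp.eq_two_or_odd' with h2 | h2
  · subst h2
    refine ⟨1 + φ * (-1) * r, ?_⟩
    have h3 : Even (2 ^ n) := (Nat.even_pow.2 ⟨by decide, hn⟩)
    rw [hr, h3.neg_one_pow]
    push_cast
    noncomm_ring
  · refine ⟨φ * (-1) * r, ?_⟩
    rw [hr, (h2.pow : Odd (p ^ n)).neg_one_pow]
    noncomm_ring

/-- If every class in a subgroup `P` of `Lˣ / p` which is stable under `g`, whose image under `g - 1`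
is in the subgroup `W`, is in `W`, then `P` is in `W`. -/
theorem cycW {L : Type} [Field L] {p n : ℕ} (hp : p.Prime) (hn : n ≠ 0) (g : L ≃+* L)
    (hg : g ^ (p ^ n) = 1) (P W : L → Prop) (hdiv : ∀ z, z ≠ 0 → P z → P (g z / z))
    (hW : ∀ z, z ≠ 0 → W (z ^ p))
    (hfix : ∀ z, z ≠ 0 → P z → W (g z / z) → W z)
    {z : L} (hz : z ≠ 0) (hP : P z) : W z := by
  let ψ : Lˣ →* Lˣ := Units.map (g : L →* L)
  let φ : AddMonoid.End (Additive Lˣ) := MonoidHom.toAdditive ψ
  have hφ1 : ∀ u : Lˣ, ((φ (Additive.ofMul u)).toMul : L) = g u := fun u => rfl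
  have hφn : ∀ (n : ℕ) (u : Lˣ), (((φ ^ n) (Additive.ofMul u)).toMul : L) = (g ^ n) u := by
    intro n
    induction n with
    | zero => intro u; rfl
    | succ n ih =>
      intro u
      have h1 : (φ ^ (n + 1)) (Additive.ofMul u) = (φ ^ n) (Additive.ofMul (φ (Additive.ofMul u)).toMul) := by
        rw [pow_succ]
        rfl
      have h3 : (g ^ (n + 1)) (u : L) = (g ^ n) (g (u : L)) := by
        rw [pow_succ]
        rfl
      rw [h1, ih, h3]
      rfl
  have hφp : φ ^ (p ^ n) = 1 := by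
    refine AddMonoidHom.ext fun m => ?_
    obtain ⟨u, rfl⟩ := Additive.ofMul.surjective m
    have h1 := hφn (p ^ n) u
    rw [hg] at h1
    show (φ ^ (p ^ n)) (Additive.ofMul u) = Additive.ofMul u
    apply Additive.toMul.injective
    exact Units.ext h1
  obtain ⟨r, hr⟩ := sub_one_pow hp hn φ hφp
  have key : ∀ (l : ℕ) (u : Lˣ), P (u : L) →
      (W ((((φ - 1) ^ l) (Additive.ofMul u)).toMul : Lˣ)) → W (u : L) := by
    intro l
    induction l with
    | zero =>
      intro u hu hm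
      exact hm
    | succ l ih =>
      intro u hu hm
      have h1 : ((φ - 1) ^ (l + 1)) (Additive.ofMul u) =
          ((φ - 1) ^ l) (Additive.ofMul (ψ u / u)) := by
        rw [pow_succ]
        rfl
      rw [h1] at hm
      have h3 : ((ψ u / u : Lˣ) : L) = g u / u := Units.val_div_eq_div_val _ _
      have h5 := ih (ψ u / u) (by rw [h3]; exact hdiv _ u.ne_zero hu) hm
      rw [h3] at h5
      exact hfix _ u.ne_zero hu h5
  refine key (p ^ n) (Units.mk0 z hz) hP ?_
  rw [hr]
  have h1 : ((p : AddMonoid.End (Additive Lˣ)) * r) = p • r := (nsmul_eq_mul p r).symm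
  rw [h1]
  have h3 : (((p • r) (Additive.ofMul (Units.mk0 z hz))).toMul : Lˣ) =
      ((r (Additive.ofMul (Units.mk0 z hz))).toMul : Lˣ) ^ p := rfl
  rw [h3, Units.val_pow_eq_pow_val]
  exact hW _ (Units.ne_zero _)

/-- The norm in a quadratic extension. -/
theorem norm_two {F E : Type} [Field F] [Field E] [Algebra F E] [FiniteDimensional F E] [IsGalois F E]
    {γ : E ≃ₐ[F] E} (hγ : ∀ x, x ∈ Subgroup.zpowers γ) (hcard : Nat.card (E ≃ₐ[F] E) = 2) (z : E) :
    algebraMap F E (Algebra.norm F z) = z * γ z := by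
  rw [Algebra.norm_eq_prod_automorphisms]
  have hγ1 : γ ≠ 1 := by
    rintro rfl
    have h1 : ∀ x : E ≃ₐ[F] E, x = 1 := by
      intro x
      have h3 := hγ x
      rwa [Subgroup.zpowers_one_eq_bot, Subgroup.mem_bot] at h3
    haveI : Subsingleton (E ≃ₐ[F] E) := ⟨fun x y => by rw [h1 x, h1 y]⟩
    rw [Nat.card_unique] at hcard
    norm_num at hcard
  have h1 : (Finset.univ : Finset (E ≃ₐ[F] E)) = {1, γ} := by
    symm
    apply Finset.eq_univ_of_card
    rw [Finset.card_pair hγ1.symm, ← Nat.card_eq_fintype_card, hcard]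
  rw [h1, Finset.prod_pair hγ1.symm]
  rfl

end Pool.Agent.H89.GM
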