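import Pool.Agent.H89.GM.Ram

/-!
# The leading term of an element at a totally ramified place
-/

set_option autoImplicit false
set_option linter.all false

open Polynomial IsDedekindDomain WithZero
open scoped Classical

namespace Pool.Agent.H89.GM

open Pool.Agent.Y160.SE (IsPw)
open Pool.Agent.Q45.TT (val_under ram_ne_zero exists_above sum_ef)

section ring

variable {A K B L : Type} [CommRing A] [IsDedekindDomain A] [Field K] [Algebra A K]
  [IsFractionRing A K] [CommRing B] [IsDedekindDomain B] [Field L] [Algebra B L] [IsFractionRing B L]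
  [Algebra K L] [Algebra A B] [Algebra A L] [IsScalarTower A K L] [IsScalarTower A B L]
  [Module.IsTorsionFree A B]

/-- The leading term of an element, and of its conjugate, at a totally ramified place. -/
theorem lead [Module.Finite A B] {N : ℕ} (hN : 1 < N) {D : K} {s : L}
    (h : IsKN N D s) (w : HeightOneSpectrum B) (hd : (w.under A).valuation K D = exp (-1 : ℤ))
    {ζ : K} (hζ : ζ ^ N = 1) {γ : L ≃ₐ[K] L} (hγ : γ s = algebraMap K L ζ * s) {x : L} (hx : x ≠ 0) :
    ∃ (c : K) (i : ℕ), c ≠ 0 ∧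
      w.valuation L (x - algebraMap K L c * s ^ i) < w.valuation L x ∧
      w.valuation L (γ x - algebraMap K L (ζ ^ i * c) * s ^ i) < w.valuation L x ∧
      w.valuation L x = (w.under A).valuation K c ^ N * exp (-(i : ℤ)) := by
  haveI : Algebra.IsIntegral A B := Algebra.IsIntegral.of_finite A B
  obtain ⟨he, hs, -⟩ := ram_tot (A := A) hN h w hd
  obtain ⟨P₀, hP₀⟩ := h.rep x
  obtain ⟨P, hP, hdeg⟩ : ∃ P : K[X], x = aeval s P ∧ P.degree < N := by
    refine ⟨P₀ %ₘ (X ^ N - C D), ?_, ?_⟩
    · rw [hP₀, Polynomial.aeval_modByMonic_eq_self_of_root h.root]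
    · have h1 := degree_modByMonic_lt P₀ h.mon
      rwa [degree_X_pow_sub_C (by omega)] at h1
  have hsum : x = ∑ i ∈ Finset.range N, algebraMap K L (P.coeff i) * s ^ i := by
    rw [hP, aeval_eq_sum_range' (n := N)]
    · exact Finset.sum_congr rfl fun i _ => Algebra.smul_def _ _
    · by_cases hP0 : P = 0
      · rw [hP0, natDegree_zero]; omega
      · exact (natDegree_lt_iff_degree_lt hP0).2 hdeg
  set T := (Finset.range N).filter fun i => P.coeff i ≠ 0 with hT
  set t : ℕ → L := fun i => algebraMap K L (P.coeff i) * s ^ i with ht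
  have hsumT : x = ∑ i ∈ T, t i := by
    rw [hsum, hT, Finset.sum_filter]
    refine Finset.sum_congr rfl fun i _ => ?_
    split_ifs with h1
    · rfl
    · rw [not_not] at h1
      show algebraMap K L (P.coeff i) * s ^ i = 0
      rw [h1, map_zero, zero_mul]
  have hval : ∀ i, w.valuation L (t i) = (w.under A).valuation K (P.coeff i) ^ N *
      exp (-(i : ℤ)) := by
    intro i
    rw [ht]
    simp only
    rw [map_mul, map_pow, val_under (A := A), he, hs, ← exp_nsmul]
    congr 2
    simp
  have hTne : T.Nonempty := by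
    rw [Finset.nonempty_iff_ne_empty]
    intro h0
    rw [h0, Finset.sum_empty] at hsumT
    exact hx hsumT
  have hinj : ∀ i ∈ T, ∀ j ∈ T, w.valuation L (t i) = w.valuation L (t j) → i = j := by
    intro i hi j hj hij
    rw [hT, Finset.mem_filter, Finset.mem_range] at hi hj
    rw [hval, hval] at hij
    have hi0 : (w.under A).valuation K (P.coeff i) ≠ 0 := (Valuation.ne_zero_iff _).2 hi.2
    have hj0 : (w.under A).valuation K (P.coeff j) ≠ 0 := (Valuation.ne_zero_iff _).2 hj.2
    rw [← exp_log hi0, ← exp_log hj0, ← exp_nsmul, ← exp_nsmul, ← exp_add, ← exp_add] at hij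
    have h3 := exp_injective hij
    rw [nsmul_eq_mul, nsmul_eq_mul] at h3
    have h4 : (N : ℤ) ∣ (i : ℤ) - j := ⟨log ((w.under A).valuation K (P.coeff i)) -
      log ((w.under A).valuation K (P.coeff j)), by linarith⟩
    have h6 : (i : ℤ) % N = (j : ℤ) % N := Int.ModEq.symm ((Int.modEq_iff_dvd).2 h4)
    rw [Int.emod_eq_of_lt (by omega) (by omega), Int.emod_eq_of_lt (by omega) (by omega)] at h6
    omega
  obtain ⟨i₀, hi₀, hmax⟩ := Finset.exists_max_image T (fun i => w.valuation L (t i)) hTne
  have hi₀' := hi₀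
  rw [hT, Finset.mem_filter, Finset.mem_range] at hi₀'
  have hs0 : s ≠ 0 := h.s_ne hN
  have hg : w.valuation L (t i₀) ≠ 0 := by
    rw [Valuation.ne_zero_iff]
    exact mul_ne_zero ((_root_.map_ne_zero _).2 hi₀'.2) (pow_ne_zero _ hs0)
  have hlt : ∀ i ∈ T.erase i₀, w.valuation L (t i) < w.valuation L (t i₀) := by
    intro i hi
    obtain ⟨h1, h3⟩ := Finset.mem_erase.1 hi
    exact lt_of_le_of_ne (hmax i h3) fun h4 => h1 (hinj i h3 i₀ hi₀ h4)
  have hx1 : x - t i₀ = ∑ i ∈ T.erase i₀, t i := by
    rw [hsumT, ← Finset.add_sum_erase _ _ hi₀, add_sub_cancel_left]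
  have hlt1 : w.valuation L (x - t i₀) < w.valuation L (t i₀) := by
    rw [hx1]
    exact Valuation.map_sum_lt _ hg hlt
  have hvx : w.valuation L x = w.valuation L (t i₀) := Valuation.map_eq_of_sub_lt _ hlt1
  have hζ1 : w.valuation L (algebraMap K L ζ) = 1 := by
    have h1 : w.valuation L (algebraMap K L ζ) ^ N = 1 := by
      rw [← map_pow, ← map_pow, hζ, map_one, map_one]
    exact (pow_eq_one_iff.1 h1).resolve_right (by omega)
  have hγt : ∀ i, γ (t i) = algebraMap K L ζ ^ i * t i := by
    intro i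
    rw [ht]
    simp only
    rw [map_mul, γ.commutes, map_pow, hγ, mul_pow]
    ring
  have hx3 : γ x - algebraMap K L (ζ ^ i₀ * P.coeff i₀) * s ^ i₀ =
      ∑ i ∈ T.erase i₀, algebraMap K L ζ ^ i * t i := by
    have h1 : algebraMap K L (ζ ^ i₀ * P.coeff i₀) * s ^ i₀ = algebraMap K L ζ ^ i₀ * t i₀ := by
      rw [ht]
      simp only
      rw [map_mul, map_pow]
      ring
    rw [h1, hsumT, map_sum, ← Finset.add_sum_erase _ _ hi₀, hγt, add_sub_cancel_left]
    exact Finset.sum_congr rfl fun i _ => hγt i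
  refine ⟨P.coeff i₀, i₀, hi₀'.2, ?_, ?_, ?_⟩
  · rw [hvx]
    exact hlt1
  · rw [hvx, hx3]
    refine Valuation.map_sum_lt _ hg fun i hi => ?_
    rw [map_mul, map_pow, hζ1, one_pow, one_mul]
    exact hlt i hi
  · rw [hvx, hval]

end ring

end Pool.Agent.H89.GM
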