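import Pool.Agent.H89.GM.Nm

/-!
# Kummer extensions of degree `N`
-/

set_option autoImplicit false
set_option linter.all false

open Polynomial
open scoped Classical

namespace Pool.Agent.H89.GM

/-- The field `K` is the extension of `K'` of degree `N` generated by an `N`-th root `s` of `D`. -/
structure IsKN {K' K : Type} [Field K'] [Field K] [Algebra K' K] (N : ℕ) (D : K') (s : K) : Prop where
  nz : N ≠ 0
  ne : (N : K') ≠ 0
  zeta : ∃ ζ : K', IsPrimitiveRoot ζ N
  pw : s ^ N = algebraMap K' K D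
  irr : Irreducible (X ^ N - C D : K'[X])
  top : IntermediateField.adjoin K' {s} = ⊤

section kum

variable {K K' : Type} [Field K'] [Field K] [Algebra K' K] {N : ℕ} {D : K'} {s : K}

theorem IsKN.mon (h : IsKN N D s) : (X ^ N - C D : K'[X]).Monic :=
  monic_X_pow_sub_C _ h.nz

theorem IsKN.root (h : IsKN N D s) : aeval s (X ^ N - C D : K'[X]) = 0 := by
  rw [map_sub, map_pow, aeval_X, aeval_C, h.pw, sub_self]

theorem IsKN.fin (h : IsKN N D s) : FiniteDimensional K' K :=
  Pool.Agent.Q45.TW.fin_of h.mon h.root h.top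

theorem IsKN.finrank (h : IsKN N D s) : Module.finrank K' K = N := by
  rw [Pool.Agent.Q45.TW.finrank_of h.irr h.mon h.root h.top, natDegree_X_pow_sub_C]

theorem IsKN.D_ne (h : IsKN N D s) (hN : 1 < N) : D ≠ 0 := by
  rintro rfl
  have h1 := h.irr
  rw [C_0, sub_zero] at h1
  exact h1.not_isUnit ((Irreducible.isUnit_or_isUnit h1 (show (X : K'[X]) ^ N = X * X ^ (N - 1) by
    rw [← pow_succ', Nat.sub_add_cancel hN.le])).elim (fun h => absurd h not_isUnit_X) fun h => by
      exact absurd ((isUnit_pow_iff (by omega)).1 h) not_isUnit_X)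

theorem IsKN.s_ne (h : IsKN N D s) (hN : 1 < N) : s ≠ 0 := by
  rintro rfl
  have h1 := h.pw
  rw [zero_pow h.nz] at h1
  exact h.D_ne hN ((_root_.map_eq_zero _).1 h1.symm)

theorem IsKN.sep (h : IsKN N D s) (hN : 1 < N) : (X ^ N - C D : K'[X]).Separable :=
  separable_X_pow_sub_C D h.ne (h.D_ne hN)

theorem IsKN.separable (h : IsKN N D s) (hN : 1 < N) : Algebra.IsSeparable K' K :=
  Pool.Agent.Q45.TW.sep_of (h.sep hN) h.root h.top

theorem IsKN.split (h : IsKN N D s) : IsSplittingField K' K (X ^ N - C D : K'[X]) := by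
  haveI := h.fin
  obtain ⟨ζ, hζ⟩ := h.zeta
  have h1 := isSplittingField_X_pow_sub_C_of_root_adjoin_eq_top (K := K') (L := K) (a := D) (α := s)
  rw [h.finrank] at h1
  exact h1 ⟨ζ, (mem_primitiveRoots (Nat.pos_of_ne_zero h.nz)).2 hζ⟩ h.pw h.top

theorem IsKN.galois (h : IsKN N D s) (hN : 1 < N) : IsGalois K' K := by
  haveI := h.split
  exact IsGalois.of_separable_splitting_field (h.sep hN)

theorem IsKN.card (h : IsKN N D s) (hN : 1 < N) : Nat.card (K ≃ₐ[K'] K) = N := by
  haveI := h.fin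
  haveI := h.galois hN
  rw [IsGalois.card_aut_eq_finrank, h.finrank]

/-- A generator of the Galois group. -/
theorem IsKN.exists_gen (h : IsKN N D s) (hN : 1 < N) {ζ : K'} (hζ : IsPrimitiveRoot ζ N) :
    ∃ g : K ≃ₐ[K'] K, g s = algebraMap K' K ζ * s ∧ ∀ x, x ∈ Subgroup.zpowers g := by
  haveI := h.fin
  haveI := h.galois hN
  haveI := h.split
  haveI : NeZero N := ⟨h.nz⟩
  have h1 := autEquivZmod_symm_apply_natCast h.irr K h.pw hζ 1
  set e := autEquivZmod h.irr K hζ with he
  set g := e.symm (Multiplicative.ofAdd ((1 : ℕ) : ZMod N)) with hg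
  rw [pow_one, Algebra.smul_def] at h1
  refine ⟨g, h1, fun x => ?_⟩
  refine ⟨(((e x).toAdd.val : ℕ) : ℤ), ?_⟩
  show g ^ (((e x).toAdd.val : ℕ) : ℤ) = x
  apply e.injective
  rw [zpow_natCast, map_pow, hg, MulEquiv.apply_symm_apply, ← ofAdd_nsmul]
  apply Multiplicative.toAdd.injective
  show (e x).toAdd.val • ((1 : ℕ) : ZMod N) = (e x).toAdd
  rw [nsmul_eq_mul, Nat.cast_one, mul_one, ZMod.natCast_zmod_val]

/-- The elements fixed by the generator are in the base. -/
theorem IsKN.fixed (h : IsKN N D s) (hN : 1 < N) {g : K ≃ₐ[K'] K}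
    (hg : ∀ x, x ∈ Subgroup.zpowers g) {x : K}
    (hx : g x = x) : ∃ y : K', algebraMap K' K y = x := by
  haveI := h.fin
  haveI := h.galois hN
  have h1 : x ∈ Set.range (algebraMap K' K) := by
    rw [IsGalois.mem_range_algebraMap_iff_fixed]
    intro f
    obtain ⟨n, rfl⟩ := hg f
    have h3 : g ∈ MulAction.stabilizer (K ≃ₐ[K'] K) x := hx
    exact (zpow_mem h3 n : g ^ n ∈ MulAction.stabilizer (K ≃ₐ[K'] K) x)
  exact h1

theorem IsKN.rep (h : IsKN N D s) (x : K) : ∃ P : K'[X], x = aeval s P :=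
  Pool.Agent.Q45.TW.exists_aeval h.mon h.root h.top x

/-- `p`-th powers of `K` which are in `K'`. -/
theorem IsKN.pw_base {p : ℕ} (hp : p.Prime) {M : ℕ} (hM : N = p * M) (h : IsKN N D s) (hN : 1 < N)
    {ν : K'} {κ : K} (hν : ν ≠ 0) (hκ : κ ^ p = algebraMap K' K ν) :
    ∃ (c : K') (j : ℕ), c ≠ 0 ∧ ν = c ^ p * D ^ j := by
  obtain ⟨ζ, hζ⟩ := h.zeta
  obtain ⟨g, hgs, hg⟩ := h.exists_gen hN hζ
  have hκ0 : κ ≠ 0 := by
    rintro rfl
    rw [zero_pow hp.ne_zero] at hκ
    exact hν ((_root_.map_eq_zero _).1 hκ.symm)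
  have hζp : IsPrimitiveRoot (ζ ^ M) p := hζ.pow (by omega) (by rw [hM, mul_comm])
  have h1 : (g κ) ^ p = κ ^ p := by rw [← map_pow, hκ, g.commutes]
  obtain ⟨j, hj⟩ := Pool.Agent.H89.KT.root_of hp
    (hζp.map_of_injective (algebraMap K' K).injective) hκ0 h1
  have hs := h.s_ne hN
  have hz : algebraMap K' K ζ ≠ 0 := (_root_.map_ne_zero _).2 (hζ.ne_zero h.nz)
  have hfix : g (κ / s ^ (M * j)) = κ / s ^ (M * j) := by
    rw [map_div₀, map_pow, hgs, hj, mul_pow, map_pow, ← pow_mul]
    exact mul_div_mul_left _ _ (pow_ne_zero _ hz)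
  obtain ⟨c, hc⟩ := h.fixed hN hg hfix
  have hκc : κ = algebraMap K' K c * s ^ (M * j) := by
    rw [hc, div_mul_cancel₀ _ (pow_ne_zero _ hs)]
  refine ⟨c, j, ?_, ?_⟩
  · rintro rfl
    rw [map_zero, zero_mul] at hκc
    exact hκ0 hκc
  · apply (algebraMap K' K).injective
    rw [← hκ, hκc, map_mul, map_pow, map_pow, ← h.pw, mul_pow, ← pow_mul, ← pow_mul]
    congr 2
    rw [hM]
    ring

/-- Hilbert's theorem 90: an element of norm one. -/
theorem IsKN.hilbert (h : IsKN N D s) (hN : 1 < N) {g : K ≃ₐ[K'] K}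
    (hg : ∀ x, x ∈ Subgroup.zpowers g) {w : K}
    (hw : Algebra.norm K' w = 1) : ∃ v : K, v ≠ 0 ∧ g v = w * v := by
  haveI := h.fin
  haveI := h.galois hN
  haveI : IsCyclic (K ≃ₐ[K'] K) := ⟨g, hg⟩
  obtain ⟨y, hy⟩ := groupCohomology.exists_div_of_norm_eq_one (g := g) hg hw
  have hy0 : (y : K) ≠ 0 := y.ne_zero
  have hgy : g (y : K) ≠ 0 := (_root_.map_ne_zero g).2 hy0
  refine ⟨(y : K)⁻¹, inv_ne_zero hy0, ?_⟩
  rw [map_inv₀, ← hy]
  field_simp

/-- The norm of `-s`. -/
theorem IsKN.norm_s (h : IsKN N D s) (hN : 1 < N) : Algebra.norm K' (-s) = -D := by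
  have h1 := norm_dvd (-D) h.mon h.irr (h.sep hN) h.root h.top (b := X) monic_X (by
    rw [C_neg, sub_neg_eq_add, sub_add_cancel]
    exact dvd_pow_self _ h.nz)
  rw [natDegree_X, pow_one, pow_one, aeval_X, neg_one_mul] at h1
  exact h1

theorem IsKN.neK (h : IsKN N D s) : (N : K) ≠ 0 := by
  have h3 : (N : K) = algebraMap K' K N := by rw [map_natCast]
  rw [h3]
  exact (_root_.map_ne_zero _).2 h.ne

end kum

section up

variable {K' K L' L : Type} [Field K'] [Field K] [Field L'] [Field L] [Algebra K' K] [Algebra K' L']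
  [Algebra K L] [Algebra L' L] [Algebra K' L] [IsScalarTower K' K L] [IsScalarTower K' L' L]

/-- The Kummer extension generated by the same root. -/
theorem kn_up {N : ℕ} {D : K'} {s : K} (hq : IsKN N D s) {θ' : L'}
    (htop' : IntermediateField.adjoin K' {θ'} = ⊤)
    (htop : IntermediateField.adjoin K {algebraMap L' L θ'} = ⊤) {f : K'[X]} (hm : f.Monic)
    (hcop : N.Coprime f.natDegree) (hirr' : Irreducible f)
    (hθ' : aeval θ' f = 0) : IsKN N (algebraMap K' L' D) (algebraMap K L s) := by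
  haveI : FiniteDimensional K' L' := Pool.Agent.Q45.TW.fin_of hm hθ' htop'
  have key : ∀ S : Subfield L, (∀ x : L', algebraMap L' L x ∈ S) → algebraMap K L s ∈ S → S = ⊤ := by
    intro S h1 h3
    have h4 : ∀ x : K, algebraMap K L x ∈ S := by
      intro x
      obtain ⟨P, rfl⟩ := hq.rep x
      have e1 : algebraMap K L (aeval s P) = eval₂ (algebraMap K' L) (algebraMap K L s) P := by
        rw [aeval_def, hom_eval₂, ← IsScalarTower.algebraMap_eq K' K L]
      rw [e1, eval₂_eq_sum]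
      refine Subfield.sum_mem _ fun i _ => ?_
      have h6 : algebraMap K' L (P.coeff i) = algebraMap L' L (algebraMap K' L' (P.coeff i)) :=
        IsScalarTower.algebraMap_apply K' L' L _
      show algebraMap K' L (P.coeff i) * algebraMap K L s ^ i ∈ S
      rw [h6]
      exact mul_mem (h1 _) (pow_mem h3 i)
    let T : IntermediateField K L := S.toIntermediateField h4
    have h5 : (⊤ : IntermediateField K L) ≤ T := by
      rw [← htop, IntermediateField.adjoin_simple_le_iff]
      exact h1 θ'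
    rw [eq_top_iff]
    intro x _
    exact h5 (IntermediateField.mem_top (x := x))
  have hNL : (N : L') ≠ 0 := by
    have h3 : (N : L') = algebraMap K' L' N := by rw [map_natCast]
    rw [h3]
    exact (_root_.map_ne_zero _).2 hq.ne
  obtain ⟨ζ, hζ⟩ := hq.zeta
  refine ⟨hq.nz, hNL, ⟨_, hζ.map_of_injective (algebraMap K' L').injective⟩, ?_, ?_, ?_⟩
  · rw [← map_pow, hq.pw, ← IsScalarTower.algebraMap_apply K' K L,
      ← IsScalarTower.algebraMap_apply K' L' L]
  · have h1 := Pool.Agent.H89.KT.irr_cop (K := L') hq.mon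
      (by rw [natDegree_X_pow_sub_C]; exact Nat.pos_of_ne_zero hq.nz)
      (by rw [natDegree_X_pow_sub_C, Pool.Agent.Q45.TW.finrank_of hirr' hm hθ' htop']
          exact hcop.symm) hq.irr
    rwa [Polynomial.map_sub, Polynomial.map_pow, map_X, map_C] at h1
  · rw [eq_top_iff]
    intro x _
    have h1 := key (IntermediateField.adjoin L' {algebraMap K L s}).toSubfield
      (fun x => IntermediateField.algebraMap_mem _ x) (IntermediateField.mem_adjoin_simple_self L' _)
    have h3 : x ∈ (IntermediateField.adjoin L' {algebraMap K L s}).toSubfield := by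
      rw [h1]; trivial
    exact h3

end up

section comp

variable {K' K L' L : Type} [Field K'] [Field K] [Field L']
  [Field L]
  [Algebra K' K] [Algebra K' L'] [Algebra K L] [Algebra L' L] [Algebra K' L]
  [IsScalarTower K' K L] [IsScalarTower K' L' L]
  {N : ℕ} {D : K'} {s : K}

/-- Compatibility of the automorphisms. -/
theorem gal_comp (hq : IsKN N D s) {ζ : K'} {γ₀ : K ≃ₐ[K'] K}
    (hγ₀ : γ₀ s = algebraMap K' K ζ * s) {γ : L ≃ₐ[L'] L}
    (hγ : γ (algebraMap K L s) = algebraMap L' L (algebraMap K' L' ζ) * algebraMap K L s) (x : K) :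
    γ (algebraMap K L x) = algebraMap K L (γ₀ x) := by
  obtain ⟨P, rfl⟩ := hq.rep x
  have e1 : ∀ y : K, algebraMap K L (aeval y P) = eval₂ (algebraMap K' L) (algebraMap K L y) P := by
    intro y
    rw [aeval_def, hom_eval₂, ← IsScalarTower.algebraMap_eq K' K L]
  have e3 : γ₀ (aeval s P) = aeval (γ₀ s) P := (aeval_algHom_apply γ₀.toAlgHom s P).symm
  rw [e3, e1, e1]
  have h1 := hom_eval₂ P (algebraMap K' L) (γ : L →+* L) (algebraMap K L s)
  have h3 : (γ : L →+* L).comp (algebraMap K' L) = algebraMap K' L := by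
    refine RingHom.ext fun c => ?_
    show γ (algebraMap K' L c) = algebraMap K' L c
    rw [IsScalarTower.algebraMap_apply K' L' L, γ.commutes]
  rw [h3] at h1
  refine h1.trans ?_
  congr 1
  show γ (algebraMap K L s) = _
  rw [hγ, hγ₀, map_mul, ← IsScalarTower.algebraMap_apply K' L' L,
    ← IsScalarTower.algebraMap_apply K' K L]

end comp

end Pool.Agent.H89.GM
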