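import Pool.Agent.H89.GM.MGen
import Pool.Graph.R_pool_sql_team_seeded_3997aac3.Q45.TT.MCls

/-!
# The theorem with a marked prime
-/

set_option autoImplicit false
set_option linter.all false

open Polynomial IsDedekindDomain WithZero
open scoped Classical

namespace Pool.Agent.H89.GM

open Pool.Agent.H89.GB
open Pool.Agent.Y160.SE (IsPw)
open Pool.Agent.Q45.GP (Regular)
open Pool.Agent.Y160.SQ
open Pool.Agent.TH115.GD (Sep)
open Pool.Agent.Y160.RK (ptCl ptCl_spec spanD mem_spanD gen_iter rank_lin sum_pts)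
open Pool.Agent.Q45.TT (val_under ram_ne_zero exists_above sum_ef tf_of)

section tw

variable {ℓ : ℕ} {K : Type} [Field K] {f : K[X]} {ζ : K}

theorem tw_xp (h : ζ ^ ℓ = 1) (P : K[X]) : tw ℓ f ζ h (xp ℓ f P) = xp ℓ f P := by
  unfold tw
  rw [AdjoinRoot.lift_of]

theorem tw_yy (h : ζ ^ ℓ = 1) : tw ℓ f ζ h (yy ℓ f) = xp ℓ f (C ζ) * yy ℓ f := by
  unfold tw
  rw [AdjoinRoot.lift_root]

/-- The twist of the ideal of a point. -/
theorem prI_tw (h : ζ ^ ℓ = 1) {ζ' : K} (hζ' : ζ * ζ' = 1) (P c : K[X]) :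
    (prI ℓ f P c).map (tw ℓ f ζ h) = prI ℓ f P (C ζ' * c) := by
  have h1 : xp ℓ f (C ζ) * xp ℓ f (C ζ') = 1 := by
    rw [← map_mul, ← C_mul, hζ', C_1, map_one]
  have h3 : tw ℓ f ζ h (yy ℓ f - xp ℓ f c) =
      xp ℓ f (C ζ) * (yy ℓ f - xp ℓ f (C ζ' * c)) := by
    have h5 : xp ℓ f (C ζ' * c) = xp ℓ f (C ζ') * xp ℓ f c := map_mul _ _ _
    rw [map_sub, tw_yy, tw_xp, h5]
    linear_combination (xp ℓ f c) * h1
  unfold prI
  rw [Ideal.map_span, Set.image_pair, tw_xp, h3]
  apply le_antisymm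
  · rw [Ideal.span_le]
    rintro z (rfl | rfl)
    · exact Ideal.subset_span (Or.inl rfl)
    · exact Ideal.mul_mem_left _ _ (Ideal.subset_span (Or.inr rfl))
  · rw [Ideal.span_le]
    rintro z (rfl | rfl)
    · exact Ideal.subset_span (Or.inl rfl)
    · have h4 : yy ℓ f - xp ℓ f (C ζ' * c) =
          xp ℓ f (C ζ') * (xp ℓ f (C ζ) * (yy ℓ f - xp ℓ f (C ζ' * c))) := by
        rw [← mul_assoc, mul_comm (xp ℓ f (C ζ')), h1, one_mul]
      have h5 : xp ℓ f (C ζ') * (xp ℓ f (C ζ) * (yy ℓ f - xp ℓ f (C ζ' * c))) ∈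
          Ideal.span {xp ℓ f P, xp ℓ f (C ζ) * (yy ℓ f - xp ℓ f (C ζ' * c))} :=
        Ideal.mul_mem_left _ _ (Ideal.subset_span (Or.inr rfl))
      rw [← h4] at h5
      exact h5

/-- The classes of the twists of a point. -/
theorem cl_pow (H : Hyps) (hg : Good ℓ ζ f) {ζ' : K} (hζ' : ζ * ζ' = 1) {P : K[X] × K[X]}
    (hP : Irreducible P.1) (j : ℕ) :
    IsCl K (prI ℓ (f.map (algebraMap K K)) P.1 (C (ζ' ^ j) * P.2)) (((sg hg K) ^ j) (ptCl ℓ f P)) := by
  induction j with
  | zero =>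
    rw [pow_zero, pow_zero, C_1, one_mul]
    exact ptCl_spec H hg hP
  | succ j ih =>
    have h1 := cl_sg H hg ih
    rw [prI_tw _ (ζ' := ζ') (by rw [Algebra.algebraMap_self]; exact hζ'), ← mul_assoc, ← C_mul,
      ← pow_succ'] at h1
    have h3 : ((sg hg K) ^ (j + 1)) (ptCl ℓ f P) = sg hg K (((sg hg K) ^ j) (ptCl ℓ f P)) := by
      rw [pow_succ']
      rfl
    rw [h3]
    exact h1

end tw

section fin

variable {O : Type} [CommRing O] [IsDedekindDomain O] {f : O[X]} {p m l : ℕ} {τ : O} {r : ℕ}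
  {Q : Fin (r + 1) → O[X]}

/-- The conditions on the divisors. -/
theorem mpts_ok {K : Type} [Field K] [Algebra O K] {N : ℕ} (hN : 1 < N) {s : K}
    (hs : s ^ N = algebraMap O K τ) (hs0 : s ≠ 0) (hmon : ∀ i, (Q i).Monic)
    (hprod : ∏ i, Q i = f - C τ) (hirr : ∀ i, Irreducible ((Q i).map (algebraMap O K))) :
    ∀ P ∈ MPts Q s, Irreducible P.1 ∧ P.1.Monic ∧ ¬ P.1 ∣ fK f K ∧ P.1 ∣ fK f K - P.2 ^ N := by
  rintro _ ⟨i, rfl⟩
  have h1 : fK f K - C s ^ N = (f - C τ).map (algebraMap O K) := by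
    rw [← C_pow, hs, fK, Polynomial.map_sub, map_C]
  have hd : (Q i).map (algebraMap O K) ∣ fK f K - C s ^ N := by
    rw [h1]
    refine Polynomial.map_dvd _ ?_
    rw [← hprod]
    exact Finset.dvd_prod_of_mem _ (Finset.mem_univ i)
  refine ⟨hirr i, (hmon i).map _, fun h => ?_, hd⟩
  have h3 : (Q i).map (algebraMap O K) ∣ C (s ^ N) := by
    have h4 := dvd_sub h hd
    rw [sub_sub_cancel, ← C_pow] at h4
    exact h4
  have h5 := isUnit_of_dvd_unit h3 (isUnit_C.2 (IsUnit.mk0 _ (pow_ne_zero N hs0)))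
  exact (hirr i).not_isUnit h5

/-- **The Tate-Shafarevich group and the Mordell-Weil group with a marked prime.** -/
theorem sha_mark (H : Base p O) (hf : Pol p f) [IsDedekindDomain (AdjoinRoot f)]
    (hrel : RelTriv p f) {K' K : Type} [Field K'] [Field K] [Algebra O K'] [Algebra O K]
    [Algebra K' K] [IsScalarTower O K' K] {s : K} (hm0 : m ≠ 0) (hml : m ≤ l)
    (hs : s ^ p ^ l = algebraMap O K τ) (htop : IntermediateField.adjoin K' {s} = ⊤) {ζ : K'}
    (hζ : IsPrimitiveRoot ζ (p ^ l)) {m' : ℕ} {s' : ℕ → K'} (htw : IsTower p O K' m' s')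
    {A' : Type} [CommRing A'] [IsDedekindDomain A'] [Algebra O A'] [Algebra A' K']
    [IsFractionRing A' K'] [IsScalarTower O A' K'] [IsIntegralClosure A' O K']
    (hram : Ram f A') (hM : Marked f τ Q A') (hnd : p ^ l = 2 ∨ Nondeg p τ Q A')
    {A : Type} [CommRing A] [IsDedekindDomain A] [Algebra A K] [IsFractionRing A K]
    [Algebra O A] [IsScalarTower O A K] [IsIntegralClosure A O K] :
    Pool.Agent.Y160.SH.ShaTriv p (p ^ m) A (fK f K) ∧
      ∃ D : Fin r × Fin (p ^ m - 1) → Jac (p ^ m) (fK f K) K,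
        Pool.Agent.Y160.SL.IsBasisAt (M := Jac (p ^ m) (fK f K) K) p D ∧
        ∀ i, IsCl K (prI (p ^ m) ((fK f K).map (algebraMap K K))
          ((Q i.1.succ).map (algebraMap O K)) (C ((algebraMap K' K ζ ^ (i.2 : ℕ) * s) ^ p ^ (l - m)))) (D i) := by
  have hp := H.prime
  have hl0 : l ≠ 0 := by omega
  have hN : 1 < p ^ l := Nat.one_lt_pow hl0 hp.one_lt
  have hNm : 1 < p ^ m := Nat.one_lt_pow hm0 hp.one_lt
  have hlm : p ^ l = p ^ (l - m) * p ^ m := by
    rw [← pow_add]
    congr 1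
    omega
  have hNu : IsUnit ((p ^ l : ℕ) : O) := by
    rw [Nat.cast_pow]
    exact H.unit.pow l
  have hfs' : FS O K' := htw.fs H
  have hirr' : Irreducible (fK f K') := IsTower.irr H hf htw
  have hs' : s ^ p ^ l = algebraMap K' K (algebraMap O K' τ) := by
    rw [hs, IsScalarTower.algebraMap_apply O K' K]
  have hq : IsKN (p ^ l) (algebraMap O K' τ) s := by
    refine ⟨by omega, ?_, ⟨ζ, hζ⟩, hs', ?_, htop⟩
    · have h3 := hNu.map (algebraMap O K')
      rw [map_natCast] at h3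
      exact h3.ne_zero
    · rw [IsScalarTower.algebraMap_apply O A' K']
      exact irr_eis hM.prime hN
  have htw1 := tower_add hl0 hs' htop htw
  have hfs : FS O K := htw1.fs H
  have hirr : Irreducible (fK f K) := IsTower.irr H hf htw1
  have hsep : (fK f K).Separable := IsTower.sep H hf htw1
  have hramK : RamK f K' := RamK.of hfs' hram
  have htriv : Triv p f K' := IsTower.triv H hf (fun K _ _ hK => Triv.base H.prime hf hrel hK) htw
    hramK
  haveI : Module.Finite O A := hfs.finite A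
  haveI : Module.IsTorsionFree O A := by
    rw [Module.isTorsionFree_iff_algebraMap_injective]
    exact hfs.injB A
  haveI : Algebra.IsIntegral O A := Algebra.IsIntegral.of_finite O A
  have hreg : Regular K (fK f A) := regular_of' H hf.monic (fun v => htw1.pow H A v)
    (fun P v hPv => sep_mark (A' := A') (A := A) hN hNu hq hfs' hram hM.prime hM.sep P v hPv)
  have hirrQ : ∀ i, Irreducible ((Q i).map (algebraMap O K)) := fun i =>
    irr_mark (A' := A') hN hq hfs' hM.prime (hM.monic i) (hM.irr i)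
  have hs0 : s ≠ 0 := hq.s_ne hN
  set t : K := s ^ p ^ (l - m) with ht
  have ht0 : t ≠ 0 := pow_ne_zero _ hs0
  have htm : t ^ p ^ m = algebraMap O K τ := by
    rw [ht, ← pow_mul, ← hlm, hs]
  have hP := mpts_ok (f := f) (Q := Q) hNm htm ht0 hM.monic hM.prod hirrQ
  set ω : K := (algebraMap K' K ζ ^ p ^ (l - m))⁻¹ with hω
  have hζK : IsPrimitiveRoot (algebraMap K' K ζ ^ p ^ (l - m)) (p ^ m) :=
    (hζ.map_of_injective (algebraMap K' K).injective).pow (pow_pos hp.pos _) hlm
  have hωp : IsPrimitiveRoot ω (p ^ m) := hζK.inv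
  have hωζ : ω * algebraMap K' K ζ ^ p ^ (l - m) = 1 := inv_mul_cancel₀ (hζK.ne_zero (by omega))
  obtain ⟨hgd, h1, hgen⟩ := sha_of H hf hfs hirr hsep hm0 hωp (A := A) hreg (MPts Q t) hP
    (fun L _ _ _ _ θ hθ htop R _ _ _ _ _ _ _ z hz hev hno =>
      mark_pts H hf hm0 hml hq hfs' hirr' hirr htriv hM hnd htm hθ htop (R := R) hz hev hno)
  refine ⟨h1, fun i => ((sg hgd K) ^ (i.2 : ℕ)) (ptCl (p ^ m) (fK f K)
    ((Q i.1.succ).map (algebraMap O K), C t)), ?_, fun i => ?_⟩
  · -- the basis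
    obtain ⟨L, R, i1, i2, i3, i4, i5, i6, i7, i8, θ, i9, i10, i11, i12, hint, hcomp, hθ, htopL,
      hfsL⟩ := exists_field hf hirr hsep hfs A
    set D : Fin r → Jac (p ^ m) (fK f K) K :=
      fun i => ptCl (p ^ m) (fK f K) ((Q i.succ).map (algebraMap O K), C t) with hD
    refine ⟨?_, fun n x => ?_⟩
    · -- independence
      obtain ⟨i⟩ := Pool.Agent.Q45.GP.exists_emb hgd hθ htopL
      letI : Algebra L (Sep K) := i.toRingHom.toAlgebra
      haveI : IsScalarTower K L (Sep K) := IsScalarTower.of_algebraMap_eq fun x => (i.commutes x).symm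
      haveI : Algebra.IsSeparable K (Sep K) := IsSepClosure.separable
      haveI : IsSepClosed (Sep K) := IsSepClosure.sep_closed K
      haveI : IsGalois K (Sep K) := inferInstance
      have haR : Rt (fK f K) (algebraMap L (Sep K) θ) := by
        have h1 : aeval (algebraMap L (Sep K) θ) (fK f K) = 0 := by
          rw [aeval_algebraMap_apply, hθ, map_zero]
        exact h1
      obtain ⟨-, -, hind⟩ := mark_main H hf hm0 hml hq hfs' hirr' hirr htriv hM hnd hθ htopL (R := R)
      exact rank_lin (p := p) (s := m - 1) (N := L) (Ω := Sep K) hyps hgd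
        Pool.Agent.Y160.FT.inj_all Pool.Agent.Y627.FT.stLin hp
        (by rw [Nat.sub_add_cancel (Nat.pos_of_ne_zero hm0)]) hirr haR rfl
        (fun j => ((Q j.succ).map (algebraMap O K), C t)) (fun j => hP _ ⟨j.succ, rfl⟩) (by
          intro e w hw0 hw j
          rw [fK_natDegree hf] at hw
          simp only [aeval_map_algebraMap] at hw
          exact hind e w hw0 hw j)
    · -- generation
      refine gen_iter (m := m) hyps hgd hp rfl D (fun x => ?_) n x
      obtain ⟨T, v, hT, hx⟩ := hgen x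
      refine ⟨v, ?_⟩
      rw [hx, add_sub_cancel_right]
      refine AddSubgroup.multiset_sum_mem _ _ fun z hz => ?_
      obtain ⟨P, hPT, rfl⟩ := Multiset.mem_map.1 hz
      obtain ⟨i, rfl⟩ := hT P hPT
      refine Fin.cases ?_ (fun i => mem_spanD hgd D i) i
      -- the relation
      have h3 := sum_pts hyps hgd (fun j : Fin (r + 1) => (Q j).map (algebraMap O K)) (C t)
        (fun j => ⟨hirrQ j, (hM.monic j).map _⟩)
        (fun a b hab => by
          by_contra hne
          have h4 := hM.cop hne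
          have h5 : Q a = Q b := Polynomial.map_injective _ hfs.inj hab
          rw [h5] at h4
          exact (hM.irr b).not_isUnit (isCoprime_self.1 h4))
        (by
          rw [← C_pow, htm, ← Polynomial.map_prod, hM.prod, fK, Polynomial.map_sub, map_C])
        (by
          rw [← C_pow, htm]
          intro h4
          have h5 : (fK f K).natDegree = 0 := by
            rw [sub_eq_zero.1 h4, natDegree_C]
          exact (fK_pos hf K).ne' h5)
      rw [Fin.sum_univ_succ] at h3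
      rw [eq_neg_of_add_eq_zero_left h3]
      exact AddSubgroup.neg_mem _ (AddSubgroup.sum_mem _ fun i _ => mem_spanD hgd D i)
  · have h3 := cl_pow hyps hgd hωζ (P := ((Q i.1.succ).map (algebraMap O K), (C t : K[X])))
      (hirrQ _) (i.2 : ℕ)
    simp only [← C_mul] at h3
    have h4 : (algebraMap K' K ζ ^ (i.2 : ℕ) * s) ^ p ^ (l - m) =
        (algebraMap K' K ζ ^ p ^ (l - m)) ^ (i.2 : ℕ) * t := by
      rw [ht, mul_pow, ← pow_mul, ← pow_mul, mul_comm (i.2 : ℕ)]
    rw [h4]
    exact h3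

end fin

end Pool.Agent.H89.GM
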