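import Pool.Agent.H89.GM.MIrr

/-!
# Dévissage to the exponent `p ^ m`
-/

set_option autoImplicit false
set_option linter.all false

open Polynomial IsDedekindDomain WithZero
open scoped Classical

namespace Pool.Agent.H89.GM

open Pool.Agent.H89.GB
open Pool.Agent.H89.KT (root_of norm_gal norm_pw pw_hom pw_root)
open Pool.Agent.Y160.SE (IsPw)
open Pool.Agent.Q45.GP (Regular)
open Pool.Agent.Y160.SQ
open Pool.Agent.Q45.TT (val_under ram_ne_zero exists_above sum_ef tf_of)

/-- A sign whose power is a `p`-th power. -/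
theorem sign_pw {F : Type} [Field F] {p n : ℕ} (hp : p.Prime) (hn : p.Coprime n) {σ : F}
    (hσ : σ = 1 ∨ σ = -1) {c : F} (h : σ ^ n = c ^ p) : ∃ ε : F, ε ≠ 0 ∧ σ = ε ^ p := by
  rcases hσ with rfl | rfl
  · exact ⟨1, one_ne_zero, (one_pow p).symm⟩
  · rcases hp.eq_two_or_odd' with h2 | h2
    · subst h2
      have h1 : Odd n := (Nat.coprime_two_left).1 hn
      rw [h1.neg_one_pow] at h
      refine ⟨c, ?_, h⟩
      rintro rfl
      rw [zero_pow two_ne_zero] at h
      exact (neg_ne_zero.2 one_ne_zero) h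
    · exact ⟨-1, neg_ne_zero.2 one_ne_zero, h2.neg_one_pow.symm⟩

section dev

variable {K L R : Type} [Field K] [Field L] [Algebra K L] [FiniteDimensional K L] [CommRing R]
  [IsDedekindDomain R] [Algebra R L] [IsFractionRing R L]

/-- **Dévissage.** -/
theorem gen_pow {p m r : ℕ} (hp : p.Prime) (g : Fin (r + 1) → L) (hg0 : ∀ i, g i ≠ 0)
    (t : Fin (r + 1) → K) (ht0 : ∀ i, t i ≠ 0)
    (hgn : ∀ i, Algebra.norm K (g i) = t i ^ p ^ m)
    (hgv : ∀ (i : Fin (r + 1)) (w : HeightOneSpectrum R), IsPw (p ^ m) (w.valuation L (g i)))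
    {ζ : K} (hζ : IsPrimitiveRoot ζ (p ^ m))
    (hgen : ∀ z : L, z ≠ 0 → (∀ w : HeightOneSpectrum R, IsPw p (w.valuation L z)) →
      (∃ u : K, Algebra.norm K z = u ^ p) →
      ∃ (e : Fin (r + 1) → ℕ) (y : L), y ≠ 0 ∧ z = (∏ i, g i ^ e i) * y ^ p) :
    ∀ j ≤ m, ∀ z : L, z ≠ 0 → (∀ w : HeightOneSpectrum R, IsPw (p ^ j) (w.valuation L z)) →
      (∃ u : K, Algebra.norm K z = u ^ p ^ j) →
      ∃ (e : Fin (r + 1) → ℕ) (y : L), y ≠ 0 ∧ z = (∏ i, g i ^ e i) * y ^ p ^ j := by
  intro j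
  induction j with
  | zero =>
    intro _ z hz _ _
    refine ⟨fun _ => 0, z, hz, ?_⟩
    simp
  | succ j ih =>
    intro hj z hz hev hu
    obtain ⟨u, hu⟩ := hu
    obtain ⟨k, hk⟩ : ∃ k, m = j + k + 1 := ⟨m - (j + 1), by omega⟩
    have hpp : p ^ (j + 1) = p ^ j * p := pow_succ p j
    obtain ⟨e, w, hw0, hzw⟩ := hgen z hz (fun v => by
      obtain ⟨δ, hδ⟩ := hev v
      exact ⟨δ ^ p ^ j, by rw [hδ, ← pow_mul, ← hpp]⟩) ⟨u ^ p ^ j, by
        rw [hu, ← pow_mul, ← hpp]⟩
    have hG0 : (∏ i, g i ^ e i) ≠ 0 := by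
      rw [Finset.prod_ne_zero_iff]
      exact fun i _ => pow_ne_zero _ (hg0 i)
    have hu0 : u ≠ 0 := by
      rintro rfl
      rw [zero_pow (pow_ne_zero _ hp.ne_zero)] at hu
      exact (Algebra.norm_ne_zero_iff).2 hz hu
    -- the valuations of `w`
    have hevw : ∀ v : HeightOneSpectrum R, IsPw (p ^ j) (v.valuation L w) := by
      intro v
      refine pw_root hp.ne_zero ?_
      choose δ hδ using fun i => hgv i v
      have hδ0 : ∀ i, δ i ≠ 0 := by
        intro i h0
        have h1 := hδ i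
        rw [h0, zero_pow (pow_ne_zero _ hp.ne_zero)] at h1
        exact (Valuation.ne_zero_iff _).2 (hg0 i) h1
      have h1 : v.valuation L (∏ i, g i ^ e i) = ((∏ i, δ i ^ e i) ^ p ^ k) ^ p ^ (j + 1) := by
        rw [← pow_mul, ← pow_add, show k + (j + 1) = m by omega, map_prod, ← Finset.prod_pow]
        refine Finset.prod_congr rfl fun i _ => ?_
        rw [map_pow, hδ i, ← pow_mul, ← pow_mul, mul_comm]
      have h3 := hev v
      rw [hzw, map_mul, map_pow, h1, mul_comm] at h3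
      refine IsPw.of_mul ?_ h3
      refine pow_ne_zero _ ?_
      rw [Finset.prod_ne_zero_iff]
      exact fun i _ => pow_ne_zero _ (hδ0 i)
    -- the norm of `w`
    set T : K := (∏ i, t i ^ e i) ^ p ^ k with hT
    have hT0 : T ≠ 0 := by
      refine pow_ne_zero _ ?_
      rw [Finset.prod_ne_zero_iff]
      exact fun i _ => pow_ne_zero _ (ht0 i)
    have hnG : Algebra.norm K (∏ i, g i ^ e i) = T ^ p ^ (j + 1) := by
      rw [hT, ← pow_mul, ← pow_add, show k + (j + 1) = m by omega, map_prod, ← Finset.prod_pow]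
      refine Finset.prod_congr rfl fun i _ => ?_
      rw [map_pow, hgn i, ← pow_mul, ← pow_mul, mul_comm]
    have h1 : (Algebra.norm K w) ^ p = ((u / T) ^ p ^ j) ^ p := by
      rw [hzw, map_mul, map_pow, hnG] at hu
      rw [← pow_mul, ← hpp, div_pow, eq_div_iff (pow_ne_zero _ hT0), mul_comm]
      exact hu
    have hζp : IsPrimitiveRoot (ζ ^ p ^ (j + k)) p :=
      hζ.pow (pow_pos hp.pos _) (by rw [hk, pow_succ])
    obtain ⟨i, hi⟩ := root_of hp hζp (pow_ne_zero _ (div_ne_zero hu0 hT0)) h1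
    obtain ⟨e', y, hy0, hwy⟩ := ih (by omega) w hw0 hevw ⟨ζ ^ (p ^ k * i) * (u / T), by
      rw [hi, mul_pow, ← pow_mul, ← pow_mul]
      congr 2
      rw [pow_add]
      ring⟩
    refine ⟨fun i => e i + p * e' i, y, hy0, ?_⟩
    rw [hzw, hwy, mul_pow, ← pow_mul, ← hpp, ← mul_assoc, ← Finset.prod_pow,
      ← Finset.prod_mul_distrib]
    congr 1
    refine Finset.prod_congr rfl fun i _ => ?_
    rw [pow_add, ← pow_mul, mul_comm p]

end dev

section pts

variable {O : Type} [CommRing O] [IsDedekindDomain O] {f : O[X]} {p m l : ℕ} {τ : O} {r : ℕ}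
  {Q : Fin (r + 1) → O[X]}

/-- The divisors `Q i (x) = 0`, `w = s`. -/
def MPts {O : Type} [CommRing O] {r : ℕ} (Q : Fin (r + 1) → O[X]) {K : Type} [Field K] [Algebra O K]
    (s : K) : Set (K[X] × K[X]) :=
  {P | ∃ i, P = ((Q i).map (algebraMap O K), C s)}

/-- The classes of exponent `p ^ m`. -/
theorem mark_pts (H : Base p O) (hf : Pol p f) {K' K : Type} [Field K'] [Field K] [Algebra O K']
    [Algebra O K] [Algebra K' K] [IsScalarTower O K' K] {s : K} (hm0 : m ≠ 0) (hml : m ≤ l)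
    (hq : IsKN (p ^ l) (algebraMap O K' τ) s) (hfs' : FS O K') (hirr' : Irreducible (fK f K'))
    (hirr : Irreducible (fK f K)) (htriv : Triv p f K')
    {A' : Type} [CommRing A'] [IsDedekindDomain A'] [Algebra O A'] [Algebra A' K']
    [IsFractionRing A' K'] [IsScalarTower O A' K'] [IsIntegralClosure A' O K']
    (hM : Marked f τ Q A') (hnd : p ^ l = 2 ∨ Nondeg p τ Q A')
    {t : K} (ht : t ^ p ^ m = algebraMap O K τ)
    {L : Type} [Field L] [Algebra O L] [Algebra K L] [IsScalarTower O K L] {θ : L}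
    (hθ : aeval θ (fK f K) = 0) (htop : IntermediateField.adjoin K {θ} = ⊤)
    {R : Type} [CommRing R] [IsDedekindDomain R] [Algebra O R] [Algebra R L]
    [IsScalarTower O R L] [IsFractionRing R L] [IsIntegralClosure R O L]
    {z : L} (hz : z ≠ 0) (hev : ∀ w : HeightOneSpectrum R, IsPw (p ^ m) (w.valuation L z))
    (hu : ∃ u : K, Algebra.norm K z = u ^ p ^ m) :
    ∃ (u : K) (w : L) (S : Multiset (K[X] × K[X])), u ≠ 0 ∧ w ≠ 0 ∧ (∀ P ∈ S, P ∈ MPts Q t) ∧
      z = algebraMap K L u * w ^ (p ^ m) * aeval θ (dvP S) := by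
  have hp := H.prime
  have hl0 : l ≠ 0 := by omega
  have hN : 1 < p ^ l := Nat.one_lt_pow hl0 hp.one_lt
  haveI := hq.fin
  haveI := hq.separable hN
  have hsep' : (fK f K').Separable := hf.sep_of hfs'.inj hirr'
  have hsep : (fK f K).Separable := by
    rw [← fK_alg (K' := K') (K := K)]
    exact hsep'.map
  have hm : (fK f K).Monic := fK_monic hf _
  haveI : FiniteDimensional K L := Pool.Agent.Q45.TW.fin_of hm hθ htop
  obtain ⟨h1, h3, -⟩ := mark_main H hf hm0 hml hq hfs' hirr' hirr htriv hM hnd hθ htop (R := R)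
  have hlm : p ^ l = p ^ (l - m) * p ^ m := by
    rw [← pow_add]
    congr 1
    omega
  have hs0 : t ≠ 0 := by
    rintro rfl
    rw [zero_pow (pow_ne_zero _ hp.ne_zero), IsScalarTower.algebraMap_apply O K' K] at ht
    exact hq.D_ne hN ((_root_.map_eq_zero _).1 ht.symm)
  obtain ⟨ζ', hζ'⟩ := hq.zeta
  have hζ := (hζ'.map_of_injective (algebraMap K' K).injective).pow
    (a := p ^ (l - m)) (b := p ^ m) (pow_pos hp.pos _) hlm
  have hsN : t ^ p ^ m = algebraMap O K τ := ht
  set g : Fin (r + 1) → L := fun i => (-1) ^ (Q i).natDegree * aeval θ (Q i) with hg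
  have hno : ∀ i, Algebra.norm K (g i) = (t ^ (Q i).natDegree) ^ p ^ m := by
    intro i
    have h4 := norm_dvd (algebraMap O K τ) hm hirr hsep hθ htop
      (b := (Q i).map (algebraMap O K)) ((hM.monic i).map _) (by
        have h1 : Q i ∣ f - C τ := by
          rw [← hM.prod]
          exact Finset.dvd_prod_of_mem _ (Finset.mem_univ i)
        have h3 := Polynomial.map_dvd (algebraMap O K) h1
        rwa [Polynomial.map_sub, map_C] at h3)
    rw [(hM.monic i).natDegree_map, aeval_map_algebraMap, ← hsN, ← pow_mul, mul_comm (p ^ m),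
      pow_mul] at h4
    exact h4
  have hg0 : ∀ i, g i ≠ 0 := by
    intro i h0
    have h4 := hno i
    rw [h0, Algebra.norm_zero] at h4
    exact pow_ne_zero _ (pow_ne_zero _ hs0) h4.symm
  have hgv : ∀ (i : Fin (r + 1)) (w : HeightOneSpectrum R), IsPw (p ^ m) (w.valuation L (g i)) := by
    intro i w
    rw [hg]
    simp only
    rw [map_mul, map_pow, Valuation.map_neg, map_one, one_pow, one_mul]
    obtain ⟨δ, hδ⟩ := h1 i w
    exact ⟨δ ^ p ^ (l - m), by rw [hδ, hlm, pow_mul]⟩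
  have hgen : ∀ z : L, z ≠ 0 → (∀ w : HeightOneSpectrum R, IsPw p (w.valuation L z)) →
      (∃ u : K, Algebra.norm K z = u ^ p) →
      ∃ (e : Fin (r + 1) → ℕ) (y : L), y ≠ 0 ∧ z = (∏ i, g i ^ e i) * y ^ p := by
    intro z hz hev hu
    obtain ⟨e, y, hy0, hzy⟩ := h3 z hz hev hu
    obtain ⟨u, hu⟩ := hu
    set σ : K := (-1) ^ (∑ i, (Q i).natDegree * e i) with hσ
    have hσ1 : σ = 1 ∨ σ = -1 := neg_one_pow_eq_or K _
    have hσσ : σ * σ = 1 := by
      rw [hσ, ← mul_pow, neg_one_mul, neg_neg, one_pow]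
    have hzσ : z = algebraMap K L σ * (∏ i, g i ^ e i) * y ^ p := by
      rw [hzy]
      congr 1
      have h5 : ∏ i, g i ^ e i = algebraMap K L σ * ∏ i, aeval θ (Q i) ^ e i := by
        rw [hσ, map_pow, map_neg, map_one, ← Finset.prod_pow_eq_pow_sum, ← Finset.prod_mul_distrib]
        refine Finset.prod_congr rfl fun i _ => ?_
        rw [hg]
        simp only
        rw [mul_pow, ← pow_mul]
      rw [h5, ← mul_assoc, ← map_mul, hσσ, map_one, one_mul]
    obtain ⟨M, hNM⟩ : ∃ M, p ^ m = M * p := ⟨p ^ (m - 1), by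
      rw [← pow_succ]
      congr 1
      omega⟩
    set T : K := (∏ i, (t ^ (Q i).natDegree) ^ e i) ^ M with hT
    have hnG : Algebra.norm K (∏ i, g i ^ e i) = T ^ p := by
      rw [hT, ← pow_mul, ← hNM, map_prod, ← Finset.prod_pow]
      refine Finset.prod_congr rfl fun i _ => ?_
      rw [map_pow, hno i]
      ring
    have hTy : (T * Algebra.norm K y) ^ p ≠ 0 := by
      rw [mul_pow, ← hnG]
      refine mul_ne_zero ((Algebra.norm_ne_zero_iff).2 ?_)
        (pow_ne_zero _ ((Algebra.norm_ne_zero_iff).2 hy0))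
      rw [Finset.prod_ne_zero_iff]
      exact fun i _ => pow_ne_zero _ (hg0 i)
    have hn : Module.finrank K L = f.natDegree := by
      rw [Pool.Agent.Q45.TW.finrank_of hirr hm hθ htop, fK_natDegree hf]
    have h6 : σ ^ f.natDegree = (u / (T * Algebra.norm K y)) ^ p := by
      rw [div_pow, eq_div_iff hTy, ← hu, hzσ, map_mul, map_mul, hnG, Algebra.norm_algebraMap, hn,
        map_pow, mul_pow, mul_assoc]
    obtain ⟨ε, hε0, hε⟩ := sign_pw hp hf.cop hσ1 h6
    refine ⟨e, algebraMap K L ε * y, mul_ne_zero ((_root_.map_ne_zero _).2 hε0) hy0, ?_⟩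
    rw [hzσ, hε, mul_pow, map_pow]
    ring
  obtain ⟨e, y, hy0, hzy⟩ := gen_pow (R := R) hp g hg0 (fun i => t ^ (Q i).natDegree)
    (fun i => pow_ne_zero _ hs0) hno hgv hζ hgen m le_rfl z hz hev hu
  refine ⟨∏ i, ((-1) ^ (Q i).natDegree) ^ e i, y,
    ∑ i, e i • ({((Q i).map (algebraMap O K), C t)} : Multiset (K[X] × K[X])), ?_, hy0, ?_, ?_⟩
  · rw [Finset.prod_ne_zero_iff]
    exact fun i _ => pow_ne_zero _ (pow_ne_zero _ (neg_ne_zero.2 one_ne_zero))
  · intro P hP
    rw [Multiset.mem_sum] at hP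
    obtain ⟨i, -, hi⟩ := hP
    exact ⟨i, Multiset.mem_singleton.1 (Multiset.mem_of_mem_nsmul hi)⟩
  · have h5 : aeval θ (dvP (∑ i, e i • ({((Q i).map (algebraMap O K), C t)} :
        Multiset (K[X] × K[X])))) = ∏ i, aeval θ (Q i) ^ e i := by
      unfold dvP
      have h6 : ∀ S : Multiset (K[X] × K[X]), (S.map fun P => P.1).prod =
          (S.map (fun P : K[X] × K[X] => P.1)).prod := fun S => rfl
      have h7 : (∑ i, e i • ({((Q i).map (algebraMap O K), C t)} :
          Multiset (K[X] × K[X]))).map (fun P => P.1) =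
          ∑ i, e i • ({(Q i).map (algebraMap O K)} : Multiset K[X]) := by
        rw [← Multiset.coe_mapAddMonoidHom, map_sum]
        refine Finset.sum_congr rfl fun i _ => ?_
        rw [map_nsmul, Multiset.coe_mapAddMonoidHom, Multiset.map_singleton]
      rw [h7, Multiset.prod_sum, map_prod]
      refine Finset.prod_congr rfl fun i _ => ?_
      rw [Multiset.prod_nsmul, Multiset.prod_singleton, map_pow, aeval_map_algebraMap]
    rw [h5, hzy, map_prod]
    have h6 : ∏ i, g i ^ e i = (∏ i, algebraMap K L (((-1) ^ (Q i).natDegree) ^ e i)) *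
        ∏ i, aeval θ (Q i) ^ e i := by
      rw [← Finset.prod_mul_distrib]
      refine Finset.prod_congr rfl fun i _ => ?_
      rw [hg]
      simp only
      rw [mul_pow, map_pow, map_pow, map_neg, map_one]
    rw [h6]
    ring

end pts

end Pool.Agent.H89.GM
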