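import Pool.Agent.H89.GM.TowN

/-!
# Irreducibility and ramification over the extension by the root of the marked element
-/

set_option autoImplicit false
set_option linter.all false

open Polynomial IsDedekindDomain WithZero
open scoped Classical

namespace Pool.Agent.H89.GM

open Pool.Agent.H89.GB
open Pool.Agent.H89.KT (root_of norm_gal norm_pw pw_hom)
open Pool.Agent.Y160.SE (IsPw)
open Pool.Agent.Q45.GP (Regular)
open Pool.Agent.Q45.TT (val_under ram_ne_zero exists_above sum_ef tf_of)

section irr

variable {O : Type} [CommRing O] [IsDedekindDomain O] {f : O[X]} {τ : O}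

/-- The factors stay irreducible. -/
theorem irr_mark {K' K : Type} [Field K'] [Field K] [Algebra O K'] [Algebra O K]
    [Algebra K' K] [IsScalarTower O K' K] {s : K} {N : ℕ} (hN : 1 < N)
    (hq : IsKN N (algebraMap O K' τ) s) (hfs' : FS O K')
    {A' : Type} [CommRing A'] [IsDedekindDomain A'] [Algebra O A'] [Algebra A' K']
    [IsFractionRing A' K'] [IsScalarTower O A' K'] [IsIntegralClosure A' O K']
    (hc : Prime (algebraMap O A' τ)) {G : O[X]}
    (hGm : G.Monic) (hG : Irreducible (G.map (red τ A'))) :
    Irreducible (G.map (algebraMap O K)) := by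
  haveI := hq.fin
  haveI := hq.separable hN
  have hfs : FS O K := hfs'.trans hq.fin (hq.separable hN)
  obtain ⟨A, b1, b2, b3, b4, b5⟩ := exists_ic (O := O) K
  obtain ⟨φ, hφ1, hφ2⟩ := exists_alg (O := O) (K' := K') (K := K) A' A
  letI : Algebra A' A := φ.toAlgebra
  haveI : IsScalarTower O A' A := IsScalarTower.of_algebraMap_eq fun p => (hφ2 p).symm
  haveI := hfs.ded A
  haveI := hfs.frac A
  haveI := hfs.finite A
  haveI : Module.Finite A' A := Module.Finite.of_restrictScalars_finite O A' A
  haveI : Algebra.IsIntegral A' A := Algebra.IsIntegral.of_finite A' A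
  haveI : Module.IsTorsionFree A' A := by
    rw [Module.isTorsionFree_iff_algebraMap_injective]
    exact tf_of (K' := K') (K := K) (IsFractionRing.injective A' K') hφ1
  letI : Algebra A' K := ((algebraMap K' K).comp (algebraMap A' K')).toAlgebra
  haveI : IsScalarTower A' K' K := IsScalarTower.of_algebraMap_eq fun _ => rfl
  haveI : IsScalarTower A' A K := IsScalarTower.of_algebraMap_eq fun a => (hφ1 a).symm
  have hI0 : Ideal.span {algebraMap O A' τ} ≠ ⊥ :=
    fun h => hc.ne_zero (Ideal.span_singleton_eq_bot.1 h)
  have hIp : (Ideal.span {algebraMap O A' τ}).IsPrime := (Ideal.span_singleton_prime hc.ne_zero).2 hc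
  let v : HeightOneSpectrum A' := ⟨Ideal.span {algebraMap O A' τ}, hIp, hI0⟩
  obtain ⟨w, hw⟩ := exists_above (B := A) v
  have hd : (w.under A').valuation K' (algebraMap O K' τ) = exp (-1 : ℤ) := by
    rw [hw, IsScalarTower.algebraMap_apply O A' K', v.valuation_of_algebraMap]
    exact v.intValuation_singleton hc.ne_zero rfl
  obtain ⟨-, -, hin⟩ := ram_tot (A := A') (B := A) (K := K') (L := K) hN hq w hd
  have hsurj := res_bij w hin (I := Ideal.span {algebraMap O A' τ})
    (congrArg HeightOneSpectrum.asIdeal hw)
  have hτw : algebraMap A' A (algebraMap O A' τ) ∈ w.asIdeal := by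
    have h1 : algebraMap O A' τ ∈ (w.under A').asIdeal := by
      rw [hw]
      exact Ideal.mem_span_singleton_self _
    exact h1
  -- the isomorphism of the residue fields
  haveI : (Ideal.span {algebraMap O A' τ}).IsMaximal := v.isMaximal
  letI : Field (A' ⧸ Ideal.span {algebraMap O A' τ}) := Ideal.Quotient.field _
  haveI := w.isMaximal
  letI : Field (A ⧸ w.asIdeal) := Ideal.Quotient.field _
  let ρ : A' ⧸ Ideal.span {algebraMap O A' τ} →+* A ⧸ w.asIdeal :=
    Ideal.quotientMap w.asIdeal (algebraMap A' A) (by
      rw [Ideal.span_singleton_le_iff_mem, Ideal.mem_comap]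
      exact hτw)
  have hρ : ∀ a, ρ (Ideal.Quotient.mk _ a) = Ideal.Quotient.mk _ (algebraMap A' A a) := fun a =>
    Ideal.quotientMap_mk
  let e : A' ⧸ Ideal.span {algebraMap O A' τ} ≃+* A ⧸ w.asIdeal := RingEquiv.ofBijective ρ
    ⟨ρ.injective, fun x => by
      obtain ⟨a, ha⟩ := hsurj x
      exact ⟨Ideal.Quotient.mk _ a, (hρ a).trans ha⟩⟩
  have h1 : Irreducible ((G.map (red τ A')).map
      (e : A' ⧸ Ideal.span {algebraMap O A' τ} →+* A ⧸ w.asIdeal)) :=
    (MulEquiv.irreducible_iff (Polynomial.mapEquiv e).toMulEquiv).2 hG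
  have h3 : (G.map (red τ A')).map
      (e : A' ⧸ Ideal.span {algebraMap O A' τ} →+* A ⧸ w.asIdeal) =
      (G.map (algebraMap O A)).map (Ideal.Quotient.mk w.asIdeal) := by
    rw [Polynomial.map_map, Polynomial.map_map]
    congr 1
    refine RingHom.ext fun x => ?_
    show ρ (Ideal.Quotient.mk _ (algebraMap O A' x)) = Ideal.Quotient.mk _ (algebraMap O A x)
    rw [hρ, ← IsScalarTower.algebraMap_apply O A' A]
  rw [h3] at h1
  have h4 := (hGm.map (algebraMap O A)).irreducible_of_irreducible_map _ _ h1
  have h5 := ((hGm.map (algebraMap O A)).irreducible_iff_irreducible_map_fraction_map (K := K)).1 h4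
  rwa [Polynomial.map_map, ← IsScalarTower.algebraMap_eq] at h5

/-- The places with ramification. -/
theorem sep_mark {K' K : Type} [Field K'] [Field K] [Algebra O K'] [Algebra O K]
    [Algebra K' K] [IsScalarTower O K' K] {s : K} {N : ℕ} (hN : 1 < N) (hNu : IsUnit (N : O))
    (hq : IsKN N (algebraMap O K' τ) s) (hfs' : FS O K')
    {A' : Type} [CommRing A'] [IsDedekindDomain A'] [Algebra O A'] [Algebra A' K']
    [IsFractionRing A' K'] [IsScalarTower O A' K'] [IsIntegralClosure A' O K']
    (hram : Ram f A') (hc : Prime (algebraMap O A' τ)) (hs : (f.map (red τ A')).Separable)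
    {A : Type} [CommRing A] [IsDedekindDomain A] [Algebra O A]
    [Algebra A K] [IsScalarTower O A K] [IsFractionRing A K] [IsIntegralClosure A O K]
    (P : HeightOneSpectrum O) (v : HeightOneSpectrum A)
    (hPv : P.asIdeal.map (algebraMap O A) ≤ v.asIdeal ^ 2) :
    (f.map (Ideal.Quotient.mk P.asIdeal)).Separable := by
  haveI := hq.fin
  haveI := hq.separable hN
  have hfs : FS O K := hfs'.trans hq.fin (hq.separable hN)
  obtain ⟨φ, hφ1, hφ2⟩ := exists_alg (O := O) (K' := K') (K := K) A' A
  letI : Algebra A' A := φ.toAlgebra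
  haveI : IsScalarTower O A' A := IsScalarTower.of_algebraMap_eq fun p => (hφ2 p).symm
  haveI := hfs.finite A
  haveI : Module.Finite A' A := Module.Finite.of_restrictScalars_finite O A' A
  haveI : Algebra.IsIntegral A' A := Algebra.IsIntegral.of_finite A' A
  haveI : Module.IsTorsionFree A' A := by
    rw [Module.isTorsionFree_iff_algebraMap_injective]
    exact tf_of (K' := K') (K := K) (IsFractionRing.injective A' K') hφ1
  letI : Algebra A' K := ((algebraMap K' K).comp (algebraMap A' K')).toAlgebra
  haveI : IsScalarTower A' K' K := IsScalarTower.of_algebraMap_eq fun _ => rfl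
  haveI : IsScalarTower A' A K := IsScalarTower.of_algebraMap_eq fun a => (hφ1 a).symm
  by_cases hbv' : P.asIdeal.map (algebraMap O A') ≤ (v.under A').asIdeal ^ 2
  · exact (hram P (v.under A') hbv').2
  have hP : ∀ x ∈ P.asIdeal, algebraMap O A' x ∈ (v.under A').asIdeal := by
    intro x hx
    have h1 : algebraMap O A x ∈ v.asIdeal :=
      Ideal.pow_le_self two_ne_zero (hPv (Ideal.mem_map_of_mem _ hx))
    rw [IsScalarTower.algebraMap_apply O A' A] at h1
    exact h1
  by_cases htc : algebraMap O A' τ ∈ (v.under A').asIdeal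
  · -- the marked place
    have hI0 : Ideal.span {algebraMap O A' τ} ≠ ⊥ :=
      fun h => hc.ne_zero (Ideal.span_singleton_eq_bot.1 h)
    have hIp : (Ideal.span {algebraMap O A' τ}).IsPrime :=
      (Ideal.span_singleton_prime hc.ne_zero).2 hc
    haveI hImax : (Ideal.span {algebraMap O A' τ}).IsMaximal := hIp.isMaximal hI0
    have heq : Ideal.span {algebraMap O A' τ} = (v.under A').asIdeal := by
      refine hImax.eq_of_le (v.under A').isPrime.ne_top ?_
      rw [Ideal.span_singleton_le_iff_mem]
      exact htc
    haveI := P.isMaximal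
    letI : Field (O ⧸ P.asIdeal) := Ideal.Quotient.field _
    letI : Field (A' ⧸ Ideal.span {algebraMap O A' τ}) := Ideal.Quotient.field _
    let ρ : O ⧸ P.asIdeal →+* A' ⧸ Ideal.span {algebraMap O A' τ} :=
      Ideal.Quotient.lift P.asIdeal (red τ A') (fun x hx => by
        show Ideal.Quotient.mk _ (algebraMap O A' x) = 0
        rw [Ideal.Quotient.eq_zero_iff_mem, heq]
        exact hP x hx)
    have h1 : f.map (red τ A') = (f.map (Ideal.Quotient.mk P.asIdeal)).map ρ := by
      rw [Polynomial.map_map]
      congr 1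
    rw [h1] at hs
    exact (separable_map ρ).1 hs
  · -- the place is unramified over `K'`
    exfalso
    have hNu' : IsUnit (N : A') := by
      have h3 := hNu.map (algebraMap O A')
      rwa [map_natCast] at h3
    have hq' : IsKN N (algebraMap A' K' (algebraMap O A' τ)) s := by
      rwa [← IsScalarTower.algebraMap_apply O A' K']
    have hone := ram_one (A := A') (B := A) (K := K') (L := K) hN hq' hNu' v htc
    apply hbv'
    rw [Ideal.map_le_iff_le_comap]
    intro x hx
    rw [Ideal.mem_comap]
    have hxv : algebraMap O A x ∈ v.asIdeal ^ 2 := hPv (Ideal.mem_map_of_mem _ hx)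
    have h6 := (v.intValuation_le_pow_iff_mem _ 2).2 hxv
    have h7 := val_under (A := A') (L := K) v (algebraMap O K' x)
    rw [hone, pow_one, ← IsScalarTower.algebraMap_apply O K' K,
      IsScalarTower.algebraMap_apply O A K, v.valuation_of_algebraMap,
      IsScalarTower.algebraMap_apply O A' K', (v.under A').valuation_of_algebraMap] at h7
    rw [← (v.under A').intValuation_le_pow_iff_mem, ← h7]
    exact h6

end irr

end Pool.Agent.H89.GM
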