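import Pool.Agent.H89.GM.Cyc

/-!
# The descent over the extension by the root of the marked element
-/

set_option autoImplicit false
set_option linter.all false

open Polynomial IsDedekindDomain WithZero
open scoped Classical

namespace Pool.Agent.H89.GM

open Pool.Agent.H89.GB
open Pool.Agent.H89.KT (root_of norm_gal norm_pw pw_hom)
open Pool.Agent.Y160.SE (IsPw)
open Pool.Agent.Q45.TT (val_under ram_ne_zero exists_above sum_ef tf_of)

section base

variable {K K' : Type} [Field K'] [Field K] [Algebra K' K] {N : ℕ} {D : K'} {s : K}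

/-- `n`-th powers of `K` which are in `K'`, if `n` divides `N`. -/
theorem IsKN.pw_baseN {n M : ℕ} (hM : N = n * M) (h : IsKN N D s) (hN : 1 < N)
    {ν : K'} {κ : K} (hν : ν ≠ 0) (hκ : κ ^ n = algebraMap K' K ν) :
    ∃ (c : K') (j : ℕ), c ≠ 0 ∧ ν = c ^ n * D ^ j := by
  have hn0 : n ≠ 0 := by
    rintro rfl
    rw [zero_mul] at hM
    omega
  haveI : NeZero n := ⟨hn0⟩
  obtain ⟨ζ, hζ⟩ := h.zeta
  obtain ⟨g, hgs, hg⟩ := h.exists_gen hN hζ
  have hζn : IsPrimitiveRoot (ζ ^ M) n := hζ.pow (by omega) (by rw [hM, mul_comm])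
  have hκ0 : κ ≠ 0 := by
    rintro rfl
    rw [zero_pow hn0] at hκ
    exact hν ((_root_.map_eq_zero _).1 hκ.symm)
  have h1 : (g κ / κ) ^ n = 1 := by
    rw [div_pow, ← map_pow, hκ, g.commutes, div_self]
    exact (_root_.map_ne_zero _).2 hν
  obtain ⟨j, -, hj⟩ := (hζn.map_of_injective (algebraMap K' K).injective).eq_pow_of_pow_eq_one h1
  rw [eq_div_iff hκ0] at hj
  have hs := h.s_ne hN
  have hz : algebraMap K' K ζ ≠ 0 := (_root_.map_ne_zero _).2 (hζ.ne_zero h.nz)
  have hfix : g (κ / s ^ (M * j)) = κ / s ^ (M * j) := by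
    rw [map_div₀, map_pow, hgs, ← hj, mul_pow, map_pow, ← pow_mul]
    exact mul_div_mul_left _ _ (pow_ne_zero _ hz)
  obtain ⟨c, hc⟩ := h.fixed hN hg hfix
  have hκc : κ = algebraMap K' K c * s ^ (M * j) := by
    rw [hc, div_mul_cancel₀ _ (pow_ne_zero _ hs)]
  refine ⟨c, j, ?_, ?_⟩
  · rintro rfl
    rw [map_zero, zero_mul] at hκc
    exact hκ0 hκc
  · apply (algebraMap K' K).injective
    rw [← hκ, hκc, map_mul, map_pow, map_pow, ← h.pw, mul_pow, ← pow_mul, ← pow_mul, hM]
    congr 2
    ring

end base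

section main

variable {O : Type} [CommRing O] [IsDedekindDomain O] {f : O[X]} {p m l : ℕ} {τ : O} {r : ℕ}
  {Q : Fin (r + 1) → O[X]}

/-- **The descent over the extension by the root of the marked element.** -/
theorem mark_main (H : Base p O) (hf : Pol p f) {K' K : Type} [Field K'] [Field K] [Algebra O K']
    [Algebra O K] [Algebra K' K] [IsScalarTower O K' K] {s : K} (hm0 : m ≠ 0) (hml : m ≤ l)
    (hq : IsKN (p ^ l) (algebraMap O K' τ) s) (hfs' : FS O K') (hirr' : Irreducible (fK f K'))
    (hirr : Irreducible (fK f K)) (htriv : Triv p f K')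
    {A' : Type} [CommRing A'] [IsDedekindDomain A'] [Algebra O A'] [Algebra A' K']
    [IsFractionRing A' K'] [IsScalarTower O A' K'] [IsIntegralClosure A' O K']
    (hM : Marked f τ Q A') (hnd : p ^ l = 2 ∨ Nondeg p τ Q A')
    {L : Type} [Field L] [Algebra O L] [Algebra K L] [IsScalarTower O K L] {θ : L}
    (hθ : aeval θ (fK f K) = 0) (htop : IntermediateField.adjoin K {θ} = ⊤)
    {R : Type} [CommRing R] [IsDedekindDomain R] [Algebra O R] [Algebra R L]
    [IsScalarTower O R L] [IsFractionRing R L] [IsIntegralClosure R O L] :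
    (∀ (i : Fin (r + 1)) (w : HeightOneSpectrum R),
      IsPw (p ^ l) (w.valuation L (aeval θ (Q i)))) ∧
    (∀ z : L, z ≠ 0 → (∀ w : HeightOneSpectrum R, IsPw p (w.valuation L z)) →
      (∃ u : K, Algebra.norm K z = u ^ p) →
      ∃ (e : Fin (r + 1) → ℕ) (y : L), y ≠ 0 ∧ z = (∏ i, aeval θ (Q i) ^ e i) * y ^ p) ∧
    ∀ (e : Fin r → ℕ) (w : L), w ≠ 0 →
      ((∏ j, aeval θ (Q j.succ) ^ e j) ^ f.natDegree = w ^ p ^ m ∨
        (∏ j, aeval θ (Q j.succ) ^ e j) ^ f.natDegree = -w ^ p ^ m) → ∀ j, p ^ m ∣ e j := by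
  have hp := H.prime
  have hl0 : l ≠ 0 := by omega
  have hN : 1 < p ^ l := Nat.one_lt_pow hl0 hp.one_lt
  obtain ⟨M, hNM⟩ : ∃ M, p ^ l = p * M := dvd_pow_self p hl0
  have hM0 : M ≠ 0 := by
    rintro rfl
    rw [mul_zero] at hNM
    omega
  have hNu : IsUnit ((p ^ l : ℕ) : O) := by
    rw [Nat.cast_pow]
    exact H.unit.pow l
  have hNn : (p ^ l).Coprime f.natDegree := hf.cop.pow_left l
  haveI := hq.fin
  haveI := hq.separable hN
  have hsep' : (fK f K').Separable := hf.sep_of hfs'.inj hirr'
  have hsep : (fK f K).Separable := by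
    rw [← fK_alg (K' := K') (K := K)]
    exact hsep'.map
  have hm' : (fK f K').Monic := fK_monic hf _
  have hm : (fK f K).Monic := fK_monic hf _
  letI : Algebra K' L := ((algebraMap K L).comp (algebraMap K' K)).toAlgebra
  haveI : IsScalarTower K' K L := IsScalarTower.of_algebraMap_eq fun _ => rfl
  haveI : IsScalarTower O K' L := IsScalarTower.of_algebraMap_eq fun p => by
    show algebraMap O L p = algebraMap K L (algebraMap K' K (algebraMap O K' p))
    rw [← IsScalarTower.algebraMap_apply O K' K, ← IsScalarTower.algebraMap_apply O K L]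
  obtain ⟨L', l1, l2, l3, l4, θ', l5, l6, l7, rfl, htop'⟩ := exists_sub (O := O) (K' := K') θ
  have hθ' : aeval θ' (fK f K') = 0 := by
    apply (algebraMap L' L).injective
    rw [← aeval_algebraMap_apply, ← aeval_map_algebraMap K, fK_alg, hθ, map_zero]
  have hfs : FS O K := hfs'.trans hq.fin (hq.separable hN)
  haveI : FiniteDimensional K' L' := Pool.Agent.Q45.TW.fin_of hm' hθ' htop'
  haveI : FiniteDimensional K L := Pool.Agent.Q45.TW.fin_of hm hθ htop
  have hfsL' : FS O L' := hfs'.trans (Pool.Agent.Q45.TW.fin_of hm' hθ' htop')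
    (Pool.Agent.Q45.TW.sep_of hsep' hθ' htop')
  have hfsL : FS O L := hfs.trans (Pool.Agent.Q45.TW.fin_of hm hθ htop)
    (Pool.Agent.Q45.TW.sep_of hsep hθ htop)
  have hqL : IsKN (p ^ l) (algebraMap K' L' (algebraMap O K' τ)) (algebraMap K L s) :=
    kn_up hq htop' htop hm' (by rw [fK_natDegree hf]; exact hNn) hirr' hθ'
  haveI := hqL.fin
  haveI := hqL.galois hN
  obtain ⟨R', r1, r2, r3, r4, r5⟩ := exists_ic (O := O) L'
  haveI := hfsL'.ded R'
  haveI := hfsL'.frac R'
  haveI := hfsL'.finite R'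
  -- the rings of `L'` and `L`
  obtain ⟨φR, hφR1, hφR2⟩ := exists_alg (O := O) (K' := L') (K := L) R' R
  letI : Algebra R' R := φR.toAlgebra
  haveI : IsScalarTower O R' R := IsScalarTower.of_algebraMap_eq fun p => (hφR2 p).symm
  haveI := hfsL.finite R
  haveI : Module.Finite R' R := Module.Finite.of_restrictScalars_finite O R' R
  haveI : Algebra.IsIntegral R' R := Algebra.IsIntegral.of_finite R' R
  haveI : Module.IsTorsionFree R' R := by
    rw [Module.isTorsionFree_iff_algebraMap_injective]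
    exact tf_of (K' := L') (K := L) (IsFractionRing.injective R' L') hφR1
  have hcomp2 : ∀ a : R', algebraMap L' L (algebraMap R' L' a) = algebraMap R L (algebraMap R' R a) :=
    fun a => (hφR1 a).symm
  -- the rings of `K'` and `L'`
  haveI := hfs'.finite A'
  obtain ⟨ψ, hψ1, hψ2⟩ := exists_alg (O := O) (K' := K') (K := L') A' R'
  letI : Algebra A' R' := ψ.toAlgebra
  haveI : IsScalarTower O A' R' := IsScalarTower.of_algebraMap_eq fun p => (hψ2 p).symm
  haveI : Module.Finite A' R' := Module.Finite.of_restrictScalars_finite O A' R'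
  haveI : Algebra.IsIntegral A' R' := Algebra.IsIntegral.of_finite A' R'
  haveI : Module.IsTorsionFree A' R' := by
    rw [Module.isTorsionFree_iff_algebraMap_injective]
    exact tf_of (K' := K') (K := L') (IsFractionRing.injective A' K') hψ1
  have hcomp : ∀ a : A', algebraMap K' L' (algebraMap A' K' a) =
      algebraMap R' L' (algebraMap A' R' a) := fun a => (hψ1 a).symm
  -- the root
  obtain ⟨θR, rfl⟩ : ∃ θR : R', algebraMap R' L' θR = θ' := by
    apply (IsIntegralClosure.isIntegral_iff (A := R') (R := O)).1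
    refine ⟨f, hf.monic, ?_⟩
    have h3 := hθ'
    unfold fK at h3
    rwa [aeval_map_algebraMap, aeval_def] at h3
  obtain ⟨q, hq1, hq2, hq3, hq4, hq5, hq6⟩ := mark_places (A := A') (R := R') (K := K') (L := L')
    hm' hirr' hsep' hθ' htop' hcomp (fK_natDegree hf K') hM
  -- the automorphisms
  obtain ⟨ζ, hζ⟩ := hq.zeta
  obtain ⟨γ, hγ, hγ2⟩ := hqL.exists_gen hN (hζ.map_of_injective (algebraMap K' L').injective)
  obtain ⟨γ₀, hγ₀, -⟩ := hq.exists_gen hN hζ
  have hgc := gal_comp hq hγ₀ hγ
  have hgL : ∀ i, aeval (algebraMap L' L (algebraMap R' L' θR)) (Q i) =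
      algebraMap L' L (algebraMap R' L' (aeval θR (Q i))) := by
    intro i
    rw [aeval_algebraMap_apply, aeval_algebraMap_apply]
  have hg0 : ∀ i, algebraMap R' L' (aeval θR (Q i)) ≠ 0 := by
    intro i h0
    have h1 := hq1 i i
    rw [h0, map_zero, if_pos rfl] at h1
    exact exp_ne_zero h1.symm
  refine ⟨?_, ?_, ?_⟩
  · -- the valuations
    intro i w
    rw [hgL]
    letI : Algebra R' L := ((algebraMap L' L).comp (algebraMap R' L')).toAlgebra
    haveI : IsScalarTower R' L' L := IsScalarTower.of_algebraMap_eq fun _ => rfl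
    haveI : IsScalarTower R' R L := IsScalarTower.of_algebraMap_eq fun a => hcomp2 a
    rw [val_under (A := R')]
    by_cases hw : algebraMap O R' τ ∈ (w.under R').asIdeal
    · obtain ⟨j, hj⟩ := hq3 _ hw
      have h1 : (w.under R').valuation L' (algebraMap K' L' (algebraMap O K' τ)) =
          exp (-1 : ℤ) := by
        rw [← IsScalarTower.algebraMap_apply O K' L', hj]
        exact hq2 j
      obtain ⟨he, -, -⟩ := ram_tot (A := R') (B := R) (K := L') (L := L) hN hqL w h1
      rw [he]
      exact IsPw.self _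
    · rw [hq4 _ hw i, one_pow]
      exact ⟨1, (one_pow _).symm⟩
  · -- the classes
    intro z hz hev hu
    obtain ⟨φ, hφ⟩ := exists_aut (O := O) R (γ : L ≃+* L) (fun a => by
      show γ (algebraMap O L a) = algebraMap O L a
      rw [IsScalarTower.algebraMap_apply O L' L, γ.commutes])
    have hγp : (γ : L ≃+* L) ^ (p ^ l) = 1 := by
      have h1 : γ ^ (p ^ l) = 1 := by
        rw [← hqL.card hN]
        exact pow_card_eq_one'
      have h3 : ∀ n : ℕ, ∀ x : L, ((γ : L ≃+* L) ^ n) x = (γ ^ n) x := by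
        intro n
        induction n with
        | zero => intro x; rfl
        | succ n ih =>
          intro x
          rw [pow_succ, pow_succ]
          show ((γ : L ≃+* L) ^ n) (γ x) = (γ ^ n) (γ x)
          exact ih _
      refine RingEquiv.ext fun x => ?_
      rw [h3, h1]
      rfl
    refine cycW hp hl0 (γ : L ≃+* L) hγp (fun z => (∀ w : HeightOneSpectrum R,
      IsPw p (w.valuation L z)) ∧ ∃ u : K, Algebra.norm K z = u ^ p)
      (fun z => ∃ (e : Fin (r + 1) → ℕ) (y : L), y ≠ 0 ∧
        z = (∏ i, aeval (algebraMap L' L (algebraMap R' L' θR)) (Q i) ^ e i) * y ^ p)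
      ?_ ?_ ?_ hz ⟨hev, hu⟩
    · rintro z hz ⟨hev, u, hu⟩
      have hγz : γ z ≠ 0 := (_root_.map_ne_zero γ).2 hz
      refine ⟨fun w => ?_, γ₀ u / u, ?_⟩
      · have h1 := pw_hom φ (γ : L ≃+* L) hφ hev w
        obtain ⟨δ, hδ⟩ := h1
        obtain ⟨ε, hε⟩ := hev w
        refine ⟨δ / ε, ?_⟩
        rw [map_div₀, hδ, hε, div_pow]
      · show Algebra.norm K (γ z / z) = _
        have hnz : Algebra.norm K z ≠ 0 := (Algebra.norm_ne_zero_iff).2 hz
        have h5 : Algebra.norm K (γ z / z) = Algebra.norm K (γ z) / Algebra.norm K z :=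
          eq_div_of_mul_eq hnz (by rw [← map_mul, div_mul_cancel₀ _ hz])
        rw [h5, norm_gal hgc, hu, map_pow, div_pow]
    · intro z hz
      refine ⟨fun _ => 0, z, hz, ?_⟩
      simp
    · rintro z hz ⟨hev, u, hu⟩ ⟨a, y, hy, hzy⟩
      have hzy' : γ z = z * (∏ i, algebraMap L' L (algebraMap R' L' (aeval θR (Q i))) ^ a i) *
          y ^ p := by
        have h1 : γ z = z * (γ z / z) := (mul_div_cancel₀ _ hz).symm
        rw [h1]
        have h3 : γ z / z = _ := hzy
        rw [h3, mul_assoc z]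
        simp only [hgL]
      have key : ∃ w : L, w ≠ 0 ∧ γ z = z * w ^ p := by
        by_cases h2 : p ^ l = 2
        · -- the norm is a square
          have hp2 : p = 2 := by
            have h1 : p ∣ 2 := by
              rw [← h2]
              exact dvd_pow_self p hl0
            exact (Nat.prime_dvd_prime_iff_eq hp Nat.prime_two).1 h1
          have hcard : Nat.card (L ≃ₐ[L'] L) = 2 := by rw [hqL.card hN, h2]
          have hno := norm_two hγ2 hcard z
          have hNy : ∃ y : L', Algebra.norm L' z = y ^ p := by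
            refine htriv L' _ hθ' htop' R' _ ((Algebra.norm_ne_zero_iff).2 hz) (fun v => ?_) ?_
            · letI : Algebra R' L := ((algebraMap L' L).comp (algebraMap R' L')).toAlgebra
              haveI : IsScalarTower R' L' L := IsScalarTower.of_algebraMap_eq fun _ => rfl
              haveI : IsScalarTower R' R L := IsScalarTower.of_algebraMap_eq fun a => hcomp2 a
              exact norm_pw (A := R') (R := R) (K := L') (L := L) hp.ne_zero hz hev v
            · refine ⟨Algebra.norm K' u, ?_⟩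
              haveI := hq.fin
              haveI : FiniteDimensional K' L := Module.Finite.trans K L
              rw [Algebra.norm_norm, ← map_pow, ← hu, Algebra.norm_norm]
          obtain ⟨c, hc⟩ := hNy
          have hc0 : c ≠ 0 := by
            rintro rfl
            rw [zero_pow hp.ne_zero] at hc
            exact (Algebra.norm_ne_zero_iff).2 hz hc
          refine ⟨algebraMap L' L c / z, div_ne_zero ((_root_.map_ne_zero _).2 hc0) hz, ?_⟩
          rw [div_pow, ← map_pow, ← hc, hno, hp2]
          field_simp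
        · have hnd' := hnd.resolve_left h2
          obtain ⟨ε, hε⟩ := exists_eps hp hl0 hζ h2
          exact mark_redei (R := R) H hf hNM hM0 hNn hq hθ' htop' htop hirr' hcomp2 hM hnd' hq1 hq5
            hq6 hζ hε hγ hz hev hy hzy'
      obtain ⟨w, hw, hzw⟩ := key
      obtain ⟨e, y, hy0, hzy2⟩ := mark_fix (R := R) H hf hNM hM0 hNu hNn htriv hq hθ' htop' htop hirr'
        hirr hsep' hcomp hcomp2 hM hq1 hq3 hq4 hζ hγ hγ2 hz hev hu hw hzw
      refine ⟨e, y, hy0, ?_⟩
      simp only [hgL]
      exact hzy2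
  · -- independence
    intro e w hw0 hw j
    set Y : L' := (∏ i, algebraMap R' L' (aeval θR (Q (Fin.succ i))) ^ e i) ^ f.natDegree with hY
    have hY0 : Y ≠ 0 := by
      rw [hY]
      refine pow_ne_zero _ ?_
      rw [Finset.prod_ne_zero_iff]
      exact fun i _ => pow_ne_zero _ (hg0 _)
    have hYL : (∏ j, aeval (algebraMap L' L (algebraMap R' L' θR)) (Q (Fin.succ j)) ^ e j) ^
        f.natDegree = algebraMap L' L Y := by
      rw [hY, map_pow, map_prod]
      congr 1
      refine Finset.prod_congr rfl fun i _ => ?_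
      rw [hgL, map_pow]
    rw [hYL] at hw
    have hval0 : (q 0).valuation L' Y = 1 := by
      rw [hY, map_pow, map_prod, Finset.prod_eq_one, one_pow]
      intro i _
      rw [map_pow, hq1, if_neg (Fin.succ_ne_zero i), one_pow]
    have hvalj : (q j.succ).valuation L' Y = exp (-1 : ℤ) ^ (e j * f.natDegree) := by
      rw [hY, map_pow, map_prod, Finset.prod_eq_single j, map_pow, hq1, if_pos rfl, ← pow_mul]
      · intro i _ hne
        rw [map_pow, hq1, if_neg (fun h => hne (Fin.succ_injective _ h)), one_pow]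
      · intro h
        exact absurd (Finset.mem_univ j) h
    obtain ⟨Z, κ, hZ0, hZ, hZv⟩ : ∃ (Z : L') (κ : L), Z ≠ 0 ∧ κ ^ p ^ m = algebraMap L' L Z ∧
        ∀ v : HeightOneSpectrum R', v.valuation L' Z = v.valuation L' Y := by
      rcases hw with h | h
      · exact ⟨Y, w, hY0, h.symm, fun v => rfl⟩
      · exact ⟨-Y, w, neg_ne_zero.2 hY0, by rw [map_neg, h, neg_neg],
          fun v => Valuation.map_neg _ _⟩
    have hlm : p ^ l = p ^ m * p ^ (l - m) := by
      rw [← pow_add]
      congr 1
      omega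
    obtain ⟨d, k, hd0, hd⟩ := hqL.pw_baseN hlm hN hZ0 hZ
    have hNz : p ^ m ≠ 0 := pow_ne_zero _ hp.ne_zero
    have hk : p ^ m ∣ k := by
      have h1 := congrArg ((q 0).valuation L') hd
      rw [hZv, hval0, map_mul, map_pow, map_pow, ← IsScalarTower.algebraMap_apply O K' L',
        hq2 0] at h1
      have hdv : (q 0).valuation L' d ≠ 0 := (Valuation.ne_zero_iff _).2 hd0
      refine dvd_exp hNz ⟨((q 0).valuation L' d)⁻¹, ?_⟩
      rw [inv_pow]
      exact eq_inv_of_mul_eq_one_right h1.symm
    obtain ⟨k', rfl⟩ := hk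
    have hd' : Z = (d * algebraMap K' L' (algebraMap O K' τ) ^ k') ^ p ^ m := by
      rw [hd, mul_pow, ← pow_mul, mul_comm k']
    have h1 := congrArg ((q j.succ).valuation L') hd'
    rw [hZv, hvalj, map_pow] at h1
    have h3 : p ^ m ∣ e j * f.natDegree := dvd_exp hNz ⟨_, h1⟩
    exact (hf.cop.pow_left m).dvd_of_dvd_mul_right h3

end main

end Pool.Agent.H89.GM
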