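import Pool.Agent.H89.GM.Step

/-!
# The classes over the extension by the root of the marked element
-/

set_option autoImplicit false
set_option linter.all false

open Polynomial IsDedekindDomain WithZero
open scoped Classical

namespace Pool.Agent.H89.GM

open Pool.Agent.H89.GB
open Pool.Agent.H89.KT (root_of norm_gal norm_pw)
open Pool.Agent.Y160.SE (IsPw)
open Pool.Agent.Q45.TT (val_under ram_ne_zero exists_above sum_ef)

/-- The polynomials `Q i` satisfy the Rédei condition: the matrix of the residue symbols of the `Q i`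
at the places `Q j` has the maximal rank. -/
def Nondeg (p : ℕ) {O : Type} [CommRing O] (τ : O) {r : ℕ} (Q : Fin (r + 1) → O[X])
    (A : Type) [CommRing A] [Algebra O A] : Prop :=
  ∀ a : Fin (r + 1) → ℕ,
    (∀ j, ∃ y : AdjoinRoot ((Q j).map (red τ A)),
      AdjoinRoot.mk ((Q j).map (red τ A))
        ((∏ i ∈ Finset.univ.erase j, Q i ^ (a i + (p - 1) * a j)).map (red τ A)) = y ^ p) →
    ∀ i j, a i ≡ a j [MOD p]

section step

variable {O : Type} [CommRing O] [IsDedekindDomain O] {f : O[X]} {p M N : ℕ} {τ : O} {r : ℕ}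
  {Q : Fin (r + 1) → O[X]} {K' K L' L A' R' R : Type} [Field K'] [Field K] [Field L'] [Field L]
  [Algebra O K'] [Algebra O K] [Algebra O L'] [Algebra O L]
  [Algebra K' K] [Algebra K' L'] [Algebra K L] [Algebra L' L] [Algebra K' L]
  [IsScalarTower K' K L] [IsScalarTower K' L' L] [IsScalarTower O K' K]
  [IsScalarTower O K' L'] [IsScalarTower O L' L] [IsScalarTower O K L]
  [CommRing A'] [IsDedekindDomain A'] [CommRing R']
  [IsDedekindDomain R'] [CommRing R] [IsDedekindDomain R] [Algebra O A'] [Algebra O R']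
  [Algebra O R] [Algebra A' K'] [Algebra R' L'] [Algebra R L]
  [IsScalarTower O A' K'] [IsScalarTower O R' L'] [IsScalarTower O R L] [IsFractionRing A' K']
  [IsFractionRing R' L'] [IsFractionRing R L]
  [IsIntegralClosure R' O L'] [IsIntegralClosure R O L] [Algebra A' R'] [IsScalarTower O A' R']
  [Module.Finite A' R'] [Module.IsTorsionFree A' R'] [Algebra R' R] [IsScalarTower O R' R]
  [Module.Finite R' R] [Module.IsTorsionFree R' R] {s : K}

/-- **The classes fixed by the Galois group.** -/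
theorem mark_fix (H : Base p O) (hf : Pol p f) (hNM : N = p * M) (hM0 : M ≠ 0)
    (hNu : IsUnit (N : O)) (hNn : N.Coprime f.natDegree)
    (htriv : Triv p f K') (hq : IsKN N (algebraMap O K' τ) s) {θ : R'}
    (hθ : aeval (algebraMap R' L' θ) (fK f K') = 0)
    (htop' : IntermediateField.adjoin K' {algebraMap R' L' θ} = ⊤)
    (htop : IntermediateField.adjoin K {algebraMap L' L (algebraMap R' L' θ)} = ⊤)
    (hirr' : Irreducible (fK f K')) (hirr : Irreducible (fK f K)) (hsep' : (fK f K').Separable)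
    (hcomp : ∀ a : A', algebraMap K' L' (algebraMap A' K' a) = algebraMap R' L' (algebraMap A' R' a))
    (hcomp2 : ∀ a : R', algebraMap L' L (algebraMap R' L' a) = algebraMap R L (algebraMap R' R a))
    (hM : Marked f τ Q A') {q : Fin (r + 1) → HeightOneSpectrum R'}
    (hq1 : ∀ i j, (q i).valuation L' (algebraMap R' L' (aeval θ (Q j))) =
      if j = i then exp (-1 : ℤ) else 1)
    (hq3 : ∀ w : HeightOneSpectrum R', algebraMap O R' τ ∈ w.asIdeal → ∃ i, w = q i)
    (hq4 : ∀ w : HeightOneSpectrum R', algebraMap O R' τ ∉ w.asIdeal →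
      ∀ i, w.valuation L' (algebraMap R' L' (aeval θ (Q i))) = 1)
    {ζ : K'} (hζ : IsPrimitiveRoot ζ N) {γ : L ≃ₐ[L'] L}
    (hγ : γ (algebraMap K L s) = algebraMap L' L (algebraMap K' L' ζ) * algebraMap K L s)
    (hγ2 : ∀ x, x ∈ Subgroup.zpowers γ)
    {z : L} (hz : z ≠ 0) (hev : ∀ w : HeightOneSpectrum R, IsPw p (w.valuation L z))
    {y : K} (hy : Algebra.norm K z = y ^ p) {w : L} (hw : w ≠ 0) (hzw : γ z = z * w ^ p) :
    ∃ (e : Fin (r + 1) → ℕ) (y : L), y ≠ 0 ∧
      z = (∏ i, algebraMap L' L (algebraMap R' L' (aeval θ (Q i))) ^ e i) * y ^ p := by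
  have hN : 1 < N := by
    rw [hNM]
    exact lt_of_lt_of_le H.prime.one_lt (Nat.le_mul_of_pos_right _ (Nat.pos_of_ne_zero hM0))
  have hqL : IsKN N (algebraMap K' L' (algebraMap O K' τ)) (algebraMap K L s) :=
    kn_up hq htop' htop (fK_monic hf K') (by rw [fK_natDegree hf]; exact hNn) hirr' hθ
  obtain ⟨z', v, c, hz', hv, hc, hzv⟩ := fixed_class H.prime hf hNM hM0 hNn hq hθ htop' htop hirr'
    hirr hsep' hζ hγ hγ2 hz hy hw hzw
  have hev' : ∀ w : HeightOneSpectrum R, IsPw p (w.valuation L (algebraMap L' L z')) := by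
    intro w
    have h1 := hev w
    rw [hzv, map_mul, map_pow] at h1
    exact IsPw.of_mul ((Valuation.ne_zero_iff _).2 hv) h1
  letI : Algebra R' L := ((algebraMap L' L).comp (algebraMap R' L')).toAlgebra
  haveI : IsScalarTower R' L' L := IsScalarTower.of_algebraMap_eq fun _ => rfl
  haveI : IsScalarTower R' R L := IsScalarTower.of_algebraMap_eq fun a => hcomp2 a
  have hqL' : IsKN N (algebraMap R' L' (algebraMap O R' τ)) (algebraMap K L s) := by
    rwa [← IsScalarTower.algebraMap_apply O R' L', IsScalarTower.algebraMap_apply O K' L']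
  have hNu' : IsUnit (N : R') := by
    have h3 := hNu.map (algebraMap O R')
    rwa [map_natCast] at h3
  obtain ⟨e, y, hy0, hxy⟩ := base_pt H.prime hf htriv hθ htop' hirr' hsep' hcomp hM hq1 hq3 hq4 hz'
    hc (fun w hw => pw_down (B := R) hN hqL' hNu' w hw hev')
  refine ⟨e, algebraMap L' L y * v, mul_ne_zero ((_root_.map_ne_zero _).2 hy0) hv, ?_⟩
  rw [hzv, hxy, map_mul, map_prod, mul_pow, map_pow, mul_assoc]
  congr 1
  exact Finset.prod_congr rfl fun i _ => map_pow _ _ _

/-- The `p`-th root of `-1`. -/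
theorem exists_eps {F : Type} [Field F] (hp : p.Prime) {m : ℕ} (hm : m ≠ 0) {ζ : F}
    (hζ : IsPrimitiveRoot ζ (p ^ m)) (hN : p ^ m ≠ 2) : ∃ ε : F, ε ^ p = -1 := by
  rcases hp.eq_two_or_odd' with h2 | h2
  · subst h2
    obtain ⟨k, rfl⟩ : ∃ k, m = k + 2 := by
      have h1 : m ≠ 1 := by
        rintro rfl
        exact hN (by norm_num)
      exact ⟨m - 2, by omega⟩
    have h1 : IsPrimitiveRoot (ζ ^ 2 ^ (k + 1)) 2 :=
      hζ.pow (by positivity) (by rw [← pow_succ])
    refine ⟨ζ ^ 2 ^ k, ?_⟩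
    rw [← pow_mul, ← pow_succ]
    exact h1.eq_neg_one_of_two_right
  · exact ⟨-1, h2.neg_one_pow⟩

/-- **The Rédei step.** -/
theorem mark_redei (H : Base p O) (hf : Pol p f) (hNM : N = p * M) (hM0 : M ≠ 0)
    (hNn : N.Coprime f.natDegree) (hq : IsKN N (algebraMap O K' τ) s) {θ : R'}
    (hθ : aeval (algebraMap R' L' θ) (fK f K') = 0)
    (htop' : IntermediateField.adjoin K' {algebraMap R' L' θ} = ⊤)
    (htop : IntermediateField.adjoin K {algebraMap L' L (algebraMap R' L' θ)} = ⊤)
    (hirr' : Irreducible (fK f K'))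
    (hcomp2 : ∀ a : R', algebraMap L' L (algebraMap R' L' a) = algebraMap R L (algebraMap R' R a))
    (hM : Marked f τ Q A') (hnd : Nondeg p τ Q A') {q : Fin (r + 1) → HeightOneSpectrum R'}
    (hq1 : ∀ i j, (q i).valuation L' (algebraMap R' L' (aeval θ (Q j))) =
      if j = i then exp (-1 : ℤ) else 1)
    (hq5 : ∀ i, (q i).asIdeal.inertiaDeg A' = (Q i).natDegree)
    (hq6 : ∀ i, ((q i).under A').asIdeal = Ideal.span {algebraMap O A' τ})
    {ζ : K'} (hζ : IsPrimitiveRoot ζ N) {ε : K'} (hε : ε ^ p = -1) {γ : L ≃ₐ[L'] L}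
    (hγ : γ (algebraMap K L s) = algebraMap L' L (algebraMap K' L' ζ) * algebraMap K L s)
    {z : L} (hz : z ≠ 0) (hev : ∀ w : HeightOneSpectrum R, IsPw p (w.valuation L z))
    {a : Fin (r + 1) → ℕ} {y : L} (hy : y ≠ 0)
    (hzw : γ z = z * (∏ i, algebraMap L' L (algebraMap R' L' (aeval θ (Q i))) ^ a i) * y ^ p) :
    ∃ w : L, w ≠ 0 ∧ γ z = z * w ^ p := by
  have hp := H.prime
  have hN : 1 < N := by
    rw [hNM]
    exact lt_of_lt_of_le H.prime.one_lt (Nat.le_mul_of_pos_right _ (Nat.pos_of_ne_zero hM0))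
  have hqL : IsKN N (algebraMap K' L' (algebraMap O K' τ)) (algebraMap K L s) :=
    kn_up hq htop' htop (fK_monic hf K') (by rw [fK_natDegree hf]; exact hNn) hirr' hθ
  letI : Algebra R' L := ((algebraMap L' L).comp (algebraMap R' L')).toAlgebra
  haveI : IsScalarTower R' L' L := IsScalarTower.of_algebraMap_eq fun _ => rfl
  haveI : IsScalarTower R' R L := IsScalarTower.of_algebraMap_eq fun a => hcomp2 a
  set g : Fin (r + 1) → L' := fun i => algebraMap R' L' (aeval θ (Q i)) with hg
  have hgprod : ∏ i, g i = -(algebraMap K' L' (algebraMap O K' τ)) := by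
    rw [hg]
    simp only
    rw [← map_prod, ← map_prod, hM.prod, map_sub, aeval_C, map_sub, ← aeval_algebraMap_apply]
    have h1 := hθ
    unfold fK at h1
    rw [aeval_map_algebraMap] at h1
    rw [h1, zero_sub, ← IsScalarTower.algebraMap_apply O R' L',
      ← IsScalarTower.algebraMap_apply O K' L']
  have hζL : (algebraMap K' L' ζ) ^ N = 1 := by rw [← map_pow, hζ.pow_eq_one, map_one]
  have hεL : (algebraMap K' L' ε) ^ p = -1 := by rw [← map_pow, hε, map_neg, map_one]
  have hzw' : γ z = z * algebraMap L' L (∏ i, g i ^ a i) * y ^ p := by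
    rw [hzw, map_prod]
    congr 2
    exact Finset.prod_congr rfl fun i _ => (map_pow _ _ _).symm
  have hmod := hnd a fun j => by
    obtain ⟨β, hβ⟩ := redei_core (A := R') (K := L') (B := R) (L := L) hp hM0 hNM hqL hζL hγ g hgprod
      (q j) j (fun i => hq1 j i) hεL hz hy hev a hzw'
    have h1 : ∏ i ∈ Finset.univ.erase j, g i ^ (a i + (p - 1) * a j) - algebraMap R' L' β ^ p =
        algebraMap R' L' (aeval θ (∏ i ∈ Finset.univ.erase j, Q i ^ (a i + (p - 1) * a j)) -
          β ^ p) := by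
      rw [map_sub, map_pow, map_prod, map_prod]
      congr 1
      refine Finset.prod_congr rfl fun i _ => ?_
      rw [map_pow, map_pow]
    rw [h1, HeightOneSpectrum.valuation_of_algebraMap,
      HeightOneSpectrum.intValuation_lt_one_iff_mem] at hβ
    have hGw : aeval θ (Q j) ∈ (q j).asIdeal := by
      rw [← HeightOneSpectrum.intValuation_lt_one_iff_mem,
        ← HeightOneSpectrum.valuation_of_algebraMap (K := L')]
      show (q j).valuation L' (algebraMap R' L' (aeval θ (Q j))) < 1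
      rw [hq1 j j, if_pos rfl, ← exp_zero, exp_lt_exp]
      norm_num
    exact res_pow (A := A') (q j) hGw (hM.monic j) (hq6 j) (hM.irr j) (hq5 j) _ β hβ
  -- all exponents are congruent
  have hex : ∀ i, ∃ t : ℤ, (a i : ℤ) = a 0 + p * t := by
    intro i
    have h1 : (a 0 : ℤ) ≡ a i [ZMOD p] := (Int.natCast_modEq_iff.2 (hmod 0 i))
    obtain ⟨t, ht⟩ := h1.dvd
    exact ⟨t, by linarith⟩
  choose t ht using hex
  have hg0 : ∀ i, g i ≠ 0 := by
    intro i h0
    have h1 := hq1 i i
    have h3 : algebraMap R' L' (aeval θ (Q i)) = 0 := h0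
    rw [h3, map_zero, if_pos rfl] at h1
    exact exp_ne_zero h1.symm
  have h1 : ∏ i, g i ^ a i = (∏ i, g i) ^ a 0 * (∏ i, g i ^ t i) ^ p := by
    rw [← Finset.prod_pow, ← Finset.prod_pow, ← Finset.prod_mul_distrib]
    refine Finset.prod_congr rfl fun i _ => ?_
    rw [← zpow_natCast (g i) (a i), ht i, zpow_add₀ (hg0 i), zpow_natCast, mul_comm (p : ℤ),
      zpow_mul, zpow_natCast]
  have hT0 : (∏ i, g i ^ t i) ≠ 0 := by
    rw [Finset.prod_ne_zero_iff]
    exact fun i _ => zpow_ne_zero _ (hg0 i)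
  have hs0 : algebraMap K L s ≠ 0 := (_root_.map_ne_zero _).2 (hq.s_ne hN)
  have hε0 : ε ≠ 0 := by
    rintro rfl
    rw [zero_pow hp.ne_zero] at hε
    exact (neg_ne_zero.2 one_ne_zero) hε.symm
  have h3 : algebraMap L' L (∏ i, g i) =
      (algebraMap L' L (algebraMap K' L' ε) * algebraMap K L s ^ M) ^ p := by
    rw [hgprod, map_neg, ← hqL.pw, mul_pow, ← map_pow (algebraMap L' L), hεL, map_neg, map_one,
      ← pow_mul, hNM, mul_comm M, neg_one_mul]
  refine ⟨(algebraMap L' L (algebraMap K' L' ε) * algebraMap K L s ^ M) ^ a 0 *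
    algebraMap L' L (∏ i, g i ^ t i) * y, ?_, ?_⟩
  · refine mul_ne_zero (mul_ne_zero (pow_ne_zero _ (mul_ne_zero ?_ (pow_ne_zero _ hs0)))
      ((_root_.map_ne_zero _).2 hT0)) hy
    exact (_root_.map_ne_zero _).2 ((_root_.map_ne_zero _).2 hε0)
  · rw [hzw', h1, map_mul, map_pow, map_pow, h3]
    ring

end step

end Pool.Agent.H89.GM
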