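import Pool.Agent.H89.GM.Exp
import Pool.Graph.R_pool_sql_team_seeded_3997aac3.Q45.TT.Mark

/-!
# The places over a marked prime
-/

set_option autoImplicit false
set_option linter.all false

open Polynomial IsDedekindDomain WithZero
open scoped Classical

namespace Pool.Agent.H89.GM

open Pool.Agent.H89.GB
open Pool.Agent.Y160.SE (IsPw)
open Pool.Agent.Q45.TT (val_under ram_ne_zero exists_above sum_ef)

/-- The reduction of the elements of `O` modulo `τ A`. -/
noncomputable def red {O : Type} [CommRing O] (τ : O) (A : Type) [CommRing A] [Algebra O A] :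
    O →+* A ⧸ Ideal.span {algebraMap O A τ} :=
  (Ideal.Quotient.mk (Ideal.span {algebraMap O A τ})).comp (algebraMap O A)

/-- The element `τ` is a prime of `A`, and `f - τ` is the product of the polynomials `Q i`, which are
irreducible modulo `τ A`; the polynomial `f` is separable modulo `τ A`. -/
structure Marked {O : Type} [CommRing O] (f : O[X]) (τ : O) {r : ℕ} (Q : Fin (r + 1) → O[X])
    (A : Type) [CommRing A] [Algebra O A] : Prop where
  prime : Prime (algebraMap O A τ)
  monic : ∀ i, (Q i).Monic
  prod : ∏ i, Q i = f - C τ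
  irr : ∀ i, Irreducible ((Q i).map (red τ A))
  sep : (f.map (red τ A)).Separable

section count

/-- A counting lemma. -/
theorem count_all' {ι κ : Type} [Fintype ι] [Fintype κ] (q : κ → ι) (hq : Function.Injective q)
    (e f : ι → ℕ) (he : ∀ i, 0 < e i) (hf : ∀ i, 0 < f i) (d : κ → ℕ) (hd : ∀ j, d j ≤ f (q j))
    (hsum : ∑ i, e i * f i ≤ ∑ j, d j) :
    (∀ i, ∃ j, q j = i) ∧ ∀ j, e (q j) = 1 ∧ f (q j) = d j := by
  obtain ⟨h1, h3⟩ := Pool.Agent.Q45.TT.count_all q hq e f he hf d hd hsum
  refine ⟨h1, fun j => ⟨h3 j, ?_⟩⟩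
  have h4 : ∑ i, e i * f i = ∑ j, f (q j) := by
    rw [← Equiv.sum_comp (Equiv.ofBijective q ⟨hq, h1⟩) fun i => e i * f i]
    refine Finset.sum_congr rfl fun j _ => ?_
    show e (q j) * f (q j) = f (q j)
    rw [h3 j, one_mul]
  rw [h4] at hsum
  have h5 : ∑ j, d j = ∑ j, f (q j) := le_antisymm (Finset.sum_le_sum fun j _ => hd j) hsum
  exact ((Finset.sum_eq_sum_iff_of_le fun j _ => hd j).1 h5 j (Finset.mem_univ j)).symm

end count

section basic

variable {O : Type} [CommRing O] {f : O[X]} {τ : O} {r : ℕ} {Q : Fin (r + 1) → O[X]} {A : Type}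
  [CommRing A] [Algebra O A]

theorem red_self : red τ A τ = 0 := by
  show Ideal.Quotient.mk _ (algebraMap O A τ) = 0
  rw [Ideal.Quotient.eq_zero_iff_mem]
  exact Ideal.mem_span_singleton_self _

theorem Marked.max [IsDomain A] (h : Marked f τ Q A) [Ring.DimensionLEOne A] :
    (Ideal.span {algebraMap O A τ}).IsMaximal := by
  have hI0 : Ideal.span {algebraMap O A τ} ≠ ⊥ :=
    fun h1 => h.prime.ne_zero (Ideal.span_singleton_eq_bot.1 h1)
  have hIp : (Ideal.span {algebraMap O A τ}).IsPrime :=
    (Ideal.span_singleton_prime h.prime.ne_zero).2 h.prime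
  exact hIp.isMaximal hI0

theorem Marked.prod_red (h : Marked f τ Q A) : ∏ i, (Q i).map (red τ A) = f.map (red τ A) := by
  rw [← Polynomial.map_prod, h.prod, Polynomial.map_sub, map_C, red_self, C_0, sub_zero]

theorem Marked.cop (h : Marked f τ Q A) {i j : Fin (r + 1)} (hij : i ≠ j) :
    IsCoprime ((Q i).map (red τ A)) ((Q j).map (red τ A)) := by
  have h1 : (Q i).map (red τ A) * (Q j).map (red τ A) ∣ f.map (red τ A) := by
    rw [← h.prod_red, ← Finset.mul_prod_erase _ _ (Finset.mem_univ i)]
    refine mul_dvd_mul_left _ (Finset.dvd_prod_of_mem _ ?_)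
    exact Finset.mem_erase.2 ⟨fun h1 => hij h1.symm, Finset.mem_univ j⟩
  exact (h.sep.of_dvd h1).isCoprime

theorem Marked.pos [IsDomain A] (h : Marked f τ Q A) [Ring.DimensionLEOne A] (i : Fin (r + 1)) :
    0 < (Q i).natDegree := by
  haveI := h.max
  letI : Field (A ⧸ Ideal.span {algebraMap O A τ}) := Ideal.Quotient.field _
  have h1 := (h.irr i).natDegree_pos
  rwa [(h.monic i).natDegree_map] at h1

theorem Marked.sum [Nontrivial O] (h : Marked f τ Q A) :
    ∑ i, (Q i).natDegree = f.natDegree := by
  have h1 := congrArg natDegree h.prod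
  rw [natDegree_prod_of_monic _ _ fun i _ => h.monic i, natDegree_sub_C] at h1
  exact h1

end basic

section mark

variable {O : Type} [CommRing O] [IsDedekindDomain O] {f : O[X]} {τ : O} {r : ℕ}
  {Q : Fin (r + 1) → O[X]} {A R K L : Type} [CommRing A] [IsDedekindDomain A]
  [CommRing R] [IsDedekindDomain R] [Field K] [Field L] [Algebra O A] [Algebra O K]
  [Algebra A K] [IsScalarTower O A K] [IsFractionRing A K] [Algebra O R] [Algebra O L]
  [Algebra R L] [IsScalarTower O R L] [IsFractionRing R L] [Algebra K L] [IsScalarTower O K L]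
  [Algebra A R] [IsScalarTower O A R] [Module.Finite A R] [Module.IsTorsionFree A R]

/-- The residue degree is at least the degree of the factor. -/
theorem deg_le (w : HeightOneSpectrum R) {θ : R} {G : O[X]} (hGw : aeval θ G ∈ w.asIdeal)
    {I : Ideal A} (hI : I.IsMaximal) (hlo : w.asIdeal.LiesOver I)
    (hG : Irreducible (G.map ((Ideal.Quotient.mk I).comp (algebraMap O A)))) (hm : G.Monic) :
    G.natDegree ≤ w.asIdeal.inertiaDeg A := by
  haveI := hI
  haveI := hlo
  haveI := w.isMaximal
  rw [Ideal.inertiaDeg_eq_of_isMaximal I w.asIdeal]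
  letI : Field (A ⧸ I) := Ideal.Quotient.field _
  letI : Field (R ⧸ w.asIdeal) := Ideal.Quotient.field _
  haveI : Module.Finite (A ⧸ I) (R ⧸ w.asIdeal) := by
    haveI : Module.Finite A (R ⧸ w.asIdeal) := inferInstance
    exact Module.Finite.of_restrictScalars_finite A (A ⧸ I) (R ⧸ w.asIdeal)
  set η : R ⧸ w.asIdeal := Ideal.Quotient.mk _ θ with hη
  have hroot : aeval η (G.map ((Ideal.Quotient.mk I).comp (algebraMap O A))) = 0 := by
    rw [aeval_def, eval₂_map]
    have h1 : (algebraMap (A ⧸ I) (R ⧸ w.asIdeal)).comp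
        ((Ideal.Quotient.mk I).comp (algebraMap O A)) =
        (Ideal.Quotient.mk w.asIdeal).comp (algebraMap O R) := by
      refine RingHom.ext fun x => ?_
      show algebraMap (A ⧸ I) (R ⧸ w.asIdeal) (Ideal.Quotient.mk I (algebraMap O A x)) =
        Ideal.Quotient.mk w.asIdeal (algebraMap O R x)
      rw [IsScalarTower.algebraMap_apply O A R]
      rfl
    rw [h1, hη, ← hom_eval₂, Ideal.Quotient.eq_zero_iff_mem]
    exact hGw
  have hint : IsIntegral (A ⧸ I) η := IsIntegral.of_finite _ _
  have h4 : Associated (minpoly (A ⧸ I) η) (G.map ((Ideal.Quotient.mk I).comp (algebraMap O A))) :=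
    (minpoly.irreducible hint).associated_of_dvd hG (minpoly.dvd _ η hroot)
  have h5 := natDegree_eq_of_degree_eq (degree_eq_degree_of_associated h4)
  rw [hm.natDegree_map] at h5
  rw [← h5]
  exact minpoly.natDegree_le η

/-- There is a place of `G(θ)`. -/
theorem exists_pl (hm : (fK f K).Monic) (hirr : Irreducible (fK f K))
    (hsep : (fK f K).Separable) {θ : R} (hθ : aeval (algebraMap R L θ) (fK f K) = 0)
    (htop : IntermediateField.adjoin K {algebraMap R L θ} = ⊤)
    (hcomp : ∀ a : A, algebraMap K L (algebraMap A K a) = algebraMap R L (algebraMap A R a))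
    (hc : Prime (algebraMap O A τ)) {G : O[X]} (hGm : G.Monic) (hG0 : 0 < G.natDegree)
    (hGd : G ∣ f - C τ) : ∃ w : HeightOneSpectrum R, aeval θ G ∈ w.asIdeal := by
  letI : Algebra A L := ((algebraMap K L).comp (algebraMap A K)).toAlgebra
  haveI : IsScalarTower A K L := IsScalarTower.of_algebraMap_eq fun x => rfl
  haveI : IsScalarTower A R L := IsScalarTower.of_algebraMap_eq fun x => hcomp x
  haveI : FiniteDimensional K L := Pool.Agent.Q45.TW.fin_of hm hθ htop
  have hev : algebraMap R L (aeval θ G) = aeval (algebraMap R L θ) (G.map (algebraMap O K)) := by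
    rw [aeval_map_algebraMap, aeval_algebraMap_apply]
  have hno := norm_dvd (algebraMap O K τ) hm hirr hsep hθ htop (b := G.map (algebraMap O K))
    (hGm.map _) (by
      have h1 := Polynomial.map_dvd (algebraMap O K) hGd
      rwa [Polynomial.map_sub, map_C] at h1)
  rw [hGm.natDegree_map] at hno
  have hnu : ¬ IsUnit ((-1) ^ G.natDegree * aeval θ G) := by
    intro hu
    have h1 := hu.map (Algebra.intNorm A R)
    have h3 : algebraMap A K (Algebra.intNorm A R ((-1) ^ G.natDegree * aeval θ G)) =
        algebraMap A K (algebraMap O A τ ^ G.natDegree) := by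
      have h4 : algebraMap A K (Algebra.intNorm A R ((-1) ^ G.natDegree * aeval θ G)) =
          Algebra.norm K (algebraMap R L ((-1) ^ G.natDegree * aeval θ G)) :=
        Algebra.algebraMap_intNorm _
      rw [h4, map_mul, map_pow, map_neg, map_one, hev, hno, map_pow,
        ← IsScalarTower.algebraMap_apply O A K]
    rw [IsFractionRing.injective A K h3] at h1
    exact hc.not_unit (isUnit_of_dvd_unit (dvd_pow_self _ hG0.ne') h1)
  obtain ⟨M, hM, hle⟩ := exists_max_ideal_of_mem_nonunits hnu
  have hmem : aeval θ G ∈ M := by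
    have h1 := M.mul_mem_left ((-1) ^ G.natDegree) hle
    rwa [← mul_assoc, ← mul_pow, neg_one_mul, neg_neg, one_pow, one_mul] at h1
  have hG0' : aeval θ G ≠ 0 := by
    intro h0
    have h1 : aeval (algebraMap R L θ) (G.map (algebraMap O K)) = 0 := by rw [← hev, h0, map_zero]
    rw [h1, mul_zero, Algebra.norm_zero] at hno
    have h4 := pow_eq_zero_iff hG0.ne' |>.1 hno.symm
    rw [IsScalarTower.algebraMap_apply O A K] at h4
    exact hc.ne_zero (IsFractionRing.injective A K (by rw [h4, map_zero]))
  have hM0 : M ≠ ⊥ := by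
    rintro rfl
    exact hG0' (Ideal.mem_bot.1 hmem)
  exact ⟨⟨M, hM.isPrime, hM0⟩, hmem⟩

/-- **The places over the marked prime.** -/
theorem mark_places (hm : (fK f K).Monic) (hirr : Irreducible (fK f K))
    (hsep : (fK f K).Separable) {θ : R} (hθ : aeval (algebraMap R L θ) (fK f K) = 0)
    (htop : IntermediateField.adjoin K {algebraMap R L θ} = ⊤)
    (hcomp : ∀ a : A, algebraMap K L (algebraMap A K a) = algebraMap R L (algebraMap A R a))
    (hn : (fK f K).natDegree = f.natDegree) (hM : Marked f τ Q A) :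
    ∃ q : Fin (r + 1) → HeightOneSpectrum R,
      (∀ i j, (q i).valuation L (algebraMap R L (aeval θ (Q j))) =
          if j = i then exp (-1 : ℤ) else 1) ∧
      (∀ i, (q i).valuation L (algebraMap O L τ) = exp (-1 : ℤ)) ∧
      (∀ w : HeightOneSpectrum R, algebraMap O R τ ∈ w.asIdeal → ∃ i, w = q i) ∧
      (∀ w : HeightOneSpectrum R, algebraMap O R τ ∉ w.asIdeal →
        ∀ i, w.valuation L (algebraMap R L (aeval θ (Q i))) = 1) ∧
      (∀ i, (q i).asIdeal.inertiaDeg A = (Q i).natDegree) ∧
      ∀ i, ((q i).under A).asIdeal = Ideal.span {algebraMap O A τ} := by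
  letI : Algebra A L := ((algebraMap K L).comp (algebraMap A K)).toAlgebra
  haveI : IsScalarTower A K L := IsScalarTower.of_algebraMap_eq fun x => rfl
  haveI : IsScalarTower A R L := IsScalarTower.of_algebraMap_eq fun x => hcomp x
  haveI : Algebra.IsIntegral A R := Algebra.IsIntegral.of_finite A R
  have hc := hM.prime
  have hI0 : Ideal.span {algebraMap O A τ} ≠ ⊥ :=
    fun h => hc.ne_zero (Ideal.span_singleton_eq_bot.1 h)
  have hIp : (Ideal.span {algebraMap O A τ}).IsPrime := (Ideal.span_singleton_prime hc.ne_zero).2 hc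
  let v : HeightOneSpectrum A := ⟨Ideal.span {algebraMap O A τ}, hIp, hI0⟩
  haveI hvm : v.asIdeal.IsMaximal := v.isMaximal
  have hτv : ∀ w : HeightOneSpectrum R, algebraMap A R (algebraMap O A τ) ∈ w.asIdeal ↔
      w.under A = v := by
    intro w
    constructor
    · intro h
      apply HeightOneSpectrum.ext
      have h1 : v.asIdeal ≤ (w.under A).asIdeal := by
        show Ideal.span {algebraMap O A τ} ≤ _
        rw [Ideal.span_singleton_le_iff_mem]
        exact h
      exact (hvm.eq_of_le (w.under A).isPrime.ne_top h1).symm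
    · intro h
      have h1 : algebraMap O A τ ∈ (w.under A).asIdeal := by
        rw [h]
        exact Ideal.mem_span_singleton_self _
      exact h1
  have hτR : algebraMap A R (algebraMap O A τ) = algebraMap O R τ :=
    (IsScalarTower.algebraMap_apply O A R _).symm
  -- the equation
  have hprod : ∏ i, aeval θ (Q i) = -algebraMap A R (algebraMap O A τ) := by
    rw [← map_prod, hM.prod, hτR, map_sub, aeval_C]
    have h1 : aeval θ f = 0 := by
      apply IsFractionRing.injective R L
      unfold fK at hθ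
      rwa [← aeval_algebraMap_apply, map_zero, ← aeval_map_algebraMap K]
    rw [h1, zero_sub]
  have hex : ∀ i, ∃ w : HeightOneSpectrum R, aeval θ (Q i) ∈ w.asIdeal :=
    fun i => exists_pl (K := K) (L := L) hm hirr hsep hθ htop hcomp hc (hM.monic i) (hM.pos i) (by
      rw [← hM.prod]
      exact Finset.dvd_prod_of_mem _ (Finset.mem_univ i))
  choose q hq using hex
  have hqv : ∀ i, (q i).under A = v := by
    intro i
    rw [← hτv]
    have h1 : aeval θ (Q i) ∣ -algebraMap A R (algebraMap O A τ) := by
      rw [← hprod]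
      exact Finset.dvd_prod_of_mem _ (Finset.mem_univ i)
    have h4 := Ideal.mem_of_dvd (q i).asIdeal h1 (hq i)
    rwa [neg_mem_iff] at h4
  have hlo : ∀ w : HeightOneSpectrum R, w.under A = v → w.asIdeal.LiesOver v.asIdeal := by
    intro w hw
    rw [← hw]
    exact ⟨rfl⟩
  have hcop : ∀ w : HeightOneSpectrum R, w.under A = v → ∀ i j,
      aeval θ (Q i) ∈ w.asIdeal → aeval θ (Q j) ∈ w.asIdeal → i = j := by
    intro w hw i j h1 h3
    by_contra hne
    obtain ⟨a, b, hab⟩ := hM.cop hne
    haveI := hlo w hw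
    haveI : w.asIdeal.LiesOver (Ideal.span {algebraMap O A τ}) := hlo w hw
    have h4 : ∀ G : O[X], aeval (Ideal.Quotient.mk w.asIdeal θ) (G.map (red τ A)) =
        Ideal.Quotient.mk w.asIdeal (aeval θ G) := by
      intro G
      have h5 : (algebraMap (A ⧸ Ideal.span {algebraMap O A τ}) (R ⧸ w.asIdeal)).comp (red τ A) =
          (Ideal.Quotient.mk w.asIdeal).comp (algebraMap O R) := by
        refine RingHom.ext fun x => ?_
        show algebraMap (A ⧸ Ideal.span {algebraMap O A τ}) (R ⧸ w.asIdeal)
          (Ideal.Quotient.mk _ (algebraMap O A x)) = Ideal.Quotient.mk w.asIdeal (algebraMap O R x)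
        rw [IsScalarTower.algebraMap_apply O A R]
        rfl
      rw [aeval_def, eval₂_map, h5, ← hom_eval₂, aeval_def]
    have h5 := congrArg (aeval (Ideal.Quotient.mk w.asIdeal θ)) hab
    rw [map_add, map_mul, map_mul, h4, h4, Ideal.Quotient.eq_zero_iff_mem.2 h1,
      Ideal.Quotient.eq_zero_iff_mem.2 h3, mul_zero, mul_zero, add_zero, map_one] at h5
    haveI : Nontrivial (R ⧸ w.asIdeal) := Ideal.Quotient.nontrivial_iff.2 w.isPrime.ne_top
    exact zero_ne_one h5
  have hnn : Module.finrank A R = f.natDegree := by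
    rw [← IsFractionRing.finrank_eq A K R L, Pool.Agent.Q45.TW.finrank_of hirr hm hθ htop, hn]
  -- counting
  let qI : Fin (r + 1) → v.asIdeal.primesOver R := fun i =>
    ⟨(q i).asIdeal, (q i).isPrime, hlo _ (hqv i)⟩
  obtain ⟨hall, he1⟩ := count_all' (ι := v.asIdeal.primesOver R) (κ := Fin (r + 1)) qI
    (fun i j h => by
      have h1 : (q i).asIdeal = (q j).asIdeal := congrArg Subtype.val h
      refine hcop (q i) (hqv i) i j (hq i) ?_
      rw [h1]
      exact hq j)
    (fun x => x.1.ramificationIdx A) (fun x => x.1.inertiaDeg A)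
    (fun x => by haveI := x.2.1; exact Ideal.ramificationIdx_pos x.1 A)
    (fun x => by haveI := x.2.1; exact Ideal.inertiaDeg_pos x.1 A) (fun i => (Q i).natDegree)
    (fun i => deg_le (q i) (hq i) (I := v.asIdeal) hvm (hlo _ (hqv i)) (hM.irr i) (hM.monic i)) (by
      rw [sum_ef (B := R) v, hnn, hM.sum])
  have hval : ∀ i, (q i).valuation L (algebraMap O L τ) = exp (-1 : ℤ) := by
    intro i
    have h1 : algebraMap O L τ = algebraMap K L (algebraMap A K (algebraMap O A τ)) := by
      rw [← IsScalarTower.algebraMap_apply O A K, ← IsScalarTower.algebraMap_apply O K L]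
    rw [h1, val_under (A := A)]
    have h3 : ((q i).under A).asIdeal.ramificationIdx' (q i).asIdeal = 1 := by
      haveI : (q i).asIdeal.LiesOver ((q i).under A).asIdeal := ⟨rfl⟩
      haveI := (q i).isPrime
      rw [Ideal.ramificationIdx'_eq_ramificationIdx _ _ ((q i).under A).ne_bot]
      exact (he1 i).1
    rw [h3, pow_one, hqv i, v.valuation_of_algebraMap]
    exact v.intValuation_singleton hc.ne_zero rfl
  refine ⟨q, fun i j => ?_, hval, fun w hw => ?_, fun w hw i => ?_, fun i => (he1 i).2,
    fun i => congrArg HeightOneSpectrum.asIdeal (hqv i)⟩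
  · have h0 : ∀ j, j ≠ i → (q i).valuation L (algebraMap R L (aeval θ (Q j))) = 1 := by
      intro j hne
      rw [(q i).valuation_of_algebraMap, (q i).intValuation_eq_one_iff]
      exact fun h => hne (hcop (q i) (hqv i) j i h (hq i))
    split_ifs with h
    · subst h
      have h1 := congrArg (fun x => (q j).valuation L (algebraMap R L x)) hprod
      simp only [map_prod, map_neg, Valuation.map_neg] at h1
      rw [← Finset.mul_prod_erase _ _ (Finset.mem_univ j), Finset.prod_eq_one fun k hk =>
        h0 k (Finset.ne_of_mem_erase hk), mul_one, hτR,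
        ← IsScalarTower.algebraMap_apply O R L, hval j] at h1
      exact h1
    · exact h0 j h
  · have hwv : w.under A = v := by
      rw [← hτv, hτR]
      exact hw
    obtain ⟨i, hi⟩ := hall ⟨w.asIdeal, w.isPrime, hlo w hwv⟩
    refine ⟨i, ?_⟩
    apply HeightOneSpectrum.ext
    exact (congrArg Subtype.val hi).symm
  · rw [w.valuation_of_algebraMap, w.intValuation_eq_one_iff]
    intro h
    apply hw
    have h1 : aeval θ (Q i) ∣ -algebraMap A R (algebraMap O A τ) := by
      rw [← hprod]
      exact Finset.dvd_prod_of_mem _ (Finset.mem_univ i)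
    have h4 := Ideal.mem_of_dvd w.asIdeal h1 h
    rwa [neg_mem_iff, hτR] at h4

end mark

end Pool.Agent.H89.GM
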