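import Pool.Agent.H89.GB.Main
import Pool.Graph.R_pool_sql_team_seeded_3997aac3.Q45.TW.Nm

/-!
# The norm of the value of a divisor of `F - t`
-/

set_option autoImplicit false
set_option linter.all false

open Polynomial
open scoped Classical

namespace Pool.Agent.H89.GM

/-- The norm of the value of a divisor of `F - t`, for `F(θ) = 0`. -/
theorem norm_dvd {K L : Type} [Field K] [Field L] [Algebra K L] {θ : L} {F : K[X]} (t : K)
    (hm : F.Monic) (hirr : Irreducible F) (hsep : F.Separable)
    (hθ : aeval θ F = 0) (htop : IntermediateField.adjoin K {θ} = ⊤) {b : K[X]}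
    (hb : b.Monic) (hbg : b ∣ F - C t) :
    Algebra.norm K ((-1) ^ b.natDegree * aeval θ b) = t ^ b.natDegree := by
  let E := AlgebraicClosure K
  have e1 : (-1) ^ b.natDegree * aeval θ b =
      aeval θ ((-1) ^ b.natDegree * b : K[X]) := by
    rw [map_mul, map_pow, map_neg, map_one]
  apply (algebraMap K E).injective
  rw [e1, Pool.Agent.Q45.TW.norm_roots hirr hm hsep hθ htop E]
  set B := (F.map (algebraMap K E)).roots with hB
  set bE := b.map (algebraMap K E) with hbE
  have hbm : bE.Monic := hb.map _
  have hbs : bE.Splits := IsAlgClosed.splits bE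
  have hfs : (F.map (algebraMap K E)).Splits := IsAlgClosed.splits _
  have hcard : Multiset.card bE.roots = b.natDegree := by
    rw [← hbs.natDegree_eq_card_roots, hbE, hb.natDegree_map]
  have h1 : ∀ β : E, aeval β ((-1) ^ b.natDegree * b : K[X]) =
      (bE.roots.map fun η => η - β).prod := by
    intro β
    have h3 : aeval β b = bE.eval β := by
      rw [hbE, eval_map_algebraMap]
    have h4 : (bE.roots.map fun η => η - β) = (bE.roots.map fun η => β - η).map Neg.neg := by
      rw [Multiset.map_map]
      refine Multiset.map_congr rfl fun η _ => ?_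
      show η - β = -(β - η)
      ring
    rw [map_mul, map_pow, map_neg, map_one, h3, hbs.eval_eq_prod_roots_of_monic hbm, h4,
      Multiset.prod_map_neg, Multiset.card_map, hcard]
  simp only [h1]
  rw [Multiset.prod_map_prod_map]
  have h3 : ∀ η ∈ bE.roots, (B.map fun β => η - β).prod = algebraMap K E t := by
    intro η hη
    rw [← hfs.eval_eq_prod_roots_of_monic (hm.map _)]
    obtain ⟨q, hq⟩ := hbg
    have h6 : (F - C t).map (algebraMap K E) = bE * q.map (algebraMap K E) := by
      rw [hq, Polynomial.map_mul]
    have h7 := congrArg (eval η) h6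
    rw [eval_mul, (mem_roots hbm.ne_zero).1 hη, zero_mul, Polynomial.map_sub, map_C, eval_sub,
      eval_C, sub_eq_zero] at h7
    exact h7
  rw [Multiset.map_congr rfl h3, Multiset.map_const', Multiset.prod_replicate, hcard, map_pow]

end Pool.Agent.H89.GM
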