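import Pool.Agent.H89.GM.Cls

/-!
# Ramification in Kummer extensions of degree `N`
-/

set_option autoImplicit false
set_option linter.all false

open Polynomial IsDedekindDomain WithZero
open scoped Classical

namespace Pool.Agent.H89.GM

open Pool.Agent.Y160.SE (IsPw)
open Pool.Agent.Q45.TT (val_under ram_ne_zero exists_above sum_ef)

section ring

variable {A K B L : Type} [CommRing A] [IsDedekindDomain A] [Field K] [Algebra A K]
  [IsFractionRing A K] [CommRing B] [IsDedekindDomain B] [Field L] [Algebra B L] [IsFractionRing B L]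
  [Algebra K L] [Algebra A B] [Algebra A L] [IsScalarTower A K L] [IsScalarTower A B L]
  [Module.IsTorsionFree A B]

/-- A Kummer extension by a root of a unit is unramified. -/
theorem ram_one [Module.Finite A B] {N : ℕ} (hN : 1 < N) {d : A} {s : L}
    (h : IsKN N (algebraMap A K d) s) (h2 : IsUnit (N : A))
    (w : HeightOneSpectrum B) (hd : d ∉ (w.under A).asIdeal) :
    (w.under A).asIdeal.ramificationIdx' w.asIdeal = 1 := by
  haveI : Algebra.IsIntegral A B := Algebra.IsIntegral.of_finite A B
  haveI := h.fin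
  haveI := h.separable hN
  set v := w.under A with hv
  haveI hlo : w.asIdeal.LiesOver v.asIdeal := ⟨rfl⟩
  haveI : v.asIdeal.IsMaximal := v.isMaximal
  have hsq : s ^ N = algebraMap B L (algebraMap A B d) := by
    rw [h.pw, ← IsScalarTower.algebraMap_apply A K L, ← IsScalarTower.algebraMap_apply A B L]
  obtain ⟨t, ht⟩ : ∃ t : B, algebraMap B L t = s := by
    apply (IsIntegrallyClosed.isIntegral_iff (K := L)).1
    refine IsIntegral.of_pow (n := N) (by omega) ?_
    rw [hsq]
    exact isIntegral_algebraMap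
  have ht2 : t ^ N = algebraMap A B d := by
    apply IsFractionRing.injective B L
    rw [map_pow, ht, hsq]
  have htw : t ∉ w.asIdeal := by
    intro h1
    have h3 : algebraMap A B d ∈ w.asIdeal := by
      rw [← ht2]
      exact Ideal.pow_mem_of_mem _ h1 N (by omega)
    exact hd h3
  have hmon := h.mon
  have hirr := h.irr
  have hroot : aeval (algebraMap B L t) (X ^ N - C (algebraMap A K d) : K[X]) = 0 := by
    rw [ht]
    exact h.root
  have hminK : minpoly K (algebraMap B L t) = X ^ N - C (algebraMap A K d) :=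
    (minpoly.eq_of_irreducible_of_monic hirr hroot hmon).symm
  have hint : IsIntegral A t := Algebra.IsIntegral.isIntegral t
  have hmin : minpoly A t = X ^ N - C d := by
    have h1 := minpoly.isIntegrallyClosed_eq_field_fractions K L hint
    rw [hminK] at h1
    apply map_injective (algebraMap A K) (IsFractionRing.injective A K)
    rw [← h1, Polynomial.map_sub, Polynomial.map_pow, map_X, map_C]
  have htop : Algebra.adjoin K {algebraMap B L t} = ⊤ := by
    have hi : IsIntegral K (algebraMap B L t) := ⟨_, hmon, hroot⟩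
    have h3 := IntermediateField.adjoin_simple_toSubalgebra_of_isAlgebraic hi.isAlgebraic
    have h4 : IntermediateField.adjoin K {algebraMap B L t} = ⊤ := by
      rw [ht]
      exact h.top
    rw [h4] at h3
    exact h3.symm
  have hmem := aeval_derivative_mem_differentIdeal A K L t htop
  have hder : derivative (X ^ N - C d : A[X]) = C (N : A) * X ^ (N - 1) := by
    rw [derivative_sub, derivative_C, sub_zero, derivative_X_pow]
  rw [hmin, hder, map_mul, aeval_C, map_pow, aeval_X, map_natCast] at hmem
  by_contra hne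
  have hle : v.asIdeal.map (algebraMap A B) ≤ w.asIdeal := by
    rw [Ideal.map_le_iff_le_comap]
    exact le_of_eq hlo.over
  have h3 := (Ideal.ramificationIdx'_ne_one_iff hle).1 hne
  have h4 : w.asIdeal ^ 2 ∣ v.asIdeal.map (algebraMap A B) := Ideal.dvd_iff_le.2 h3
  have h5 := pow_sub_one_dvd_differentIdeal_aux K L (A := A) (B := B) w.asIdeal (e := 2) (by norm_num)
    v.ne_bot h4
  have h6 : (N : B) * t ^ (N - 1) ∈ w.asIdeal := by
    have h7 := Ideal.dvd_iff_le.1 h5 hmem
    norm_num at h7
    exact h7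
  rcases w.isPrime.mem_or_mem h6 with h7 | h7
  · refine w.isPrime.ne_top (Ideal.eq_top_of_isUnit_mem _ h7 ?_)
    have h8 := h2.map (algebraMap A B)
    rwa [map_natCast] at h8
  · exact htw (w.isPrime.mem_of_pow_mem _ h7)

/-- Descent of the divisibility of the valuation. -/
theorem pw_down [Module.Finite A B] {N : ℕ} (hN : 1 < N) {p : ℕ} {d : A} {s : L}
    (h : IsKN N (algebraMap A K d) s) (h2 : IsUnit (N : A))
    (v : HeightOneSpectrum A) (hd : d ∉ v.asIdeal) {x : K}
    (hx : ∀ w : HeightOneSpectrum B, IsPw p (w.valuation L (algebraMap K L x))) :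
    IsPw p (v.valuation K x) := by
  haveI : Algebra.IsIntegral A B := Algebra.IsIntegral.of_finite A B
  obtain ⟨w, rfl⟩ := exists_above (B := B) v
  have h1 := hx w
  rwa [val_under (A := A), ram_one hN h h2 w hd, pow_one] at h1

/-- Total ramification. -/
theorem ram_tot [Module.Finite A B] {N : ℕ} (hN : 1 < N) {D : K} {s : L}
    (h : IsKN N D s) (w : HeightOneSpectrum B) (hd : (w.under A).valuation K D = exp (-1 : ℤ)) :
    (w.under A).asIdeal.ramificationIdx' w.asIdeal = N ∧ w.valuation L s = exp (-1 : ℤ) ∧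
      w.asIdeal.inertiaDeg A = 1 := by
  haveI : Algebra.IsIntegral A B := Algebra.IsIntegral.of_finite A B
  set v := w.under A with hv
  haveI hlo : w.asIdeal.LiesOver v.asIdeal := ⟨rfl⟩
  haveI : v.asIdeal.IsMaximal := v.isMaximal
  haveI := w.isPrime
  have hsum := sum_ef (B := B) v
  have hpos : 0 < w.asIdeal.inertiaDeg A := Ideal.inertiaDeg_pos w.asIdeal A
  have hwm : w.asIdeal ∈ v.asIdeal.primesOver B := ⟨w.isPrime, hlo⟩
  have h1 : w.asIdeal.ramificationIdx A * w.asIdeal.inertiaDeg A ≤ N := by
    rw [← h.finrank, IsFractionRing.finrank_eq A K B L, ← hsum]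
    exact Finset.single_le_sum
      (f := fun q : v.asIdeal.primesOver B => q.1.ramificationIdx A * q.1.inertiaDeg A)
      (fun _ _ => Nat.zero_le _) (Finset.mem_univ (⟨w.asIdeal, hwm⟩ : v.asIdeal.primesOver B))
  rw [← Ideal.ramificationIdx'_eq_ramificationIdx v.asIdeal w.asIdeal v.ne_bot] at h1
  have h3 := val_under (A := A) (L := L) w D
  rw [← h.pw, map_pow, ← hv, hd] at h3
  set e := v.asIdeal.ramificationIdx' w.asIdeal with he
  have hs0 : w.valuation L s ≠ 0 := (Valuation.ne_zero_iff _).2 (h.s_ne hN)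
  obtain ⟨j, hj⟩ : ∃ j : ℤ, w.valuation L s = exp j := ⟨_, (exp_log hs0).symm⟩
  rw [hj, ← exp_nsmul, ← exp_nsmul] at h3
  have h4 := exp_injective h3
  rw [nsmul_eq_mul, nsmul_eq_mul] at h4
  have he0 : e ≠ 0 := ram_ne_zero (A := A) w
  have heN : e ≤ N := (Nat.le_mul_of_pos_right _ hpos).trans h1
  have hj1 : j = -1 := by
    have h5 : (N : ℤ) * (-j) = e := by linarith
    have h6 : 0 < -j := by
      by_contra hcon
      push Not at hcon
      have h7 : (N : ℤ) * (-j) ≤ 0 := mul_nonpos_of_nonneg_of_nonpos (by omega) hcon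
      have h8 : (0 : ℤ) < e := by omega
      omega
    have h7 : -j < 2 := by
      by_contra hcon
      push Not at hcon
      have h8 : (N : ℤ) * 2 ≤ (N : ℤ) * (-j) := mul_le_mul_of_nonneg_left hcon (by omega)
      omega
    omega
  subst hj1
  have h5 : e = N := by
    have : (N : ℤ) * (-(-1)) = e := by linarith
    omega
  refine ⟨h5, hj, ?_⟩
  rw [h5] at h1
  have h6 : N * w.asIdeal.inertiaDeg A ≤ N * 1 := by rw [mul_one]; exact h1
  have h7 := Nat.le_of_mul_le_mul_left h6 (by omega)
  omega

/-- The residue field at a place of residue degree one. -/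
theorem res_bij [Algebra.IsIntegral A B] (w : HeightOneSpectrum B)
    (h3 : w.asIdeal.inertiaDeg A = 1) {I : Ideal A} (hI : (w.under A).asIdeal = I) :
    ∀ x : B ⧸ w.asIdeal, ∃ a : A, Ideal.Quotient.mk w.asIdeal (algebraMap A B a) = x := by
  subst hI
  set v := w.under A with hv
  haveI : v.asIdeal.IsMaximal := v.isMaximal
  haveI hlo : w.asIdeal.LiesOver v.asIdeal := ⟨rfl⟩
  haveI := w.isPrime
  haveI := w.isMaximal
  rw [Ideal.inertiaDeg_eq_of_isMaximal v.asIdeal w.asIdeal] at h3
  letI : Field (A ⧸ v.asIdeal) := Ideal.Quotient.field _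
  letI : Field (B ⧸ w.asIdeal) := Ideal.Quotient.field _
  have h5 : Function.Surjective (algebraMap (A ⧸ v.asIdeal) (B ⧸ w.asIdeal)) :=
    (Algebra.finrank_eq_one_iff_bijective_algebraMap.mp h3).2
  intro x
  obtain ⟨y, rfl⟩ := h5 x
  obtain ⟨a, rfl⟩ := Ideal.Quotient.mk_surjective y
  exact ⟨a, rfl⟩

end ring

end Pool.Agent.H89.GM
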