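import Pool.Agent.H89.GM.Ap

/-!
# The residue relation at the marked places
-/

set_option autoImplicit false
set_option linter.all false

open Polynomial IsDedekindDomain WithZero
open scoped Classical

namespace Pool.Agent.H89.GM

open Pool.Agent.Y160.SE (IsPw)
open Pool.Agent.Q45.TT (val_under ram_ne_zero exists_above sum_ef)

section ring

variable {A K B L : Type} [CommRing A] [IsDedekindDomain A] [Field K] [Algebra A K]
  [IsFractionRing A K] [CommRing B] [IsDedekindDomain B] [Field L] [Algebra B L] [IsFractionRing B L]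
  [Algebra K L] [Algebra A B] [Algebra A L] [IsScalarTower A K L] [IsScalarTower A B L]
  [Module.IsTorsionFree A B]

/-- **The residue relation at a marked place.** -/
theorem redei_core [Module.Finite A B] {p M N : ℕ} (hp : p.Prime) (hM : M ≠ 0) (hNM : N = p * M)
    {D : K} {s : L} (h : IsKN N D s)
    {ζ : K} (hζ : ζ ^ N = 1) {γ : L ≃ₐ[K] L} (hγ : γ s = algebraMap K L ζ * s)
    {r : ℕ} (g : Fin (r + 1) → K) (hg : ∏ i, g i = -D) (q : HeightOneSpectrum A) (j : Fin (r + 1))
    (hv : ∀ i, q.valuation K (g i) = if i = j then exp (-1 : ℤ) else 1) {ε : K} (hε : ε ^ p = -1)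
    {x y : L} (hx : x ≠ 0) (hy : y ≠ 0)
    (hev : ∀ w : HeightOneSpectrum B, IsPw p (w.valuation L x)) (a : Fin (r + 1) → ℕ)
    (hxy : γ x = x * algebraMap K L (∏ i, g i ^ a i) * y ^ p) :
    ∃ β : A, q.valuation K (∏ i ∈ Finset.univ.erase j, g i ^ (a i + (p - 1) * a j) -
      algebraMap A K β ^ p) < 1 := by
  haveI : Algebra.IsIntegral A B := Algebra.IsIntegral.of_finite A B
  obtain ⟨w, rfl⟩ := exists_above (B := B) q
  set v := (w.under A).valuation K with hvdef
  have hg0 : ∀ i, g i ≠ 0 := by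
    intro i h0
    have h1 := hv i
    rw [h0, map_zero] at h1
    split_ifs at h1
    · exact exp_ne_zero h1.symm
    · exact zero_ne_one h1
  have hprod : ∀ e : Fin (r + 1) → ℕ, v (∏ i, g i ^ e i) = exp (-1 : ℤ) ^ e j := by
    intro e
    rw [map_prod, Finset.prod_eq_single j]
    · rw [map_pow, hv, if_pos rfl]
    · intro i _ hij
      rw [map_pow, hv, if_neg hij, one_pow]
    · intro h1
      exact absurd (Finset.mem_univ j) h1
  have hprod' : ∀ e : Fin (r + 1) → ℕ, v (∏ i ∈ Finset.univ.erase j, g i ^ e i) = 1 := by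
    intro e
    rw [map_prod]
    refine Finset.prod_eq_one fun i hi => ?_
    rw [map_pow, hv, if_neg (Finset.ne_of_mem_erase hi), one_pow]
  have hD : v D = exp (-1 : ℤ) := by
    have h1 := hprod fun _ => 1
    simp only [pow_one] at h1
    rw [hg, Valuation.map_neg] at h1
    exact h1
  set U := ∏ i, g i ^ a i with hU
  have hU0 : U ≠ 0 := by
    rw [hU, Finset.prod_ne_zero_iff]
    exact fun i _ => pow_ne_zero _ (hg0 i)
  obtain ⟨b, k, e, hb, hap⟩ := rel_res (A := A) hp hM hNM h w hD hζ hγ hx hy hU0 (hev w) hxy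
  have hζ1 : v ζ = 1 := by
    have h1 : v ζ ^ N = 1 := by
      rw [← map_pow, hζ, map_one]
    exact (pow_eq_one_iff.1 h1).resolve_right h.nz
  have hbv : v b ≠ 0 := (Valuation.ne_zero_iff _).2 hb
  obtain ⟨t, ht⟩ : ∃ t : ℕ, a j + k = p * t := by
    have h1 := hap.val
    rw [← hvdef] at h1
    rw [map_mul, map_mul, hU, hprod, map_pow, hD, map_pow, map_pow, hζ1, one_pow, ← exp_log hbv] at h1
    simp only [← exp_nsmul, ← exp_add] at h1
    rw [← exp_zero] at h1
    have h3 := exp_injective h1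
    simp only [nsmul_eq_mul] at h3
    have h4 : (p : ℤ) ∣ ((a j + k : ℕ) : ℤ) := ⟨log (v b), by push_cast; linarith⟩
    exact Int.natCast_dvd_natCast.1 h4
  -- the product without the place `j`
  set G := ∏ i ∈ Finset.univ.erase j, g i with hGdef
  have hG0 : G ≠ 0 := by
    rw [hGdef, Finset.prod_ne_zero_iff]
    exact fun i _ => hg0 i
  set E := ∏ i ∈ Finset.univ.erase j, g i ^ (a i + (p - 1) * a j) with hE
  have hE0 : E ≠ 0 := by
    rw [hE, Finset.prod_ne_zero_iff]
    exact fun i _ => pow_ne_zero _ (hg0 i)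
  set W := ∏ i ∈ Finset.univ.erase j, g i ^ (a i + k) with hW
  have hpp : p - 1 + 1 = p := Nat.sub_add_cancel hp.one_le
  have hEW : E * (G ^ t) ^ p = W * (G ^ a j) ^ p := by
    rw [hE, hW, hGdef, ← pow_mul, ← pow_mul, ← Finset.prod_pow, ← Finset.prod_pow,
      ← Finset.prod_mul_distrib, ← Finset.prod_mul_distrib]
    refine Finset.prod_congr rfl fun i _ => ?_
    rw [← pow_add, ← pow_add]
    congr 1
    have h1 : (p - 1) * a j + a j = p * a j := by
      conv_rhs => rw [← hpp]
      ring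
    have h3 : t * p = a j + k := by rw [ht]; ring
    have h4 : a j * p = p * a j := mul_comm _ _
    omega
  have hε0 : ε ≠ 0 := by
    rintro rfl
    rw [zero_pow hp.ne_zero] at hε
    exact (neg_ne_zero.2 one_ne_zero) hε.symm
  have hUD : U * D ^ k * b ^ p = (ε ^ k * g j ^ t * b) ^ p * W := by
    have h1 : D ^ k = (ε ^ k) ^ p * (∏ i, g i) ^ k := by
      rw [hg, ← pow_mul, mul_comm k p, pow_mul, hε, ← mul_pow, neg_one_mul, neg_neg]
    have h3 : U * (∏ i, g i) ^ k = g j ^ (p * t) * W := by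
      rw [hU, ← Finset.prod_pow, ← Finset.prod_mul_distrib, ← Finset.mul_prod_erase _ _
        (Finset.mem_univ j), hW, ← ht, ← pow_add]
      congr 1
      refine Finset.prod_congr rfl fun i _ => ?_
      rw [← pow_add]
    calc U * D ^ k * b ^ p = (ε ^ k) ^ p * (U * (∏ i, g i) ^ k) * b ^ p := by rw [h1]; ring
      _ = _ := by
          rw [h3, mul_pow, mul_pow, pow_mul (g j), ← pow_mul (g j) p t, mul_comm p t,
            pow_mul (g j) t p]
          ring
  rw [hUD] at hap
  -- the approximation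
  set c := ε ^ k * g j ^ t * b with hc
  have hc0 : c ≠ 0 := mul_ne_zero (mul_ne_zero (pow_ne_zero _ hε0) (pow_ne_zero _ (hg0 j))) hb
  have hap1 : Ap v ((ζ ^ e * G ^ a j) ^ p) ((c * G ^ t) ^ p * E) := by
    have h1 := hap.mul (Ap.refl (v := v) (pow_ne_zero p (pow_ne_zero (a j) hG0)))
    have h3 : c ^ p * W * (G ^ a j) ^ p = (c * G ^ t) ^ p * E := by
      rw [mul_assoc, ← hEW, mul_pow]
      ring
    have h4 : ζ ^ (p * e) * (G ^ a j) ^ p = (ζ ^ e * G ^ a j) ^ p := by
      rw [mul_pow, ← pow_mul ζ, mul_comm e]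
    rw [← h3, ← h4]
    exact h1
  have hcG : c * G ^ t ≠ 0 := mul_ne_zero hc0 (pow_ne_zero _ hG0)
  have hap3 : Ap v E ((ζ ^ e * G ^ a j / (c * G ^ t)) ^ p) := by
    refine Ap.cancel (pow_ne_zero p hcG) ?_
    have h1 : (c * G ^ t) ^ p * (ζ ^ e * G ^ a j / (c * G ^ t)) ^ p = (ζ ^ e * G ^ a j) ^ p := by
      rw [← mul_pow, mul_div_cancel₀ _ hcG]
    rw [h1]
    exact hap1.symm
  set β₀ := ζ ^ e * G ^ a j / (c * G ^ t) with hβ₀
  have hEv : v E = 1 := hprod' _
  have hβv : v β₀ = 1 := by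
    have h1 := hap3.val
    rw [hEv, map_pow] at h1
    exact (pow_eq_one_iff.1 h1).resolve_right hp.ne_zero
  obtain ⟨β, hβ⟩ := HeightOneSpectrum.exists_valuation_sub_lt_of_integer (w.under A) (K := K)
    (x := β₀) hβv.le 1
  rw [Units.val_one] at hβ
  refine ⟨β, ?_⟩
  have h1 : Ap v β₀ (algebraMap A K β) := by
    unfold Ap
    rw [hβv, Valuation.map_sub_swap]
    exact hβ
  have h3 := hap3.trans (h1.pow p)
  unfold Ap at h3
  rwa [hEv] at h3

end ring

end Pool.Agent.H89.GM
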