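import Pool.Agent.H89.GM.Red

/-!
# The residue fields at the marked places
-/

set_option autoImplicit false
set_option linter.all false

open Polynomial IsDedekindDomain WithZero
open scoped Classical

namespace Pool.Agent.H89.GM

open Pool.Agent.Y160.SE (IsPw)
open Pool.Agent.Q45.TT (val_under ram_ne_zero exists_above sum_ef)

section res

variable {O : Type} [CommRing O] [IsDedekindDomain O] {τ : O} {A R : Type} [CommRing A]
  [IsDedekindDomain A] [CommRing R] [IsDedekindDomain R] [Algebra O A] [Algebra O R]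
  [Algebra A R] [IsScalarTower O A R] [Module.Finite A R] [Module.IsTorsionFree A R]

/-- The `p`-th powers in the residue field at a marked place. -/
theorem res_pow (w : HeightOneSpectrum R) {θ : R} {G : O[X]} (hGw : aeval θ G ∈ w.asIdeal)
    (hm : G.Monic) (hI : (w.under A).asIdeal = Ideal.span {algebraMap O A τ})
    (hG : Irreducible (G.map (red τ A))) (hdeg : w.asIdeal.inertiaDeg A = G.natDegree) {p : ℕ}
    (P : O[X]) (β : R) (hP : aeval θ P - β ^ p ∈ w.asIdeal) :
    ∃ y : AdjoinRoot (G.map (red τ A)), AdjoinRoot.mk _ (P.map (red τ A)) = y ^ p := by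
  haveI hImax : (Ideal.span {algebraMap O A τ}).IsMaximal := by
    rw [← hI]
    exact (w.under A).isMaximal
  haveI hlo : w.asIdeal.LiesOver (Ideal.span {algebraMap O A τ}) := by
    rw [← hI]
    exact ⟨rfl⟩
  haveI := w.isMaximal
  rw [Ideal.inertiaDeg_eq_of_isMaximal (Ideal.span {algebraMap O A τ}) w.asIdeal] at hdeg
  letI : Field (A ⧸ Ideal.span {algebraMap O A τ}) := Ideal.Quotient.field _
  letI : Field (R ⧸ w.asIdeal) := Ideal.Quotient.field _
  haveI : Module.Finite (A ⧸ Ideal.span {algebraMap O A τ}) (R ⧸ w.asIdeal) := by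
    haveI : Module.Finite A (R ⧸ w.asIdeal) := inferInstance
    exact Module.Finite.of_restrictScalars_finite A (A ⧸ Ideal.span {algebraMap O A τ})
      (R ⧸ w.asIdeal)
  set η : R ⧸ w.asIdeal := Ideal.Quotient.mk _ θ with hη
  have hcomp : (algebraMap (A ⧸ Ideal.span {algebraMap O A τ}) (R ⧸ w.asIdeal)).comp (red τ A) =
      (Ideal.Quotient.mk w.asIdeal).comp (algebraMap O R) := by
    refine RingHom.ext fun x => ?_
    show algebraMap (A ⧸ Ideal.span {algebraMap O A τ}) (R ⧸ w.asIdeal)
      (Ideal.Quotient.mk _ (algebraMap O A x)) = Ideal.Quotient.mk w.asIdeal (algebraMap O R x)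
    rw [IsScalarTower.algebraMap_apply O A R]
    rfl
  have hev : ∀ P : O[X], aeval η (P.map (red τ A)) = Ideal.Quotient.mk w.asIdeal (aeval θ P) := by
    intro P
    rw [aeval_def, eval₂_map, hcomp, ← hom_eval₂, aeval_def]
  set Gb := G.map (red τ A) with hGb
  have hroot : aeval η Gb = 0 := by
    rw [hGb, hev, Ideal.Quotient.eq_zero_iff_mem]
    exact hGw
  haveI : Fact (Irreducible Gb) := ⟨hG⟩
  let φ : AdjoinRoot Gb →ₐ[A ⧸ Ideal.span {algebraMap O A τ}] R ⧸ w.asIdeal :=
    AdjoinRoot.liftAlgHom Gb (Algebra.ofId _ _) η (by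
      rw [← hroot, aeval_def]
      rfl)
  have hφ : ∀ P : (A ⧸ Ideal.span {algebraMap O A τ})[X], φ (AdjoinRoot.mk _ P) = aeval η P := by
    intro P
    show AdjoinRoot.liftAlgHom Gb (Algebra.ofId _ _) η _ (AdjoinRoot.mk _ P) = _
    rw [AdjoinRoot.liftAlgHom_mk, aeval_def]
    rfl
  have hinj : Function.Injective φ := φ.toRingHom.injective
  have hfr : Module.finrank (A ⧸ Ideal.span {algebraMap O A τ}) (AdjoinRoot Gb) =
      Module.finrank (A ⧸ Ideal.span {algebraMap O A τ}) (R ⧸ w.asIdeal) := by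
    rw [hdeg]
    have h1 := (AdjoinRoot.powerBasis hG.ne_zero).finrank
    rw [h1, AdjoinRoot.powerBasis_dim, hGb, hm.natDegree_map]
  haveI : Module.Finite (A ⧸ Ideal.span {algebraMap O A τ}) (AdjoinRoot Gb) :=
    (AdjoinRoot.powerBasis hG.ne_zero).finite
  have hsurj : Function.Surjective φ :=
    (LinearMap.injective_iff_surjective_of_finrank_eq_finrank (f := φ.toLinearMap) hfr).1 hinj
  obtain ⟨y, hy⟩ := hsurj (Ideal.Quotient.mk w.asIdeal β)
  refine ⟨y, hinj ?_⟩
  rw [hφ, hev, map_pow, hy, ← map_pow, Ideal.Quotient.eq]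
  exact hP

end res

end Pool.Agent.H89.GM
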