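import Pool.Agent.H89.GM.ResF

/-!
# Elements with valuations divisible by `p` outside the marked places
-/

set_option autoImplicit false
set_option linter.all false

open Polynomial IsDedekindDomain WithZero
open scoped Classical

namespace Pool.Agent.H89.GM

open Pool.Agent.H89.GB
open Pool.Agent.H89.KT (root_of norm_gal norm_pw)
open Pool.Agent.Y160.SE (IsPw)
open Pool.Agent.Q45.TT (val_under ram_ne_zero exists_above sum_ef)

/-- Powers of `exp (-1)`. -/
theorem dvd_exp {p n : ℕ} (hp : p ≠ 0) (h : IsPw p (exp (-1 : ℤ) ^ n)) : p ∣ n := by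
  obtain ⟨δ, hδ⟩ := h
  have hδ0 : δ ≠ 0 := by
    rintro rfl
    rw [zero_pow hp] at hδ
    exact pow_ne_zero n exp_ne_zero hδ
  obtain ⟨m, hm⟩ : ∃ m : ℤ, δ = exp m := ⟨_, (exp_log hδ0).symm⟩
  rw [hm, ← exp_nsmul, ← exp_nsmul] at hδ
  have h3 := exp_injective hδ
  rw [nsmul_eq_mul, nsmul_eq_mul] at h3
  have h4 : (p : ℤ) ∣ n := ⟨-m, by linarith⟩
  exact Int.natCast_dvd_natCast.1 h4

/-- The correction by a power of `exp (-1)`. -/
theorem exists_exp {p : ℕ} (hp : p ≠ 0) {γ : WithZero (Multiplicative ℤ)} (hγ : γ ≠ 0) :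
    ∃ n : ℕ, IsPw p (γ * exp (-1 : ℤ) ^ n) := by
  obtain ⟨m, hm⟩ : ∃ m : ℤ, γ = exp m := ⟨_, (exp_log hγ).symm⟩
  have hp0 : (p : ℤ) ≠ 0 := by exact_mod_cast hp
  refine ⟨(m % p).toNat, exp (m / p), ?_⟩
  rw [hm, ← exp_nsmul, ← exp_nsmul, ← exp_add]
  congr 1
  rw [nsmul_eq_mul, nsmul_eq_mul, Int.toNat_of_nonneg (Int.emod_nonneg m hp0)]
  have := Int.emod_add_mul_ediv m p
  linarith

section step

variable {O : Type} [CommRing O] [IsDedekindDomain O] {f : O[X]} {p : ℕ} {τ : O} {r : ℕ}
  {Q : Fin (r + 1) → O[X]} {K' L' A' R' : Type} [Field K'] [Field L'] [Algebra O K'] [Algebra O L']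
  [Algebra K' L'] [IsScalarTower O K' L'] [CommRing A'] [IsDedekindDomain A'] [CommRing R']
  [IsDedekindDomain R'] [Algebra O A'] [Algebra O R'] [Algebra A' K'] [Algebra R' L']
  [IsScalarTower O A' K'] [IsScalarTower O R' L'] [IsFractionRing A' K'] [IsFractionRing R' L']
  [IsIntegralClosure R' O L'] [Algebra A' R'] [IsScalarTower O A' R'] [Module.Finite A' R']
  [Module.IsTorsionFree A' R']

/-- **Elements with valuations divisible by `p` outside the marked places.** -/
theorem base_pt (hp : p.Prime) (hf : Pol p f) (htriv : Triv p f K') {θ : R'}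
    (hθ : aeval (algebraMap R' L' θ) (fK f K') = 0)
    (htop : IntermediateField.adjoin K' {algebraMap R' L' θ} = ⊤)
    (hirr : Irreducible (fK f K')) (hsep : (fK f K').Separable)
    (hcomp : ∀ a : A', algebraMap K' L' (algebraMap A' K' a) = algebraMap R' L' (algebraMap A' R' a))
    (hM : Marked f τ Q A') {q : Fin (r + 1) → HeightOneSpectrum R'}
    (hq1 : ∀ i j, (q i).valuation L' (algebraMap R' L' (aeval θ (Q j))) =
      if j = i then exp (-1 : ℤ) else 1)
    (hq3 : ∀ w : HeightOneSpectrum R', algebraMap O R' τ ∈ w.asIdeal → ∃ i, w = q i)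
    (hq4 : ∀ w : HeightOneSpectrum R', algebraMap O R' τ ∉ w.asIdeal →
      ∀ i, w.valuation L' (algebraMap R' L' (aeval θ (Q i))) = 1)
    {x : L'} (hx : x ≠ 0) {c : K'} (hc : Algebra.norm K' x = c ^ p)
    (hev : ∀ w : HeightOneSpectrum R', algebraMap O R' τ ∉ w.asIdeal → IsPw p (w.valuation L' x)) :
    ∃ (e : Fin (r + 1) → ℕ) (y : L'), y ≠ 0 ∧
      x = (∏ i, algebraMap R' L' (aeval θ (Q i)) ^ e i) * y ^ p := by
  letI : Algebra A' L' := ((algebraMap K' L').comp (algebraMap A' K')).toAlgebra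
  haveI : IsScalarTower A' K' L' := IsScalarTower.of_algebraMap_eq fun x => rfl
  haveI : IsScalarTower A' R' L' := IsScalarTower.of_algebraMap_eq fun x => hcomp x
  have hm := fK_monic hf K'
  haveI : FiniteDimensional K' L' := Pool.Agent.Q45.TW.fin_of hm hθ htop
  set g : Fin (r + 1) → L' := fun i => algebraMap R' L' (aeval θ (Q i)) with hg
  have hg0 : ∀ i, g i ≠ 0 := by
    intro i h0
    have h1 := hq1 i i
    have h3 : algebraMap R' L' (aeval θ (Q i)) = 0 := h0
    rw [h3, map_zero, if_pos rfl] at h1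
    exact exp_ne_zero h1.symm
  have hxv : ∀ i, (q i).valuation L' x ≠ 0 := fun i => (Valuation.ne_zero_iff _).2 hx
  choose e he using fun i => exists_exp hp.ne_zero (hxv i)
  set Pe : L' := ∏ i, ((-1) ^ (Q i).natDegree * g i) ^ e i with hPe
  have hPe0 : Pe ≠ 0 := by
    rw [hPe, Finset.prod_ne_zero_iff]
    exact fun i _ => pow_ne_zero _ (mul_ne_zero (pow_ne_zero _ (neg_ne_zero.2 one_ne_zero)) (hg0 i))
  have hvPe : ∀ w : HeightOneSpectrum R', w.valuation L' Pe = ∏ i, w.valuation L' (g i) ^ e i := by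
    intro w
    rw [hPe, map_prod]
    refine Finset.prod_congr rfl fun i _ => ?_
    rw [map_pow, map_mul, map_pow, Valuation.map_neg, map_one, one_pow, one_mul]
  have hevw : ∀ w : HeightOneSpectrum R', IsPw p (w.valuation L' (x * Pe)) := by
    intro w
    rw [map_mul, hvPe]
    by_cases hw : algebraMap O R' τ ∈ w.asIdeal
    · obtain ⟨i, rfl⟩ := hq3 w hw
      have h1 : ∏ j, (q i).valuation L' (g j) ^ e j = exp (-1 : ℤ) ^ e i := by
        rw [Finset.prod_eq_single i]
        · have h3 := hq1 i i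
          rw [if_pos rfl] at h3
          rw [hg]
          simp only
          rw [h3]
        · intro j _ hj
          have h3 := hq1 i j
          rw [if_neg hj] at h3
          rw [hg]
          simp only
          rw [h3, one_pow]
        · intro h
          exact absurd (Finset.mem_univ i) h
      rw [h1]
      exact he i
    · have h1 : ∏ j, w.valuation L' (g j) ^ e j = 1 :=
        Finset.prod_eq_one fun j _ => by
          have h3 := hq4 w hw j
          rw [hg]
          simp only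
          rw [h3, one_pow]
      rw [h1, mul_one]
      exact hev w hw
  -- the norm
  have hno : ∀ i, Algebra.norm K' ((-1) ^ (Q i).natDegree * g i) =
      algebraMap O K' τ ^ (Q i).natDegree := by
    intro i
    have h1 := norm_dvd (algebraMap O K' τ) hm hirr hsep hθ htop
      (b := (Q i).map (algebraMap O K')) ((hM.monic i).map _) (by
        have h1 : Q i ∣ f - C τ := by
          rw [← hM.prod]
          exact Finset.dvd_prod_of_mem _ (Finset.mem_univ i)
        have h3 := Polynomial.map_dvd (algebraMap O K') h1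
        rwa [Polynomial.map_sub, map_C] at h3)
    rw [(hM.monic i).natDegree_map, aeval_map_algebraMap, aeval_algebraMap_apply] at h1
    exact h1
  set E : ℕ := ∑ i, (Q i).natDegree * e i with hE
  have hnoPe : Algebra.norm K' Pe = algebraMap O K' τ ^ E := by
    rw [hPe, map_prod, hE, ← Finset.prod_pow_eq_pow_sum]
    refine Finset.prod_congr rfl fun i _ => ?_
    rw [map_pow, hno, ← pow_mul]
  have hc' := hM.prime
  have hc0 : c ≠ 0 := by
    rintro rfl
    rw [zero_pow hp.ne_zero] at hc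
    exact hx (Algebra.norm_eq_zero_iff.1 hc)
  obtain ⟨e', he'⟩ : p ∣ E := by
    have h1 := norm_pw (A := A') (R := R') (K := K') (L := L') hp.ne_zero (mul_ne_zero hx hPe0) hevw
      ⟨Ideal.span {algebraMap O A' τ}, (Ideal.span_singleton_prime hc'.ne_zero).2 hc',
        fun h => hc'.ne_zero (Ideal.span_singleton_eq_bot.1 h)⟩
    rw [map_mul, hc, hnoPe, mul_comm, map_mul, map_pow, map_pow] at h1
    have h3 := IsPw.of_mul ((Valuation.ne_zero_iff _).2 hc0) h1
    rw [IsScalarTower.algebraMap_apply O A' K', HeightOneSpectrum.valuation_of_algebraMap,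
      HeightOneSpectrum.intValuation_singleton _ hc'.ne_zero rfl] at h3
    exact dvd_exp hp.ne_zero h3
  obtain ⟨c₂, hc₂⟩ := htriv L' _ hθ htop R' (x * Pe) (mul_ne_zero hx hPe0) hevw
    ⟨c * algebraMap O K' τ ^ e', by
      rw [map_mul, hc, hnoPe, he', mul_pow, ← pow_mul, mul_comm e']⟩
  have hc₂0 : c₂ ≠ 0 := by
    rintro rfl
    rw [zero_pow hp.ne_zero] at hc₂
    exact mul_ne_zero hx hPe0 hc₂
  -- the conclusion
  set G : L' := ∏ i, g i ^ e i with hG
  have hG0 : G ≠ 0 := by
    rw [hG, Finset.prod_ne_zero_iff]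
    exact fun i _ => pow_ne_zero _ (hg0 i)
  have hPeG : Pe = ((-1) ^ e') ^ p * G := by
    rw [hPe, hG]
    have h1 : ∏ i, ((-1 : L') ^ (Q i).natDegree * g i) ^ e i =
        (∏ i, ((-1 : L') ^ ((Q i).natDegree * e i))) * ∏ i, g i ^ e i := by
      rw [← Finset.prod_mul_distrib]
      refine Finset.prod_congr rfl fun i _ => ?_
      rw [mul_pow, ← pow_mul]
    rw [h1, Finset.prod_pow_eq_pow_sum, ← hE, he', ← pow_mul, mul_comm e']
  have hone : ((-1 : L') ^ e') * (-1) ^ e' = 1 := by
    rw [← mul_pow, neg_one_mul, neg_neg, one_pow]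
  have h1p : ((-1 : L') ^ e') ^ p * ((-1) ^ e') ^ p = 1 := by
    rw [← mul_pow, hone, one_pow]
  refine ⟨fun i => (p - 1) * e i, c₂ * (-1) ^ e' / G,
    div_ne_zero (mul_ne_zero hc₂0 (pow_ne_zero _ (neg_ne_zero.2 one_ne_zero))) hG0, ?_⟩
  have h3 : ∏ i, g i ^ ((p - 1) * e i) = G ^ (p - 1) := by
    rw [hG, ← Finset.prod_pow]
    refine Finset.prod_congr rfl fun i _ => ?_
    rw [← pow_mul, mul_comm]
  show x = (∏ i, g i ^ ((p - 1) * e i)) * _
  rw [h3, div_pow, mul_pow, ← hc₂, hPeG]
  have hpp : p - 1 + 1 = p := Nat.sub_add_cancel hp.one_le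
  have h4 : G ^ p = G ^ (p - 1) * G := by
    conv_lhs => rw [← hpp, pow_succ]
  rw [h4]
  have h5 : G ^ (p - 1) ≠ 0 := pow_ne_zero _ hG0
  field_simp
  rw [sq]
  exact h1p.symm

end step

end Pool.Agent.H89.GM
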