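import Pool.Agent.H89.GM.MMain

/-!
# The tower with one more root of exponent `p ^ m`
-/

set_option autoImplicit false
set_option linter.all false

open Polynomial IsDedekindDomain WithZero
open scoped Classical

namespace Pool.Agent.H89.GM

open Pool.Agent.H89.GB
open Pool.Agent.H89.KT (root_of norm_gal norm_pw pw_hom)
open Pool.Agent.Y160.SE (IsPw)
open Pool.Agent.Q45.GP (Regular)
open Pool.Agent.Q45.TT (val_under ram_ne_zero exists_above sum_ef tf_of reg_sep)

section tower

variable {O : Type} [CommRing O] [IsDedekindDomain O] {p : ℕ}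

/-- The tower with a root of exponent `p ^ m`. -/
theorem tower_add {K' K : Type} [Field K'] [Field K] [Algebra O K'] [Algebra O K]
    [Algebra K' K] [IsScalarTower O K' K] {D : K'} {s : K} {m : ℕ} (hm : m ≠ 0)
    (hs : s ^ p ^ m = algebraMap K' K D) (htop : IntermediateField.adjoin K' {s} = ⊤) {m' : ℕ}
    {s' : ℕ → K'} (h : IsTower p O K' m' s') :
    IsTower p O K (m' + m)
      (fun j => if j < m' then algebraMap K' K (s' j) else s ^ p ^ (m' + m - 1 - j)) := by
  set u : ℕ → K := fun j => if j < m' then algebraMap K' K (s' j) else s ^ p ^ (m' + m - 1 - j)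
    with hu
  have hul : ∀ j < m', u j = algebraMap K' K (s' j) := fun j hj => if_pos hj
  have hur : ∀ j, m' ≤ j → u j = s ^ p ^ (m' + m - 1 - j) := fun j hj => if_neg (by omega)
  have himg : ∀ i ≤ m', algebraMap K' K '' (Set.range (algebraMap O K') ∪ s' '' {j | j < i}) =
      Set.range (algebraMap O K) ∪ u '' {j | j < i} := by
    intro i hi
    rw [Set.image_union]
    congr 1
    · rw [← Set.range_comp]
      congr 1
      funext p
      exact (IsScalarTower.algebraMap_apply O K' K p).symm
    · rw [Set.image_image]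
      ext x
      constructor
      · rintro ⟨j, hj, rfl⟩
        exact ⟨j, hj, hul j (lt_of_lt_of_le hj hi)⟩
      · rintro ⟨j, hj, rfl⟩
        exact ⟨j, hj, (hul j (lt_of_lt_of_le hj hi)).symm⟩
  have hcl : ∀ i ≤ m', ∀ x : K', x ∈ Subfield.closure (Set.range (algebraMap O K') ∪
      s' '' {j | j < i}) → algebraMap K' K x ∈
      Subfield.closure (Set.range (algebraMap O K) ∪ u '' {j | j < i}) := by
    intro i hi x hx
    rw [← himg i hi, ← RingHom.map_field_closure]
    exact Subfield.mem_map.2 ⟨x, hx, rfl⟩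
  have hmono : ∀ i j : ℕ, i ≤ j → Subfield.closure (Set.range (algebraMap O K) ∪ u '' {j | j < i}) ≤
      Subfield.closure (Set.range (algebraMap O K) ∪ u '' {l | l < j}) := by
    intro i j hij
    refine Subfield.closure_mono (Set.union_subset_union_right _ (Set.image_mono ?_))
    intro l hl
    exact lt_of_lt_of_le hl hij
  have hall : ∀ x : K', algebraMap K' K x ∈
      Subfield.closure (Set.range (algebraMap O K) ∪ u '' {j | j < m'}) := fun x =>
    hcl m' le_rfl x (by rw [h.gen]; trivial)
  refine ⟨?_, fun i hi => ?_, ?_⟩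
  · rw [IsScalarTower.algebraMap_eq O K' K]
    exact (algebraMap K' K).injective.comp h.inj
  · rcases lt_or_ge i m' with h1 | h1
    · rw [hul i h1, ← map_pow]
      exact hcl i h1.le _ (h.pw i h1)
    · rw [hur i h1, ← pow_mul, ← pow_succ]
      rcases Nat.eq_or_lt_of_le h1 with h3 | h3
      · subst h3
        rw [show m' + m - 1 - m' + 1 = m by omega, hs]
        exact hall D
      · obtain ⟨j, rfl⟩ : ∃ j, i = j + 1 := ⟨i - 1, by omega⟩
        rw [show m' + m - 1 - (j + 1) + 1 = m' + m - 1 - j by omega, ← hur j (by omega)]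
        exact Subfield.subset_closure (Or.inr ⟨j, Nat.lt_succ_self j, rfl⟩)
  · rw [eq_top_iff]
    rintro x -
    set S := Subfield.closure (Set.range (algebraMap O K) ∪ u '' {j | j < m' + m}) with hS
    have hK' : ∀ x : K', algebraMap K' K x ∈ S := fun x => hmono m' (m' + m) (by omega) (hall x)
    have hsS : s ∈ S := by
      refine Subfield.subset_closure (Or.inr ⟨m' + m - 1, ?_, ?_⟩)
      · show m' + m - 1 < m' + m
        omega
      · rw [hur _ (by omega), Nat.sub_self, pow_zero, pow_one]
    let T : IntermediateField K' K := S.toIntermediateField hK'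
    have h5 : (⊤ : IntermediateField K' K) ≤ T := by
      rw [← htop, IntermediateField.adjoin_simple_le_iff]
      exact hsS
    exact h5 (IntermediateField.mem_top (x := x))

end tower

section eis

variable {O : Type} [CommRing O] [IsDedekindDomain O] {p : ℕ}

/-- The polynomial `X ^ N - τ` is irreducible, if `τ` is a prime. -/
theorem irr_eis {A' K' : Type} [CommRing A'] [IsDedekindDomain A'] [Field K'] [Algebra A' K']
    [IsFractionRing A' K'] {d : A'} (hd : Prime d) {N : ℕ} (hN : 1 < N) :
    Irreducible (X ^ N - C (algebraMap A' K' d) : K'[X]) := by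
  have hmon : (X ^ N - C d : A'[X]).Monic := monic_X_pow_sub_C _ (by omega)
  have hprime : (Ideal.span {d}).IsPrime := (Ideal.span_singleton_prime hd.ne_zero).2 hd
  have hI0 : Ideal.span {d} ≠ ⊥ := fun h => hd.ne_zero (Ideal.span_singleton_eq_bot.1 h)
  have heis : (X ^ N - C d : A'[X]).IsEisensteinAt (Ideal.span {d}) := by
    refine ⟨?_, fun {n} hn => ?_, ?_⟩
    · rw [hmon.leadingCoeff]
      exact fun h => hprime.ne_top ((Ideal.eq_top_iff_one _).2 h)
    · rw [natDegree_X_pow_sub_C] at hn
      rw [coeff_sub, coeff_X_pow, if_neg hn.ne, zero_sub, neg_mem_iff, coeff_C]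
      split_ifs
      · exact Ideal.mem_span_singleton_self d
      · exact Ideal.zero_mem _
    · rw [coeff_sub, coeff_X_pow, if_neg (by omega), coeff_C_zero, zero_sub, neg_mem_iff,
        Ideal.span_singleton_pow, Ideal.mem_span_singleton]
      intro h
      obtain ⟨c, hc⟩ := h
      have h1 : d * (d * c) = d * 1 := by rw [mul_one, ← mul_assoc, ← sq, ← hc]
      exact hd.not_unit (IsUnit.of_mul_eq_one c (mul_left_cancel₀ hd.ne_zero h1))
  have h1 := heis.irreducible hprime hmon.isPrimitive (by rw [natDegree_X_pow_sub_C]; omega)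
  have h3 := (hmon.irreducible_iff_irreducible_map_fraction_map (K := K')).1 h1
  rwa [Polynomial.map_sub, Polynomial.map_pow, map_X, map_C] at h3

end eis

section reg2

variable {O : Type} [CommRing O] [IsDedekindDomain O] {f : O[X]} {p : ℕ}

variable {F : Type} [Field F] {A : Type} [CommRing A] [IsDedekindDomain A]
  [Algebra O A] [Algebra A F] [IsFractionRing A F] [Module.Finite O A]
  [Module.IsTorsionFree O A] [Algebra.IsIntegral O A]

/-- **Regularity.** -/
theorem regular_of' (H : Base p O) (hfm : f.Monic) [IsDedekindDomain (AdjoinRoot f)]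
    (hpow : ∀ v : HeightOneSpectrum A, ∃ j : ℕ, v.asIdeal.inertiaDeg O = p ^ j)
    (hsep : ∀ (P : HeightOneSpectrum O) (v : HeightOneSpectrum A),
      P.asIdeal.map (algebraMap O A) ≤ v.asIdeal ^ 2 →
        (f.map (Ideal.Quotient.mk P.asIdeal)).Separable) : Regular F (fK f A) := by
  intro v a ha hirr
  obtain ⟨P, hP⟩ : ∃ P, P = v.under O := ⟨_, rfl⟩
  haveI : P.asIdeal.IsMaximal := P.isMaximal
  haveI : v.asIdeal.IsMaximal := v.isMaximal
  haveI hlo : v.asIdeal.LiesOver P.asIdeal := by rw [hP]; exact ⟨rfl⟩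
  by_cases hunr : P.asIdeal.map (algebraMap O A) ≤ v.asIdeal ^ 2
  · have hs := hsep P v hunr
    refine reg_sep v _ ?_ a ha hirr
    have hker : ∀ x ∈ P.asIdeal, ((rs F v).comp (algebraMap O A)) x = 0 := by
      intro x hx
      show rs F v (algebraMap O A x) = 0
      rw [rs_zero]
      exact Ideal.pow_le_self two_ne_zero (hunr (Ideal.mem_map_of_mem _ hx))
    have h3 : (fK f A).map ((IsLocalRing.residue (v.adicCompletionIntegers F)).comp
      (algebraMap A (v.adicCompletionIntegers F))) = (f.map (Ideal.Quotient.mk P.asIdeal)).map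
        (Ideal.Quotient.lift P.asIdeal ((rs F v).comp (algebraMap O A)) hker) := by
      unfold fK
      rw [Polynomial.map_map, Polynomial.map_map]
      congr 1
    rw [h3]
    exact hs.map
  · intro hmem
    obtain ⟨b, hbm, hb, hfb⟩ := sq_desc2 v (fK f A) ha hirr hmem
    obtain ⟨j, hj⟩ := hpow v
    rw [Ideal.inertiaDeg_eq_of_isMaximal P.asIdeal v.asIdeal] at hj
    have hfin : Module.Finite (O ⧸ P.asIdeal) (A ⧸ v.asIdeal) := inferInstance
    have hun : ∀ π ∈ P.asIdeal, π ∉ P.asIdeal ^ 2 → algebraMap O A π ∉ v.asIdeal ^ 2 := by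
      intro π hπ hπ2 h
      obtain ⟨I, hI⟩ : P.asIdeal ∣ Ideal.span {π} := by
        rw [Ideal.dvd_span_singleton]
        exact hπ
      obtain ⟨σ, hσI, hσP⟩ : ∃ σ ∈ I, σ ∉ P.asIdeal := by
        by_contra hcon
        push Not at hcon
        apply hπ2
        have h1 : P.asIdeal ^ 2 ∣ Ideal.span {π} := by
          rw [hI, pow_two]
          exact mul_dvd_mul_left _ (Ideal.dvd_iff_le.2 hcon)
        rwa [Ideal.dvd_span_singleton] at h1
      have h1 : v.asIdeal ^ 2 ∣ P.asIdeal.map (algebraMap O A) * I.map (algebraMap O A) := by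
        rw [← Ideal.map_mul, ← hI, Ideal.map_span, Set.image_singleton, Ideal.dvd_span_singleton]
        exact h
      have h3 : ¬ v.asIdeal ∣ I.map (algebraMap O A) := by
        intro h4
        have h5 := Ideal.dvd_iff_le.1 h4 (Ideal.mem_map_of_mem _ hσI)
        apply hσP
        have h6 : P.asIdeal = v.asIdeal.under O := hlo.over
        rw [h6]
        exact h5
      exact hunr (Ideal.dvd_iff_le.1 (v.prime.pow_dvd_of_dvd_mul_right 2 h3 h1))
    obtain ⟨b', hbm', hb', hfb'⟩ := desc P v H.prime H.unit hj hun hfm hbm hb hfb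
    exact nmem_sq hfm P hbm' hb' hfb'

end reg2

end Pool.Agent.H89.GM
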